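import Pool.Agent.H55.TH.Strat

/-!
# Bordered symmetric matrices

The determinant of a matrix with the blocks `X`, `Y`, the transpose of `Y` and a symmetric matrix of new
coordinates, where `X` and `Y` are functions on a base.
-/

set_option autoImplicit false

open CategoryTheory AlgebraicGeometry MvPolynomial Pool.Agent.Y116.UV Pool.Agent.Q282.UK
  Pool.Agent.H81.RZ

namespace Pool.Agent.H55.TH

variable {R : Type} [CommRing R] {σ : Type} {sep : Prop} {P : Sch R → Prop}

/-- matrices of functions -/
abbrev MF (R : Type) [CommRing R] (σ K L : Type) :=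
  ∀ (C : Type) [CommRing C] [Algebra R C], (σ → C) → Matrix K L C

/-- natural on the points of `S` -/
def NatM (S : Pts R σ) {K L : Type} (X : MF R σ K L) : Prop :=
  ∀ (C D : Type) [CommRing C] [Algebra R C] [CommRing D] [Algebra R D] (f : C →ₐ[R] D)
    (p : σ → C), S.pts C p → (X C p).map f = X D (fun s => f (p s))

lemma HolA.affp {S : Pts R σ} (h : HolA P S) (τ : Type) [Finite τ] : HolA P (affp S τ) := by
  intro n
  have : Fintype τ := Fintype.ofFinite τ
  let e : τ ⊕ Fin n ≃ Fin (Fintype.card (τ ⊕ Fin n)) := Fintype.equivFin _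
  refine (h (Fintype.card (τ ⊕ Fin n))).trans
    (F := fun _ _ _ p => Sum.elim (Sum.elim (fun s => p (.inl s)) fun t => p (.inr (e (.inl t))))
      fun k => p (.inr (e (.inr k))))
    (G := fun _ _ _ q => Sum.elim (fun s => q (.inl (.inl s)))
      fun l => Sum.elim (fun t => q (.inl (.inr t))) (fun k => q (.inr k)) (e.symm l)) ?_
  exact
  { natF := fun f p _ t => by
      rcases t with (s | t) | k <;> rfl
    natG := fun f q _ t => by
      rcases t with s | l
      · rfl
      · change f (Sum.elim _ _ (e.symm l)) = Sum.elim _ _ (e.symm l)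
        rcases e.symm l with t | k <;> rfl
    memF := fun _ _ _ _ hp => hp
    memG := fun _ _ _ _ hq => hq
    GF := fun C _ _ p _ => by
      funext t
      rcases t with s | l
      · rfl
      · change Sum.elim (fun t => p (.inr (e (.inl t)))) (fun k => p (.inr (e (.inr k))))
          (e.symm l) = p (.inr l)
        have h1 : l = e (e.symm l) := (e.apply_symm_apply l).symm
        generalize e.symm l = x at h1
        subst h1
        rcases x with t | k <;> rfl
    FG := fun C _ _ q _ => by
      funext t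
      rcases t with (s | t) | k
      · rfl
      · change Sum.elim _ _ (e.symm (e (.inl t))) = _
        rw [e.symm_apply_apply]
        rfl
      · change Sum.elim _ _ (e.symm (e (.inr k))) = _
        rw [e.symm_apply_apply]
        rfl }

lemma repr_affp {S : Pts R σ} (hS : Repr S) (τ : Type) [Finite τ] : Repr (affp S τ) := by
  obtain ⟨A, i1, i2, i3, a, h1, -⟩ := hS
  exact ⟨_, inferInstance, inferInstance, Algebra.FiniteType.trans (S := A) inferInstance
    inferInstance, _, rep_affp h1 _, trivial⟩

/-- with a symmetric matrix of new coordinates -/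
def symA (S : Pts R σ) (L : Type) : Pts R (σ ⊕ L × L) where
  pts C _ _ p := S.pts C (fun s => p (.inl s)) ∧ ∀ i j, p (.inr (i, j)) = p (.inr (j, i))
  map f _ h := ⟨S.map f h.1, fun i j => congrArg f (h.2 i j)⟩

/-- the symmetric matrix -/
def sm {L C : Type} (p : σ ⊕ L × L → C) : Matrix L L C := Matrix.of fun i j => p (.inr (i, j))

lemma bij_sym (S : Pts R σ) (L : Type) : Bij (affp S (Sym2 L)) (symA S L)
    (fun _ _ _ p => Sum.elim (fun s => p (.inl s)) fun e => p (.inr s(e.1, e.2)))
    (fun _ _ _ q => Sum.elim (fun s => q (.inl s))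
      fun e => q (.inr ((Quot.out e).1, (Quot.out e).2))) where
  natF f p _ t := by rcases t with s | e <;> rfl
  natG f p _ t := by rcases t with s | e <;> rfl
  memF C _ _ p hp := by
    refine ⟨hp, fun i j => ?_⟩
    change p (.inr s(i, j)) = p (.inr s(j, i))
    rw [Sym2.eq_swap]
  memG C _ _ q hq := hq.1
  GF C _ _ p hp := by
    funext t
    rcases t with s | e
    · rfl
    · change p (.inr s((Quot.out e).1, (Quot.out e).2)) = p (.inr e)
      have h6 : s((Quot.out e).1, (Quot.out e).2) = e := Quot.out_eq e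
      rw [h6]
  FG C _ _ q hq := by
    funext t
    rcases t with s | ⟨x, y⟩
    · rfl
    · change q (.inr ((Quot.out s(x, y)).1, (Quot.out s(x, y)).2)) = q (.inr (x, y))
      have h6 : s((Quot.out s(x, y)).1, (Quot.out s(x, y)).2) = s(x, y) := Quot.out_eq s(x, y)
      rcases Sym2.eq_iff.mp h6 with ⟨h7, h8⟩ | ⟨h7, h8⟩
      · rw [h7, h8]
      · rw [h7, h8]
        exact hq.2 y x

lemma repr_sym {S : Pts R σ} (hS : Repr S) (L : Type) [Finite L] : Repr (symA S L) :=
  (repr_affp hS (Sym2 L)).trans (bij_sym S L)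

lemma HolA.sym {S : Pts R σ} (hS : HolA P S) (L : Type) [Finite L] : HolA P (symA S L) :=
  (hS.affp (Sym2 L)).trans (bij_sym S L)

section bor

variable {K L : Type} [Fintype K] [Fintype L] [DecidableEq K] [DecidableEq L]

/-- the bordered matrix -/
def bm (X : MF R σ K K) (Y : MF R σ K L) (C : Type) [CommRing C] [Algebra R C]
    (p : σ ⊕ L × L → C) : Matrix (K ⊕ L) (K ⊕ L) C :=
  Matrix.fromBlocks (X C fun s => p (.inl s)) (Y C fun s => p (.inl s))
    (Y C fun s => p (.inl s)).transpose (sm p)

/-- its determinant -/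
def bmFn {S : Pts R σ} {X : MF R σ K K} {Y : MF R σ K L} (hX : NatM S X) (hY : NatM S Y) :
    Fn (symA S L) where
  val C _ _ p := (bm X Y C p).det
  nat {C D} _ _ _ _ f p h := by
    rw [AlgHom.map_det]
    congr 1
    have h1 := hX C D f _ h.1
    have h2 := hY C D f _ h.1
    have h3 : (bm X Y C p).map f = bm X Y D fun s => f (p s) := by
      rw [bm, Matrix.fromBlocks_map, Matrix.transpose_map, h1, h2]
      rfl
    exact h3

/-- the points with an invertible bordered matrix -/
abbrev bor (S : Pts R σ) (X : MF R σ K K) (Y : MF R σ K L) (hX : NatM S X) (hY : NatM S Y) :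
    Pts R (σ ⊕ L × L) := (symA S L).opn (bmFn hX hY)

variable {S : Pts R σ} {X : MF R σ K K} {Y : MF R σ K L} (hX : NatM S X) (hY : NatM S Y)

lemma repr_bor (hS : Repr S) : Repr (bor S X Y hX hY) := (repr_sym hS L).opn _

lemma bor_void (hP : Clo sep P) {σ' : Type} {S' : Pts R σ'} (hS' : HolA P S') (hS : Repr S)
    (h : ∀ (C : Type) [CommRing C] [Algebra R C] (p : σ ⊕ L × L → C), (bor S X Y hX hY).pts C p →
      (bm X Y C p).det = 0) : HolA P (bor S X Y hX hY) := by
  refine HolA.void hP hS' (fun C _ _ p hC => repr_sub (repr_bor hX hY hS) C p hC)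
    fun C _ _ p hp => ?_
  have h1 : IsUnit (bm X Y C p).det := hp.2
  rw [h C p hp] at h1
  exact subsingleton_of_zero_eq_one (isUnit_zero_iff.mp h1)

/-- cutting the base -/
lemma bor_total (hP : Clo sep P) (hS : Repr S) (e : Fn S)
    (hc : HolA P (bor (S.clo e) X Y (fun C D _ _ _ _ f p h => hX C D f p h.1)
      fun C D _ _ _ _ f p h => hY C D f p h.1))
    (ho : HolA P (bor (S.opn e) X Y (fun C D _ _ _ _ f p h => hX C D f p h.1)
      fun C D _ _ _ _ f p h => hY C D f p h.1)) : HolA P (bor S X Y hX hY) := by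
  refine HolA.total hP (repr_bor hX hY hS) ⟨fun C _ _ p => e.val C fun s => p (.inl s),
    fun f p h => e.nat f _ h.1.1⟩ ?_ ?_
  · refine hc.cg fun C _ _ p => ⟨?_, ?_⟩
    · rintro ⟨⟨⟨h1, h2⟩, h3⟩, h4⟩
      exact ⟨⟨⟨h1, h3⟩, h4⟩, h2⟩
    · rintro ⟨⟨⟨h1, h3⟩, h4⟩, h2⟩
      exact ⟨⟨⟨h1, h2⟩, h3⟩, h4⟩
  · refine ho.cg fun C _ _ p => ⟨?_, ?_⟩
    · rintro ⟨⟨⟨h1, h2⟩, h3⟩, h4⟩
      exact ⟨⟨⟨h1, h3⟩, h4⟩, h2⟩
    · rintro ⟨⟨⟨h1, h3⟩, h4⟩, h2⟩
      exact ⟨⟨⟨h1, h2⟩, h3⟩, h4⟩

/-- the same base -/
lemma bor_cg {S' : Pts R σ} {hX' : NatM S' X} {hY' : NatM S' Y}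
    (h : ∀ (C : Type) [CommRing C] [Algebra R C] (p : σ → C), S'.pts C p ↔ S.pts C p)
    (h' : HolA P (bor S' X Y hX' hY')) : HolA P (bor S X Y hX hY) := by
  refine h'.cg fun C _ _ p => ⟨?_, ?_⟩
  · rintro ⟨⟨h1, h2⟩, h3⟩
    exact ⟨⟨(h C _).mp h1, h2⟩, h3⟩
  · rintro ⟨⟨h1, h2⟩, h3⟩
    exact ⟨⟨(h C _).mpr h1, h2⟩, h3⟩

end bor

section dsy

variable {L : Type} [Fintype L] [DecidableEq L]

/-- the determinant of the symmetric matrix -/
def smFn (S : Pts R σ) (L : Type) [Fintype L] [DecidableEq L] : Fn (symA S L) where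
  val _ _ _ p := (sm p).det
  nat f p _ := by
    rw [AlgHom.map_det]
    rfl

/-- the invertible symmetric matrices -/
abbrev dsy (S : Pts R σ) (L : Type) [Fintype L] [DecidableEq L] : Pts R (σ ⊕ L × L) :=
  (symA S L).opn (smFn S L)

/-- the property is inherited by the invertible symmetric matrices -/
def D0 (P : Sch R → Prop) (L : Type) [Fintype L] [DecidableEq L] : Prop :=
  ∀ (σ : Type) (S : Pts R σ), HolA P S → HolA P (dsy S L)

lemma D0.equiv {L' : Type} [Fintype L'] [DecidableEq L'] (e : L ≃ L') (h : D0 P L) : D0 P L' := by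
  intro σ S hS
  refine (h σ S hS).trans
    (F := fun _ _ _ p => Sum.elim (fun s => p (.inl s)) fun t => p (.inr (e.symm t.1, e.symm t.2)))
    (G := fun _ _ _ p => Sum.elim (fun s => p (.inl s)) fun t => p (.inr (e t.1, e t.2))) ?_
  exact
  { natF := fun f p _ t => by rcases t with s | t <;> rfl
    natG := fun f p _ t => by rcases t with s | t <;> rfl
    memF := fun C _ _ p hp => by
      refine ⟨⟨hp.1.1, fun i j => hp.1.2 _ _⟩, ?_⟩
      have h1 : IsUnit ((sm p).submatrix e.symm e.symm).det := by
        rw [Matrix.det_submatrix_equiv_self]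
        exact hp.2
      exact h1
    memG := fun C _ _ p hp => by
      refine ⟨⟨hp.1.1, fun i j => hp.1.2 _ _⟩, ?_⟩
      have h1 : IsUnit ((sm p).submatrix e e).det := by
        rw [Matrix.det_submatrix_equiv_self]
        exact hp.2
      exact h1
    GF := fun C _ _ p _ => by
      funext t
      rcases t with s | ⟨x, y⟩
      · rfl
      · change p (.inr (e.symm (e x), e.symm (e y))) = _
        rw [e.symm_apply_apply, e.symm_apply_apply]
    FG := fun C _ _ p _ => by
      funext t
      rcases t with s | ⟨x, y⟩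
      · rfl
      · change p (.inr (e (e.symm x), e (e.symm y))) = _
        rw [e.apply_symm_apply, e.apply_symm_apply] }

lemma d0_empty [IsEmpty L] : D0 P L := by
  intro σ S hS
  refine hS.trans (F := fun _ _ _ p => Sum.elim p fun t => isEmptyElim t.1)
    (G := fun _ _ _ p s => p (.inl s)) ?_
  exact
  { natF := fun f p _ t => by
      rcases t with s | t
      · rfl
      · exact isEmptyElim t.1
    natG := fun f p _ s => rfl
    memF := fun C _ _ p hp => by
      refine ⟨⟨hp, fun i => isEmptyElim i⟩, ?_⟩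
      change IsUnit (Matrix.det _)
      rw [Matrix.det_isEmpty]
      exact isUnit_one
    memG := fun C _ _ p hp => hp.1.1
    GF := fun C _ _ p _ => rfl
    FG := fun C _ _ p _ => by
      funext t
      rcases t with s | t
      · rfl
      · exact isEmptyElim t.1 }

end dsy

section schur

lemma map_nonsing {K C D : Type} [Fintype K] [DecidableEq K] [CommRing C] [CommRing D] (f : C →+* D)
    (X : Matrix K K C) (h : IsUnit X.det) : (X⁻¹).map f = (X.map f)⁻¹ := by
  rw [Matrix.inv_def, Matrix.inv_def]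
  have h1 : (X.map f).det = f X.det := (RingHom.map_det f X).symm
  have h2 : (X.map f).adjugate = X.adjugate.map f := (RingHom.map_adjugate f X).symm
  rw [h1, h2, ← map_inverse_of_isUnit f h]
  ext i j
  simp only [Matrix.map_apply, Matrix.smul_apply, smul_eq_mul, map_mul]

variable {K L : Type} [Fintype K] [Fintype L] [DecidableEq K] [DecidableEq L] {S : Pts R σ}
  {X : MF R σ K K} {Y : MF R σ K L} (hX : NatM S X) (hY : NatM S Y)

/-- **Elimination of an invertible block.** -/
theorem holA_schur (hS : HolA P S)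
    (hXs : ∀ (C : Type) [CommRing C] [Algebra R C] (p : σ → C), S.pts C p →
      (X C p).transpose = X C p)
    (hXu : ∀ (C : Type) [CommRing C] [Algebra R C] (p : σ → C), S.pts C p → IsUnit (X C p).det)
    (hD : D0 P L) : HolA P (bor S X Y hX hY) := by
  let T : MF R σ L L := fun C _ _ p => (Y C p).transpose * (X C p)⁻¹ * Y C p
  have hT : ∀ (C D : Type) [CommRing C] [Algebra R C] [CommRing D] [Algebra R D] (f : C →ₐ[R] D)
      (p : σ → C), S.pts C p → ∀ i j, f (T C p i j) = T D (fun s => f (p s)) i j := by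
    intro C D _ _ _ _ f p hp i j
    have h0 : ((X C p)⁻¹).map f = ((X C p).map f)⁻¹ := map_nonsing (f : C →+* D) _ (hXu C p hp)
    have h1 : (T C p).map (f : C →+* D) = T D (fun s => f (p s)) := by
      change (((Y C p).transpose * (X C p)⁻¹) * Y C p).map (f : C →+* D) = _
      rw [Matrix.map_mul, Matrix.map_mul, Matrix.transpose_map]
      change ((Y C p).map f).transpose * ((X C p)⁻¹).map f * (Y C p).map f = _
      rw [h0, hX C D f p hp, hY C D f p hp]
    exact congrFun (congrFun h1 i) j
  have hTs : ∀ (C : Type) [CommRing C] [Algebra R C] (p : σ → C), S.pts C p → ∀ i j,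
      T C p i j = T C p j i := by
    intro C _ _ p hp i j
    have h1 : (T C p).transpose = T C p := by
      change (((Y C p).transpose * (X C p)⁻¹) * Y C p).transpose = _
      rw [Matrix.transpose_mul, Matrix.transpose_mul, Matrix.transpose_transpose,
        Matrix.transpose_nonsing_inv, hXs C p hp]
      exact (Matrix.mul_assoc _ _ _).symm
    exact (congrFun (congrFun h1 i) j).symm
  have hdet : ∀ (C : Type) [CommRing C] [Algebra R C] (p : σ ⊕ L × L → C),
      S.pts C (fun s => p (.inl s)) → ∀ M : Matrix L L C,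
      M = sm p - T C (fun s => p (.inl s)) →
      (IsUnit (bm X Y C p).det ↔ IsUnit M.det) := by
    intro C _ _ p hp M hM
    let _ := Matrix.invertibleOfIsUnitDet (X C fun s => p (.inl s)) (hXu C _ hp)
    rw [bm, Matrix.det_fromBlocks₁₁, Matrix.invOf_eq_nonsing_inv, hM]
    exact (hXu C _ hp).mul_left_iff
  refine (hD σ S hS).trans
    (F := fun C _ _ p => Sum.elim (fun s => p (.inl s))
      fun t => p (.inr t) + T C (fun s => p (.inl s)) t.1 t.2)
    (G := fun C _ _ p => Sum.elim (fun s => p (.inl s))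
      fun t => p (.inr t) - T C (fun s => p (.inl s)) t.1 t.2) ?_
  exact
  { natF := fun f p hp t => by
      rcases t with s | t
      · rfl
      · change f (_ + _) = _ + _
        rw [map_add, hT _ _ f _ hp.1.1]
    natG := fun f p hp t => by
      rcases t with s | t
      · rfl
      · change f (_ - _) = _ - _
        rw [map_sub, hT _ _ f _ hp.1.1]
    memF := fun C _ _ p hp => by
      refine ⟨⟨hp.1.1, fun i j => ?_⟩, ?_⟩
      · change p (.inr (i, j)) + _ = p (.inr (j, i)) + _
        rw [hp.1.2 i j]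
        exact congrArg _ (hTs C _ hp.1.1 i j)
      · refine (hdet C (Sum.elim (fun s => p (.inl s))
          fun t => p (.inr t) + T C (fun s => p (.inl s)) t.1 t.2) hp.1.1 (sm p) ?_).mpr hp.2
        ext i j
        exact (add_sub_cancel_right _ _).symm
    memG := fun C _ _ p hp => by
      refine ⟨⟨hp.1.1, fun i j => ?_⟩, ?_⟩
      · change p (.inr (i, j)) - _ = p (.inr (j, i)) - _
        rw [hp.1.2 i j]
        exact congrArg _ (hTs C _ hp.1.1 i j)
      · exact (hdet C p hp.1.1 _ (by ext i j; rfl)).mp hp.2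
    GF := fun C _ _ p _ => by
      funext t
      rcases t with s | t
      · rfl
      · exact add_sub_cancel_right _ _
    FG := fun C _ _ p _ => by
      funext t
      rcases t with s | t
      · rfl
      · exact sub_add_cancel _ _ }

end schur

end Pool.Agent.H55.TH
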