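import Pool.Agent.H55.TH.Piv

/-!
# Symmetric matrices with free entries
-/

set_option autoImplicit false
set_option linter.unusedSectionVars false

open CategoryTheory AlgebraicGeometry MvPolynomial Pool.Agent.Y116.UV Pool.Agent.Q282.UK
  Pool.Agent.H81.RZ

namespace Pool.Agent.H55.TH

variable {R : Type} [CommRing R] {σ : Type} {sep : Prop} {P : Sch R → Prop}

section

variable {B L : Type} [Unique B] [Fintype B] [Fintype L] [DecidableEq B] [DecidableEq L]
  {S : Pts R σ}

/-- one more row, with a zero on the diagonal and at `J` -/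
def bs0 (S : Pts R σ) (B : Type) [Unique B] {L : Type} (J : Finset L) :
    Pts R ((σ ⊕ B × B) ⊕ B × L) where
  pts C _ _ q := S.pts C (fun s => q (.inl (.inl s))) ∧ q (.inl (.inr (default, default))) = 0 ∧
    ∀ l ∈ J, q (.inr (default, l)) = 0
  map f _ h := ⟨S.map f h.1, (congrArg f h.2.1).trans (map_zero f),
    fun l hl => (congrArg f (h.2.2 l hl)).trans (map_zero f)⟩

lemma holA_bs0 (hS : HolA P S) (J : Finset L) : HolA P (bs0 S B J) := by
  refine (hS.affp {l // l ∉ J}).trans
    (F := fun _ _ _ p t => match t with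
      | .inl (.inl s) => p (.inl s)
      | .inl (.inr _) => 0
      | .inr e => if h : e.2 ∉ J then p (.inr ⟨e.2, h⟩) else 0)
    (G := fun _ _ _ q t => match t with
      | .inl s => q (.inl (.inl s))
      | .inr l => q (.inr (default, l.1))) ?_
  exact
  { natF := fun f p _ t => by
      rcases t with (s | e) | e
      · rfl
      · exact map_zero f
      · change f (if h : e.2 ∉ J then p (.inr ⟨e.2, h⟩) else 0) =
          if h : e.2 ∉ J then f (p (.inr ⟨e.2, h⟩)) else 0
        split_ifs
        · exact map_zero f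
        · rfl
    natG := fun f p _ t => by rcases t with s | l <;> rfl
    memF := fun C _ _ p hp => by
      refine ⟨hp, rfl, fun l hl => ?_⟩
      exact dif_neg (not_not.mpr hl)
    memG := fun C _ _ q hq => hq.1
    GF := fun C _ _ p _ => by
      funext t
      rcases t with s | l
      · rfl
      · exact dif_pos l.2
    FG := fun C _ _ q hq => by
      funext t
      rcases t with (s | ⟨b, b'⟩) | ⟨b, l⟩
      · rfl
      · change 0 = q (.inl (.inr (b, b')))
        rw [Unique.eq_default b, Unique.eq_default b']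
        exact hq.2.1.symm
      · change (if h : l ∉ J then q (.inr (default, l)) else 0) = q (.inr (b, l))
        rw [Unique.eq_default b]
        split_ifs with h
        · exact (hq.2.2 l h).symm
        · rfl }

lemma bs0_le (J : Finset L) (C : Type) [CommRing C] [Algebra R C]
    (q : (σ ⊕ B × B) ⊕ B × L → C) (h : (bs0 S B J).pts C q) :
    (affp (symA S B) (B × L)).pts C q := by
  refine ⟨h.1, fun i j => ?_⟩
  rw [Unique.eq_default i, Unique.eq_default j]

/-- no rows -/
def eX (R : Type) [CommRing R] (σ K : Type) : MF R σ Empty K := fun _ _ _ _ => 0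

lemma nat_eX (K : Type) : NatM S (eX R σ K) := by
  intro C D _ _ _ _ f p _
  ext i
  exact i.elim

lemma nat_bs0X (J : Finset L) :
    NatM (bs0 S B J) (uX (eX R σ Empty) (eX R σ (B ⊕ L))) :=
  fun C D _ _ _ _ f q hq => nat_uX (nat_eX (S := S) Empty) (nat_eX (B ⊕ L)) C D f q (bs0_le J C q hq)

lemma nat_bs0Y (J : Finset L) : NatM (bs0 S B J) (uY (eX R σ (B ⊕ L))) :=
  fun C D _ _ _ _ f q hq => nat_uY (nat_eX (S := S) (B ⊕ L)) C D f q (bs0_le J C q hq)

lemma bs0_X (J : Finset L) (C : Type) [CommRing C] [Algebra R C]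
    (q : (σ ⊕ B × B) ⊕ B × L → C) (h : (bs0 S B J).pts C q) :
    uX (eX R σ Empty) (eX R σ (B ⊕ L)) C q = 0 := by
  ext x y
  rcases x with x | x
  · exact x.elim
  · rcases y with y | y
    · exact y.elim
    · change q (.inl (.inr (x, y))) = 0
      rw [Unique.eq_default x, Unique.eq_default y]
      exact h.2.1

/-- a zero on the diagonal -/
lemma holA_zero_diag (hP : Clo sep P) (hS : HolA P S) (hD : ∀ b : L, D0 P {l // ¬ l ∈ ({b} : Finset L)})
    (n : ℕ) (J : Finset L) (hn : Jᶜ.card = n) :
    HolA P (bor (bs0 S B J) (uX (eX R σ Empty) (eX R σ (B ⊕ L))) (uY (eX R σ (B ⊕ L)))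
      (nat_bs0X J) (nat_bs0Y J)) := by
  induction n generalizing J with
  | zero =>
    refine bor_void _ _ hP hS (holA_bs0 hS J).hol.repr fun C _ _ q hq => ?_
    apply Matrix.det_eq_zero_of_row_eq_zero (.inl (.inr default))
    intro y
    have h1 := bs0_X J C _ hq.1.1
    rcases y with y | l
    · have h3 := congrFun (congrFun h1 (.inr default)) y
      exact h3
    · refine hq.1.1.2.2 l ?_
      have h2 : Jᶜ = ∅ := Finset.card_eq_zero.mp hn
      rw [Finset.compl_eq_empty_iff] at h2
      rw [h2]
      exact Finset.mem_univ l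
  | succ n ih =>
    obtain ⟨b, hb⟩ : (Jᶜ).Nonempty := by
      rw [← Finset.card_pos, hn]
      exact Nat.succ_pos n
    have hb' : b ∉ J := Finset.mem_compl.mp hb
    let E : Fn (bs0 S B J) := ⟨fun C _ _ q => q (.inr (default, b)), fun _ _ _ => rfl⟩
    have hcl : ∀ (C : Type) [CommRing C] [Algebra R C] (q : (σ ⊕ B × B) ⊕ B × L → C),
        (bs0 S B (insert b J)).pts C q ↔ ((bs0 S B J).clo E).pts C q := by
      intro C _ _ q
      constructor
      · rintro ⟨h1, h2, h3⟩
        exact ⟨⟨h1, h2, fun l hl => h3 l (Finset.mem_insert_of_mem hl)⟩,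
          h3 b (Finset.mem_insert_self b J)⟩
      · rintro ⟨⟨h1, h2, h3⟩, h4⟩
        refine ⟨h1, h2, fun l hl => ?_⟩
        rcases Finset.mem_insert.mp hl with rfl | hl
        · exact h4
        · exact h3 l hl
    have hcard : ((insert b J)ᶜ).card = n := by
      rw [Finset.compl_insert, Finset.card_erase_of_mem hb, hn]
      rfl
    refine bor_total _ _ hP (holA_bs0 hS J).hol.repr E ?_ ?_
    · exact bor_cg _ _ hcl (ih (insert b J) hcard)
    · have hO : HolA P ((bs0 S B J).opn E) :=
        (holA_bs0 hS J).opn hP E ((holA_bs0 hS (insert b J)).cg fun C _ _ p => hcl C p)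
      refine holA_piv _ _ hO (fun C _ _ q hq => ?_) {b} (fun C _ _ q hq F _ f u v w h1 h2 h3 => ?_)
        (hD b)
      · rw [bs0_X J C q hq.1, Matrix.transpose_zero]
      · have hu : f (q (.inr (default, b))) ≠ 0 := (hq.2.map f).ne_zero
        have h4 := h1 (.inr default)
        rw [bs0_X J C q hq.1, Finset.sum_singleton] at h4
        have h5 : ∑ k', f ((0 : Matrix (Empty ⊕ B) (Empty ⊕ B) C) (.inr default) k') * u k' = 0 := by
          apply Finset.sum_eq_zero
          intro k _
          rw [Matrix.zero_apply, map_zero, zero_mul]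
        rw [h5, zero_add] at h4
        have h6 : v b = 0 := (mul_eq_zero.mp h4).resolve_left hu
        have h7 : ∀ b' ∈ ({b} : Finset L), v b' = 0 := by
          intro b' hb'
          rw [Finset.mem_singleton.mp hb']
          exact h6
        have h8 := h2 b (Finset.mem_singleton_self b)
        rw [h3 h7 b (Finset.mem_singleton_self b), add_zero, Fintype.sum_sum_type] at h8
        have h9 : ∑ k : B, f (uY (eX R σ (B ⊕ L)) C q (.inr k) b) * u (.inr k) =
            f (q (.inr (default, b))) * u (.inr default) := by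
          rw [Fintype.sum_unique]
          rfl
        rw [h9, Finset.sum_of_isEmpty, zero_add] at h8
        have h10 : u (.inr default) = 0 := (mul_eq_zero.mp h8).resolve_left hu
        refine ⟨fun k => ?_, h7⟩
        rcases k with k | k
        · exact k.elim
        · rw [Unique.eq_default k]
          exact h10

/-- one row -/
lemma holA_row (hP : Clo sep P) (hS : HolA P S) (hD1 : D0 P L)
    (hD : ∀ b : L, D0 P {l // ¬ l ∈ ({b} : Finset L)}) :
    HolA P (bor (affp (symA S B) (B × L)) (uX (eX R σ Empty) (eX R σ (B ⊕ L)))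
      (uY (eX R σ (B ⊕ L))) (nat_uX (nat_eX Empty) (nat_eX (B ⊕ L))) (nat_uY (nat_eX (B ⊕ L)))) := by
  let E : Fn (affp (symA S B) (B × L)) :=
    ⟨fun C _ _ q => q (.inl (.inr (default, default))), fun _ _ _ => rfl⟩
  have hA : HolA P (affp (symA S B) (B × L)) := (hS.sym B).affp _
  have hcl : ∀ (C : Type) [CommRing C] [Algebra R C] (q : (σ ⊕ B × B) ⊕ B × L → C),
      (bs0 S B (∅ : Finset L)).pts C q ↔ ((affp (symA S B) (B × L)).clo E).pts C q := by
    intro C _ _ q
    constructor
    · intro h
      exact ⟨bs0_le ∅ C q h, h.2.1⟩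
    · rintro ⟨⟨h1, h2⟩, h3⟩
      exact ⟨h1, h3, fun l hl => absurd hl (Finset.notMem_empty l)⟩
  refine bor_total _ _ hP hA.hol.repr E ?_ ?_
  · exact bor_cg _ _ hcl (holA_zero_diag hP hS hD _ ∅ rfl)
  · have hO : HolA P ((affp (symA S B) (B × L)).opn E) :=
      hA.opn hP E ((holA_bs0 hS ∅).cg fun C _ _ p => hcl C p)
    refine holA_schur _ _ hO (fun C _ _ q hq => ?_) (fun C _ _ q hq => ?_) hD1
    · ext x y
      rcases x with x | x
      · exact x.elim
      · rcases y with y | y
        · exact y.elim
        · exact hq.1.2 y x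
    · apply unit_det
      intro F _ f v hv i
      rcases i with i | i
      · exact i.elim
      · rw [Unique.eq_default i]
        have h1 := hv (.inr default)
        rw [Fintype.sum_sum_type, Finset.sum_of_isEmpty, zero_add, Fintype.sum_unique] at h1
        have hu : f (q (.inl (.inr (default, default)))) ≠ 0 := (hq.2.map f).ne_zero
        exact (mul_eq_zero.mp h1).resolve_left hu

end

/-- **Invertible symmetric matrices with free entries.** -/
theorem d0_card (hP : Clo sep P) (n : ℕ) : ∀ (L : Type) [Fintype L] [DecidableEq L],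
    Fintype.card L = n → D0 P L := by
  induction n using Nat.strong_induction_on with
  | _ n ih =>
  intro L _ _ hL
  by_cases hne : IsEmpty L
  · exact d0_empty
  obtain ⟨l0⟩ := not_isEmpty_iff.mp hne
  intro σ S hS
  have h1 : HolA P (bor S (eX R σ Empty) (eX R σ L) (nat_eX Empty) (nat_eX L)) := by
    refine bor_reindex _ _ (Equiv.sumCompl fun l => l ∈ ({l0} : Finset L)) (nat_eX _) ?_
    refine bor_unpack _ _ ?_
    let _ : Unique {l // l ∈ ({l0} : Finset L)} :=
      ⟨⟨⟨l0, Finset.mem_singleton_self l0⟩⟩, fun x => Subtype.ext (Finset.mem_singleton.mp x.2)⟩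
    have hc : Fintype.card {l // ¬ l ∈ ({l0} : Finset L)} < n := by
      rw [← hL]
      exact Fintype.card_subtype_lt (x := l0) (not_not.mpr (Finset.mem_singleton_self l0))
    refine holA_row hP hS (ih _ hc _ rfl) fun b => ih _ ?_ _ rfl
    refine lt_trans ?_ hc
    exact Fintype.card_subtype_lt (x := b) (not_not.mpr (Finset.mem_singleton_self b))
  refine h1.cg fun C _ _ p => ?_
  have h2 : (bm (eX R σ Empty) (eX R σ L) C p).det = (sm p).det := by
    rw [bm]
    have h3 : (eX R σ L C fun s => p (.inl s)) = 0 := rfl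
    rw [h3, Matrix.transpose_zero, Matrix.det_fromBlocks_zero₂₁, Matrix.det_isEmpty, one_mul]
  constructor
  · rintro ⟨h3, h4⟩
    refine ⟨h3, ?_⟩
    change IsUnit (sm p).det
    rw [← h2]
    exact h4
  · rintro ⟨h3, h4⟩
    refine ⟨h3, ?_⟩
    change IsUnit (bm (eX R σ Empty) (eX R σ L) C p).det
    rw [h2]
    exact h4

theorem d0_all (hP : Clo sep P) (L : Type) [Fintype L] [DecidableEq L] : D0 P L :=
  d0_card hP _ L rfl

end Pool.Agent.H55.TH
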