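import Pool.Agent.H81.RZ.Mat

/-!
# Elimination of one linear variable

`HolA P S`: the property `P` is true for the products of the affine scheme with the points `S` with all
affine spaces. A new coordinate `z` is added under conditions of the form `u z + v = 0` or
`u z + v` invertible; if the functions `u`, `v` and the determinants of two pairs are zero or invertible
on the whole base, then `HolA P` is inherited.
-/

set_option autoImplicit false

open CategoryTheory AlgebraicGeometry MvPolynomial Pool.Agent.Y116.UV Pool.Agent.Q282.UK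
  Pool.Agent.H81.RZ

namespace Pool.Agent.H55.TH

variable {R : Type} [CommRing R] {σ τ : Type} {sep : Prop} {P : Sch R → Prop}

/-- the whole, from the closed and the open part -/
lemma hol_total (hP : Clo sep P) {S : Pts R σ} (hS : Repr S) (e : Fn S) (hc : Hol P (S.clo e))
    (ho : Hol P (S.opn e)) : Hol P S := by
  obtain ⟨A, i1, i2, i3, a, h1, -⟩ := hS
  have h3 : P (aff R (A ⧸ Ideal.span {e.val A a})) := hc.of_rep hP (h1.clo e)
  have h4 : P (aff R (Localization.Away (e.val A a))) := ho.of_rep hP (h1.opn e)
  exact ⟨A, i1, i2, i3, a, h1, hP.total _ _ (ft_aff sep) (triple_away (e.val A a)) h3 h4⟩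

/-- the product with an affine space -/
def affp (S : Pts R σ) (τ : Type) : Pts R (σ ⊕ τ) where
  pts C _ _ p := S.pts C (fun s => p (.inl s))
  map f _ h := S.map f h

lemma rep_affp {S : Pts R σ} {A : Type} [CommRing A] [Algebra R A] {a : σ → A} (h : Rep S A a)
    (τ : Type) : Rep (affp S τ) (MvPolynomial τ A) (Sum.elim (fun s => C (a s)) X) where
  mem := S.map (IsScalarTower.toAlgHom R A (MvPolynomial τ A)) h.mem
  ex B _ _ p hp := by
    obtain ⟨f, hf⟩ := h.ex B _ hp
    refine ⟨aevalTower f fun t => p (.inr t), ?_⟩
    rintro (s | t)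
    · change aevalTower f _ (C (a s)) = _
      rw [aevalTower_C]
      exact hf s
    · change aevalTower f _ (X t) = _
      rw [aevalTower_X]
  uniq B _ _ f g hfg := by
    apply MvPolynomial.algHom_ext'
    · apply h.uniq
      intro s
      exact hfg (.inl s)
    · intro t
      exact hfg (.inr t)

/-- a function on the product with an affine space -/
def fnAff {S : Pts R σ} (e : Fn S) (τ : Type) : Fn (affp S τ) where
  val C _ _ p := e.val C fun s => p (.inl s)
  nat f p h := e.nat f _ h

/-- the product of a bijection with an affine space -/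
lemma bij_aff {S : Pts R σ} {T : Pts R τ}
    {F : ∀ (C : Type) [CommRing C] [Algebra R C], (σ → C) → (τ → C)}
    {G : ∀ (C : Type) [CommRing C] [Algebra R C], (τ → C) → (σ → C)} (h : Bij S T F G)
    (ρ : Type) : Bij (affp S ρ) (affp T ρ)
      (fun C _ _ p => Sum.elim (F C fun s => p (.inl s)) fun t => p (.inr t))
      (fun C _ _ p => Sum.elim (G C fun s => p (.inl s)) fun t => p (.inr t)) where
  natF f p hp t := by
    rcases t with s | t
    · exact h.natF f _ hp s
    · rfl
  natG f p hp t := by
    rcases t with s | t
    · exact h.natG f _ hp s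
    · rfl
  memF C _ _ p hp := h.memF C _ hp
  memG C _ _ p hp := h.memG C _ hp
  GF C _ _ p hp := by
    funext t
    rcases t with s | t
    · exact congrFun (h.GF C _ hp) s
    · rfl
  FG C _ _ p hp := by
    funext t
    rcases t with s | t
    · exact congrFun (h.FG C _ hp) s
    · rfl

/-- the property is true for the products with all affine spaces -/
def HolA (P : Sch R → Prop) (S : Pts R σ) : Prop := ∀ n : ℕ, Hol P (affp S (Fin n))

lemma HolA.trans {S : Pts R σ} {T : Pts R τ}
    {F : ∀ (C : Type) [CommRing C] [Algebra R C], (σ → C) → (τ → C)}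
    {G : ∀ (C : Type) [CommRing C] [Algebra R C], (τ → C) → (σ → C)} (h : HolA P S)
    (hb : Bij S T F G) : HolA P T := fun n => (h n).trans (bij_aff hb (Fin n))

lemma HolA.congr {S T : Pts R σ}
    (h : ∀ (C : Type) [CommRing C] [Algebra R C] (p : σ → C), S.pts C p ↔ T.pts C p)
    (hS : HolA P S) : HolA P T := fun n => Hol.congr (fun C _ _ p => h C fun s => p (.inl s)) (hS n)

lemma HolA.cg {S T : Pts R σ} (hS : HolA P S)
    (h : ∀ (C : Type) [CommRing C] [Algebra R C] (p : σ → C), S.pts C p ↔ T.pts C p) :
    HolA P T := HolA.congr h hS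

/-- no affine space -/
lemma HolA.hol {S : Pts R σ} (h : HolA P S) : Hol P S := by
  refine (h 0).trans (F := fun _ _ _ p s => p (.inl s))
    (G := fun _ _ _ p => Sum.elim p fun t => t.elim0) ?_
  exact
  { natF := fun _ _ _ _ => rfl
    natG := fun f p _ t => by
      rcases t with s | t
      · rfl
      · exact t.elim0
    memF := fun _ _ _ _ hp => hp
    memG := fun _ _ _ _ hp => hp
    GF := fun C _ _ p _ => by
      funext t
      rcases t with s | t
      · rfl
      · exact t.elim0
    FG := fun _ _ _ _ _ => rfl }

lemma repr_aff {S : Pts R σ} (hS : Repr S) (n : ℕ) : Repr (affp S (Fin n)) := by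
  obtain ⟨A, i1, i2, i3, a, h1, -⟩ := hS
  exact ⟨_, inferInstance, inferInstance, Algebra.FiniteType.trans (S := A) inferInstance
    inferInstance, _, rep_affp h1 _, trivial⟩

lemma HolA.total (hP : Clo sep P) {S : Pts R σ} (hS : Repr S) (e : Fn S) (hc : HolA P (S.clo e))
    (ho : HolA P (S.opn e)) : HolA P S := fun n =>
  hol_total hP (repr_aff hS n) (fnAff e (Fin n)) (hc n) (ho n)

lemma HolA.opn (hP : Clo sep P) {S : Pts R σ} (e : Fn S) (h : HolA P S) (hc : HolA P (S.clo e)) :
    HolA P (S.opn e) := fun n => (h n).opn (fnAff e (Fin n)) hP (hc n)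

/-- one more coordinate -/
def line (S : Pts R σ) : Pts R (Option σ) where
  pts C _ _ p := S.pts C fun s => p (some s)
  map f _ h := S.map f h

lemma HolA.line {S : Pts R σ} (h : HolA P S) : HolA P (line S) := by
  intro n
  refine (h (n + 1)).trans
    (F := fun _ _ _ p => Sum.elim (fun t => t.elim (p (.inr 0)) fun s => p (.inl s))
      fun l => p (.inr l.succ))
    (G := fun _ _ _ q => Sum.elim (fun s => q (.inl (some s)))
      (Fin.cases (q (.inl none)) fun l => q (.inr l))) ?_
  exact
  { natF := fun f p _ t => by
      rcases t with (_ | s) | l <;> rfl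
    natG := fun f q _ t => by
      rcases t with s | l
      · rfl
      · exact Fin.cases rfl (fun i => rfl) l
    memF := fun _ _ _ _ hp => hp
    memG := fun _ _ _ _ hq => hq
    GF := fun C _ _ p _ => by
      funext t
      rcases t with s | l
      · rfl
      · exact Fin.cases rfl (fun i => rfl) l
    FG := fun C _ _ q _ => by
      funext t
      rcases t with (_ | s) | l <;> rfl }

/-- the function zero -/
def fnZero (S : Pts R σ) : Fn S where
  val _ _ _ _ := 0
  nat f _ _ := map_zero f

/-- the homomorphism to the zero ring -/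
def zeroHom (R A C : Type) [CommRing R] [CommRing A] [CommRing C] [Algebra R A] [Algebra R C]
    (h : Subsingleton C) : A →ₐ[R] C where
  toFun _ := 0
  map_one' := Subsingleton.elim _ _
  map_mul' _ _ := Subsingleton.elim _ _
  map_zero' := Subsingleton.elim _ _
  map_add' _ _ := Subsingleton.elim _ _
  commutes' _ := Subsingleton.elim _ _

lemma repr_sub {S : Pts R σ} (hS : Repr S) (C : Type) [CommRing C] [Algebra R C] (p : σ → C)
    (h : Subsingleton C) : S.pts C p := by
  obtain ⟨A, i1, i2, i3, a, h1, -⟩ := hS
  have h2 := S.map (zeroHom R A C h) h1.mem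
  have h3 : (fun s => zeroHom R A C h (a s)) = p := funext fun _ => Subsingleton.elim _ _
  rwa [h3] at h2

/-- a scheme without points -/
lemma HolA.void (hP : Clo sep P) {S : Pts R σ} (hS : HolA P S) {T : Pts R τ}
    (h0 : ∀ (C : Type) [CommRing C] [Algebra R C] (p : τ → C), Subsingleton C → T.pts C p)
    (h1 : ∀ (C : Type) [CommRing C] [Algebra R C] (p : τ → C), T.pts C p → Subsingleton C) :
    HolA P T := by
  intro n
  have h2 : HolA P (S.clo (fnZero S)) := HolA.congr (fun C _ _ p => ⟨fun h => ⟨h, rfl⟩, And.left⟩) hS
  obtain ⟨A, i1, i2, i3, a, h3, h4⟩ := hS.opn hP (fnZero S) h2 n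
  have h5 : Subsingleton A := by
    have h6 : IsUnit (0 : A) := h3.mem.2
    exact subsingleton_of_zero_eq_one (isUnit_zero_iff.mp h6)
  refine ⟨A, i1, i2, i3, fun _ => 0, ?_, h4⟩
  exact
  { mem := h0 A _ h5
    ex := fun C _ _ p hp => by
      have h6 : Subsingleton C := h1 C _ hp
      exact ⟨zeroHom R A C h6, fun _ => Subsingleton.elim _ _⟩
    uniq := fun C _ _ f g _ => by
      have h6 : Subsingleton C := by
        apply subsingleton_of_zero_eq_one
        rw [← map_zero f, ← map_one f]
        exact congrArg f (Subsingleton.elim _ _)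
      exact AlgHom.ext fun _ => Subsingleton.elim _ _ }

/-- the point -/
def pnt (R : Type) [CommRing R] (σ : Type) : Pts R σ where
  pts _ _ _ p := ∀ s, p s = 0
  map f _ h s := (congrArg f (h s)).trans (map_zero f)

lemma holA_pnt (hP : Clo sep P) (hA : ∀ n : ℕ, P (aff R (MvPolynomial (Fin n) R))) (σ : Type) :
    HolA P (pnt R σ) := by
  intro n
  refine ⟨MvPolynomial (Fin n) R, inferInstance, inferInstance, inferInstance,
    Sum.elim (fun _ => 0) X, ?_, hA n⟩
  exact
  { mem := fun s => rfl
    ex := fun C _ _ p hp => by
      refine ⟨aeval fun t => p (.inr t), ?_⟩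
      rintro (s | t)
      · exact (map_zero _).trans (hp s).symm
      · exact aeval_X _ t
    uniq := fun C _ _ f g hfg => MvPolynomial.algHom_ext fun t => hfg (.inr t) }

/-- zero (`false`) or invertible (`true`) -/
def Zu (b : Bool) {C : Type} [CommRing C] (z : C) : Prop := (b = true → IsUnit z) ∧ (b = false → z = 0)

lemma Zu.map {b : Bool} {C D : Type} [CommRing C] [CommRing D] (f : C →+* D) {z : C} (h : Zu b z) :
    Zu b (f z) := ⟨fun hb => (h.1 hb).map f, fun hb => by rw [h.2 hb, map_zero]⟩

lemma zu_sub {b : Bool} {C : Type} [CommRing C] (z : C) (h : Subsingleton C) : Zu b z :=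
  ⟨fun _ => isUnit_of_subsingleton z, fun _ => Subsingleton.elim _ _⟩

lemma Zu.sub {b b' : Bool} {C : Type} [CommRing C] {z : C} (h : Zu b z) (h' : Zu b' z)
    (hb : b ≠ b') : Subsingleton C := by
  have h1 : IsUnit (0 : C) := by
    cases b with
    | false =>
      cases b' with
      | false => exact absurd rfl hb
      | true => exact h.2 rfl ▸ h'.1 rfl
    | true =>
      cases b' with
      | false => exact h'.2 rfl ▸ h.1 rfl
      | true => exact absurd rfl hb
  exact subsingleton_of_zero_eq_one (isUnit_zero_iff.mp h1)

lemma Zu.mul {b b' : Bool} {C : Type} [CommRing C] {z z' : C} (h : Zu b z) (h' : Zu b' z') :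
    Zu (b && b') (z * z') := by
  constructor
  · intro hb
    rw [Bool.and_eq_true] at hb
    exact (h.1 hb.1).mul (h'.1 hb.2)
  · intro hb
    rw [Bool.and_eq_false_iff] at hb
    rcases hb with hb | hb
    · rw [h.2 hb, zero_mul]
    · rw [h'.2 hb, mul_zero]

lemma Zu.neg {b : Bool} {C : Type} [CommRing C] {z : C} (h : Zu b z) : Zu b (-z) :=
  ⟨fun hb => (h.1 hb).neg, fun hb => by rw [h.2 hb, neg_zero]⟩

lemma zu_zero {C : Type} [CommRing C] : Zu false (0 : C) := ⟨fun h => (Bool.noConfusion h), fun _ => rfl⟩

lemma zu_one {C : Type} [CommRing C] : Zu true (1 : C) :=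
  ⟨fun _ => isUnit_one, fun h => (Bool.noConfusion h)⟩

section elim

variable {S : Pts R σ} {I : Type} (u v : I → Fn S)

/-- a new coordinate with the conditions `u z + v` zero or invertible, for the indices in `J` -/
def add (J : Finset I) (c : I → Bool) : Pts R (Option σ) where
  pts C _ _ p := S.pts C (fun s => p (some s)) ∧ ∀ i ∈ J, Zu (c i)
    ((u i).val C (fun s => p (some s)) * p none + (v i).val C (fun s => p (some s)))
  map {C D} _ _ _ _ f p h := ⟨S.map f h.1, fun i hi => by
    have h1 := (h.2 i hi).map (f : C →+* D)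
    have h2 : f ((u i).val C (fun s => p (some s)) * p none + (v i).val C (fun s => p (some s))) =
        (u i).val D (fun s => f (p (some s))) * f (p none) + (v i).val D (fun s => f (p (some s))) := by
      rw [map_add, map_mul, (u i).nat f _ h.1, (v i).nat f _ h.1]
    rw [← h2]
    exact h1⟩

/-- the function `u z + v` -/
def linFn (J : Finset I) (c : I → Bool) (i : I) : Fn (add u v J c) where
  val C _ _ p := (u i).val C (fun s => p (some s)) * p none + (v i).val C (fun s => p (some s))
  nat f p h := by rw [map_add, map_mul, (u i).nat f _ h.1, (v i).nat f _ h.1]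

variable {u v} {α β : I → Bool} {γ : I → I → Bool}
  (hu : ∀ (i : I) (C : Type) [CommRing C] [Algebra R C] (p : σ → C), S.pts C p →
    Zu (α i) ((u i).val C p))
  (hv : ∀ (i : I) (C : Type) [CommRing C] [Algebra R C] (p : σ → C), S.pts C p →
    Zu (β i) ((v i).val C p))
  (hw : ∀ (i j : I) (C : Type) [CommRing C] [Algebra R C] (p : σ → C), S.pts C p →
    Zu (γ i j) ((u i).val C p * (v j).val C p - (u j).val C p * (v i).val C p))
  (hP : Clo sep P)

include hu hw hP

/-- one of the conditions is an equation with an invertible coefficient -/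
lemma elim_hit (h : HolA P S) (J : Finset I) (c : I → Bool) {i : I} (hi : i ∈ J) (ha : α i = true)
    (hc : c i = false) : HolA P (add u v J c) := by
  -- the value at the other conditions
  have key : ∀ (j : I) (C : Type) [CommRing C] [Algebra R C] (p : σ → C), S.pts C p →
      Zu (γ i j) ((u j).val C p * -(Ring.inverse ((u i).val C p) * (v i).val C p) +
        (v j).val C p) := by
    intro j C _ _ p hp
    have h1 : IsUnit ((u i).val C p) := (hu i C p hp).1 ha
    have h2 : Zu true (Ring.inverse ((u i).val C p)) :=
      ⟨fun _ => h1.ringInverse, fun h => (Bool.noConfusion h)⟩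
    have h3 := h2.mul (hw i j C p hp)
    rw [Bool.true_and] at h3
    have h4 : Ring.inverse ((u i).val C p) *
        ((u i).val C p * (v j).val C p - (u j).val C p * (v i).val C p) =
        (u j).val C p * -(Ring.inverse ((u i).val C p) * (v i).val C p) + (v j).val C p := by
      have h5 := Ring.inverse_mul_cancel _ h1
      linear_combination ((v j).val C p) * h5
    rwa [h4] at h3
  have sol : ∀ (C : Type) [CommRing C] [Algebra R C] (q : Option σ → C), (add u v J c).pts C q →
      q none = -(Ring.inverse ((u i).val C fun s => q (some s)) *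
        (v i).val C fun s => q (some s)) := by
    intro C _ _ q hq
    have h1 : IsUnit ((u i).val C fun s => q (some s)) := (hu i C _ hq.1).1 ha
    have h2 := (hq.2 i hi).2 hc
    have h5 := Ring.inverse_mul_cancel _ h1
    linear_combination (-(q none)) * h5 + Ring.inverse ((u i).val C fun s => q (some s)) * h2
  by_cases hγ : ∀ j ∈ J, c j = γ i j
  · refine h.trans (F := fun C _ _ p t => t.elim (-(Ring.inverse ((u i).val C p) *
      (v i).val C p)) p) (G := fun _ _ _ q s => q (some s)) ?_
    exact
    { natF := fun {C D} _ _ _ _ f p hp t => by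
        rcases t with _ | s
        · change f (-(Ring.inverse ((u i).val C p) * (v i).val C p)) =
            -(Ring.inverse ((u i).val D fun s => f (p s)) * (v i).val D fun s => f (p s))
          have h1 := map_inverse_of_isUnit (f : C →+* D) ((hu i C p hp).1 ha)
          rw [map_neg, map_mul, (v i).nat f p hp, ← (u i).nat f p hp]
          rw [show f (Ring.inverse ((u i).val C p)) = Ring.inverse (f ((u i).val C p)) from h1]
        · rfl
      natG := fun _ _ _ _ => rfl
      memF := fun C _ _ p hp => ⟨hp, fun j hj => by
        rw [hγ j hj]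
        exact key j C p hp⟩
      memG := fun C _ _ q hq => hq.1
      GF := fun _ _ _ _ _ => rfl
      FG := fun C _ _ q hq => by
        funext t
        rcases t with _ | s
        · exact (sol C q hq).symm
        · rfl }
  · push Not at hγ
    obtain ⟨j, hj, hne⟩ := hγ
    refine HolA.void hP h (fun C _ _ p hC => ?_) (fun C _ _ q hq => ?_)
    · exact ⟨repr_sub h.hol.repr C _ hC, fun k _ => zu_sub _ hC⟩
    · have h1 := hq.2 j hj
      rw [sol C q hq] at h1
      exact h1.sub (key j C _ hq.1) hne

/-- all conditions are inequalities with an invertible coefficient -/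
lemma elim_avoid (h : HolA P S) (J : Finset I) (c : I → Bool) (ha : ∀ i ∈ J, α i = true)
    (hc : ∀ i ∈ J, c i = true) : HolA P (add u v J c) := by
  classical
  induction J using Finset.induction_on with
  | empty =>
    exact HolA.congr (fun C _ _ p => ⟨fun h => ⟨h, fun i hi => absurd hi (Finset.notMem_empty i)⟩,
      And.left⟩) h.line
  | insert i J hi ih =>
    have h1 := ih (fun j hj => ha j (Finset.mem_insert_of_mem hj))
      fun j hj => hc j (Finset.mem_insert_of_mem hj)
    let c' : I → Bool := fun j => if j = i then false else c j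
    have hc' : ∀ j ∈ J, c' j = c j := by
      intro j hj
      have hne : j ≠ i := by
        rintro rfl
        exact hi hj
      simp only [c', if_neg hne]
    have h2 : HolA P (add u v (insert i J) c') :=
      elim_hit hu hw hP h (insert i J) c' (Finset.mem_insert_self i J)
        (ha i (Finset.mem_insert_self i J)) (by simp only [c', if_true])
    have h3 : HolA P ((add u v J c).clo (linFn u v J c i)) := by
      refine h2.cg (fun C _ _ p => ⟨fun hp => ⟨⟨hp.1, fun j hj => ?_⟩, ?_⟩,
        fun hp => ⟨hp.1.1, fun j hj => ?_⟩⟩)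
      · rw [← hc' j hj]
        exact hp.2 j (Finset.mem_insert_of_mem hj)
      · exact (hp.2 i (Finset.mem_insert_self i J)).2 (by simp only [c', if_true])
      · rcases Finset.mem_insert.mp hj with rfl | hj
        · refine ⟨fun h4 => ?_, fun _ => hp.2⟩
          simp only [c', if_true] at h4
          exact Bool.noConfusion h4
        · rw [hc' j hj]
          exact hp.1.2 j hj
    refine (h1.opn hP (linFn u v J c i) h3).cg (fun C _ _ p => ⟨fun hp => ⟨hp.1.1, fun j hj => ?_⟩,
      fun hp => ⟨⟨hp.1, fun j hj => hp.2 j (Finset.mem_insert_of_mem hj)⟩, ?_⟩⟩)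
    · rcases Finset.mem_insert.mp hj with rfl | hj
      · refine ⟨fun _ => hp.2, fun h4 => ?_⟩
        rw [hc j (Finset.mem_insert_self j J)] at h4
        exact Bool.noConfusion h4
      · exact hp.1.2 j hj
    · exact (hp.2 i (Finset.mem_insert_self i J)).1 (hc i (Finset.mem_insert_self i J))

include hv

/-- **Elimination of one linear variable.** -/
theorem elim_add (h : HolA P S) (J : Finset I) (c : I → Bool) : HolA P (add u v J c) := by
  classical
  by_cases h1 : ∃ i ∈ J, α i = true ∧ c i = false
  · obtain ⟨i, hi, ha, hc⟩ := h1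
    exact elim_hit hu hw hP h J c hi ha hc
  · have h1' : ∀ i ∈ J, α i = true → c i = true := by
      intro i hi ha
      by_contra hc
      exact h1 ⟨i, hi, ha, Bool.eq_false_iff.mpr hc⟩
    -- without the conditions whose coefficient is zero
    have h2 : HolA P (add u v (J.filter fun i => α i = true) c) :=
      elim_avoid hu hw hP h _ c (fun i hi => (Finset.mem_filter.mp hi).2)
        fun i hi => h1' i (Finset.mem_filter.mp hi).1 (Finset.mem_filter.mp hi).2
    have h3 : ∀ (i : I) (C : Type) [CommRing C] [Algebra R C] (q : Option σ → C),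
        S.pts C (fun s => q (some s)) → α i = false → Zu (β i)
          ((u i).val C (fun s => q (some s)) * q none + (v i).val C (fun s => q (some s))) := by
      intro i C _ _ q hq ha
      rw [(hu i C _ hq).2 ha, zero_mul, zero_add]
      exact hv i C _ hq
    by_cases h4 : ∀ i ∈ J, α i = false → c i = β i
    · refine h2.cg (fun C _ _ p => ⟨fun hp => ⟨hp.1, fun i hi => ?_⟩,
        fun hp => ⟨hp.1, fun i hi => hp.2 i (Finset.mem_filter.mp hi).1⟩⟩)
      by_cases ha : α i = true
      · exact hp.2 i (Finset.mem_filter.mpr ⟨hi, ha⟩)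
      · have ha' := Bool.eq_false_iff.mpr ha
        rw [h4 i hi ha']
        exact h3 i C p hp.1 ha'
    · push Not at h4
      obtain ⟨i, hi, ha, hne⟩ := h4
      refine HolA.void hP h (fun C _ _ p hC => ⟨repr_sub h.hol.repr C _ hC, fun k _ => zu_sub _ hC⟩)
        (fun C _ _ q hq => ?_)
      exact (hq.2 i hi).sub (h3 i C q hq.1 ha) hne

end elim

end Pool.Agent.H55.TH
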