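import Pool.Agent.H55.TH.Kst
import Pool.Agent.H81.RZ.Kir

/-!
# The Kirchhoff polynomials of graphs with an independent set and a clique
-/

set_option autoImplicit false
set_option linter.unusedSectionVars false

open CategoryTheory AlgebraicGeometry MvPolynomial Pool.Agent.Y116.UV Pool.Agent.Q282.UK
  Pool.Agent.H81.RZ

namespace Pool.Agent.H55.TH

variable {R : Type} [CommRing R] {sep : Prop} {P : Sch R → Prop} {Q L : Type} [Fintype Q]
  [Fintype L] [DecidableEq Q] [DecidableEq L]

section

variable {n : ℕ} (G : SimpleGraph (Fin n)) (e : Option (Q ⊕ L) ≃ Fin n) {C : Type} [CommRing C]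

/-- the weight of an edge -/
def hG (p : Q × Option L ⊕ L × L → C) : Option (Q ⊕ L) → Option (Q ⊕ L) → C
  | none, none => 0
  | none, some (.inl q) => -p (.inl (q, none))
  | some (.inl q), none => -p (.inl (q, none))
  | none, some (.inr l) => ∑ l', p (.inr (l, l')) + ∑ q, p (.inl (q, some l))
  | some (.inr l), none => ∑ l', p (.inr (l, l')) + ∑ q, p (.inl (q, some l))
  | some (.inl _), some (.inl _) => 0
  | some (.inl q), some (.inr l) => -p (.inl (q, some l))
  | some (.inr l), some (.inl q) => -p (.inl (q, some l))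
  | some (.inr l), some (.inr l') => -p (.inr (l, l'))

lemma hG_symm (p : Q × Option L ⊕ L × L → C) (hp : ∀ i j, p (.inr (i, j)) = p (.inr (j, i)))
    (u v : Option (Q ⊕ L)) : hG p u v = hG p v u := by
  rcases u with _ | u | u <;> rcases v with _ | v | v <;> try rfl
  exact congrArg Neg.neg (hp u v)

lemma map_hG {D : Type} [CommRing D] (f : C →+* D) (p : Q × Option L ⊕ L × L → C)
    (u v : Option (Q ⊕ L)) : f (hG p u v) = hG (fun s => f (p s)) u v := by
  rcases u with _ | u | u <;> rcases v with _ | v | v <;>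
    simp only [hG, map_neg, map_zero, map_add, map_sum]

/-- the weights from the matrix -/
noncomputable def wG (p : Q × Option L ⊕ L × L → C) (s : G.edgeSet) : C :=
  hG p (e.symm (Quot.out s.1).1) (e.symm (Quot.out s.1).2)

lemma wG_mk (p : Q × Option L ⊕ L × L → C) (hp : ∀ i j, p (.inr (i, j)) = p (.inr (j, i)))
    (u v : Option (Q ⊕ L)) (h : s(e u, e v) ∈ G.edgeSet) :
    wG G e p ⟨s(e u, e v), h⟩ = hG p u v := by
  have h6 : s((Quot.out s(e u, e v)).1, (Quot.out s(e u, e v)).2) = s(e u, e v) :=
    Quot.out_eq s(e u, e v)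
  change hG p (e.symm (Quot.out s(e u, e v)).1) (e.symm (Quot.out s(e u, e v)).2) = _
  rcases Sym2.eq_iff.mp h6 with ⟨h7, h8⟩ | ⟨h7, h8⟩
  · rw [h7, h8, Equiv.symm_apply_apply, Equiv.symm_apply_apply]
  · rw [h7, h8, Equiv.symm_apply_apply, Equiv.symm_apply_apply, hG_symm p hp]

/-- the vertex of a column -/
def vt (j : Option L) : Option (Q ⊕ L) := j.map Sum.inr

/-- the weights on the vertices -/
noncomputable def wV (x : G.edgeSet → C) (s : Sym2 (Option (Q ⊕ L))) : C := xt G x (s.map e)

/-- the matrix from the weights -/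
noncomputable def fG (x : G.edgeSet → C) : Q × Option L ⊕ L × L → C
  | .inl (q, j) => -wV G e x s(some (.inl q), vt j)
  | .inr (l, l') => lapl (wV G e x) (some (.inr l)) (some (.inr l'))

lemma wV_diag (x : G.edgeSet → C) (s : Sym2 (Option (Q ⊕ L))) (hs : s.IsDiag) :
    wV G e x s = 0 := by
  apply xt_diag
  induction s with
  | h u v =>
    have h1 : u = v := hs
    subst h1
    rfl

lemma lapl_ne {V : Type} [Fintype V] [DecidableEq V] (w : Sym2 V → C) {u v : V} (h : u ≠ v) :
    lapl w u v = -w s(u, v) := by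
  simp only [lapl, Matrix.of_apply]
  rw [if_neg h, zero_sub]

/-- the independent set -/
def Ind : Prop := ∀ q q' : Q, ¬ G.Adj (e (some (.inl q))) (e (some (.inl q')))

/-- the clique -/
def Cli : Prop := (∀ l : L, G.Adj (e (some (.inr l))) (e none)) ∧
  ∀ l l' : L, l ≠ l' → G.Adj (e (some (.inr l))) (e (some (.inr l')))

variable {G e}

lemma wV_ind (h : Ind G e) (x : G.edgeSet → C) (q q' : Q) :
    wV G e x s(some (.inl q), some (.inl q')) = 0 := by
  apply xt_not
  change ¬ s(e (some (.inl q)), e (some (.inl q'))) ∈ G.edgeSet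
  rw [SimpleGraph.mem_edgeSet]
  exact h q q'

/-- the sum of the weights at a vertex of the independent set -/
lemma sum_ind (h : Ind G e) (x : G.edgeSet → C) (q : Q) :
    ∑ t, wV G e x s(some (.inl q), t) = ∑ j : Option L, wV G e x s(some (.inl q), vt j) := by
  rw [Fintype.sum_option, Fintype.sum_sum_type, Fintype.sum_option,
    Finset.sum_eq_zero fun q' _ => wV_ind h x q q', zero_add]
  rfl

lemma lapl_ind (h : Ind G e) (x : G.edgeSet → C) (q q' : Q) :
    lapl (wV G e x) (some (.inl q)) (some (.inl q')) =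
      Matrix.diagonal (fun q => -∑ j, fG G e x (.inl (q, j))) q q' := by
  by_cases hq : q = q'
  · subst hq
    rw [Matrix.diagonal_apply_eq]
    simp only [lapl, Matrix.of_apply, if_true]
    rw [sum_ind h x q, wV_ind h x q q, sub_zero, ← Finset.sum_neg_distrib]
    apply Finset.sum_congr rfl
    intro j _
    exact (neg_neg _).symm
  · rw [Matrix.diagonal_apply_ne _ hq, lapl_ne _ fun h' => hq (Sum.inl.inj (Option.some.inj h')),
      wV_ind h x q q', neg_zero]

variable [Algebra R C]

lemma bm_fG (h : Ind G e) (x : G.edgeSet → C) :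
    bm (kX R Q L) (kY R Q L) C (fG G e x) =
      Matrix.of fun i j => lapl (wV G e x) (some i) (some j) := by
  ext i j
  rcases i with q | l <;> rcases j with q' | l'
  · exact (lapl_ind h x q q').symm
  · exact (lapl_ne (wV G e x) (u := some (.inl q)) (v := some (.inr l')) (by simp)).symm
  · change -wV G e x s(some (.inl q'), some (.inr l)) = _
    rw [Sym2.eq_swap]
    exact (lapl_ne _ (by simp)).symm
  · rfl

lemma fG_det (h : Ind G e) (x : G.edgeSet → C) :
    (bm (kX R Q L) (kY R Q L) C (fG G e x)).det = aeval x (kirchhoff R G) := by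
  rw [bm_fG h, aeval_kirchhoff, ← matrix_tree _ (xt_diag G x) (e none), ← det_reindex,
    ← det_reduced]
  rfl

omit [Algebra R C] in
lemma hG_fG (h : Ind G e) (x : G.edgeSet → C) {u v : Option (Q ⊕ L)} (huv : u ≠ v) :
    hG (fG G e x) u v = wV G e x s(u, v) := by
  have key : ∀ l : L, ∑ l', fG G e x (.inr (l, l')) + ∑ q, fG G e x (.inl (q, some l)) =
      wV G e x s(some (.inr l), none) := by
    intro l
    rw [← lapl_sum _ (wV_diag G e x) (.inr l), Fintype.sum_sum_type, add_comm]
    congr 1
    apply Finset.sum_congr rfl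
    intro q _
    rw [lapl_ne _ (by simp)]
    change -wV G e x s(some (.inl q), some (.inr l)) = _
    rw [Sym2.eq_swap]
  rcases u with _ | q | l <;> rcases v with _ | q' | l'
  · exact absurd rfl huv
  · change - -wV G e x s(some (.inl q'), none) = _
    rw [neg_neg, Sym2.eq_swap]
  · rw [Sym2.eq_swap]
    exact key l'
  · exact neg_neg _
  · exact (wV_ind h x q q').symm
  · exact neg_neg _
  · exact key l
  · change - -wV G e x s(some (.inl q'), some (.inr l)) = _
    rw [neg_neg, Sym2.eq_swap]
  · change -lapl _ _ _ = _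
    rw [lapl_ne _ huv, neg_neg]

open Classical in
variable (G e) in
/-- the neighbours in the clique -/
noncomputable def Nb (q : Q) : Finset (Option L) :=
  Finset.univ.filter fun j => G.Adj (e (some (.inl q))) (e (vt j))

omit [Algebra R C] [CommRing C] in
lemma mem_Nb {q : Q} {j : Option L} : j ∈ Nb G e q ↔ G.Adj (e (some (.inl q))) (e (vt j)) := by
  simp [Nb]

omit [Algebra R C] in
lemma wV_wG (hc : Cli G e) (p : Q × Option L ⊕ L × L → C)
    (hp : ∀ i j, p (.inr (i, j)) = p (.inr (j, i)))
    (hN : ∀ q j, j ∉ Nb G e q → p (.inl (q, j)) = 0) {u v : Option (Q ⊕ L)} (huv : u ≠ v) :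
    wV G e (wG G e p) s(u, v) = hG p u v := by
  by_cases h4 : s(e u, e v) ∈ G.edgeSet
  · rw [← wG_mk G e p hp u v h4]
    exact dif_pos h4
  · have h5 : wV G e (wG G e p) s(u, v) = 0 := xt_not _ _ h4
    rw [h5]
    rw [SimpleGraph.mem_edgeSet] at h4
    have h6 : ∀ (q : Q) (j : Option L), ¬ G.Adj (e (some (.inl q))) (e (vt j)) →
        0 = -p (.inl (q, j)) := by
      intro q j hj
      rw [hN q j fun h' => hj (mem_Nb.mp h'), neg_zero]
    rcases u with _ | q | l <;> rcases v with _ | q' | l'
    · rfl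
    · exact h6 q' none fun h' => h4 h'.symm
    · exact absurd (hc.1 l').symm h4
    · exact h6 q none h4
    · rfl
    · exact h6 q (some l') h4
    · exact absurd (hc.1 l) h4
    · exact h6 q' (some l) fun h' => h4 h'.symm
    · exact absurd (hc.2 l l' fun h' => huv (by rw [h'])) h4

omit [Algebra R C] in
lemma fG_wG (h : Ind G e) (hc : Cli G e) (p : Q × Option L ⊕ L × L → C)
    (hp : ∀ i j, p (.inr (i, j)) = p (.inr (j, i)))
    (hN : ∀ q j, j ∉ Nb G e q → p (.inl (q, j)) = 0) : fG G e (wG G e p) = p := by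
  have h1 : ∀ l l' : L, l ≠ l' → fG G e (wG G e p) (.inr (l, l')) = p (.inr (l, l')) := by
    intro l l' hl
    have hl' : (some (.inr l) : Option (Q ⊕ L)) ≠ some (.inr l') := by
      simpa using hl
    change lapl _ _ _ = _
    rw [lapl_ne _ hl', wV_wG hc p hp hN hl']
    exact neg_neg _
  have h2 : ∀ (q : Q) (j : Option L), fG G e (wG G e p) (.inl (q, j)) = p (.inl (q, j)) := by
    intro q j
    change -wV G e (wG G e p) s(some (.inl q), vt j) = _
    rcases j with _ | l
    · have h3 : (some (.inl q) : Option (Q ⊕ L)) ≠ none := by simp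
      exact (congrArg Neg.neg (wV_wG hc p hp hN h3)).trans (neg_neg _)
    · have h3 : (some (.inl q) : Option (Q ⊕ L)) ≠ some (.inr l) := by simp
      exact (congrArg Neg.neg (wV_wG hc p hp hN h3)).trans (neg_neg _)
  funext s
  rcases s with ⟨q, j⟩ | ⟨l, l'⟩
  · exact h2 q j
  · by_cases hl : l = l'
    · subst hl
      have h3 : (none : Option (Q ⊕ L)) ≠ some (.inr l) := by simp
      have h4 := hG_fG h (wG G e p) h3
      rw [wV_wG hc p hp hN h3] at h4
      change ∑ l', fG G e (wG G e p) (.inr (l, l')) + ∑ q, fG G e (wG G e p) (.inl (q, some l)) =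
        ∑ l', p (.inr (l, l')) + ∑ q, p (.inl (q, some l)) at h4
      rw [Finset.sum_congr rfl fun q _ => h2 q (some l), ← Finset.add_sum_erase _ _
        (Finset.mem_univ l), ← Finset.add_sum_erase _ (fun l' => p (.inr (l, l')))
        (Finset.mem_univ l), Finset.sum_congr rfl fun l' hl' =>
          h1 l l' (Finset.ne_of_mem_erase hl').symm] at h4
      exact add_right_cancel (add_right_cancel h4)
    · exact h1 l l' hl

end

section

variable {n : ℕ} {G : SimpleGraph (Fin n)} {e : Option (Q ⊕ L) ≃ Fin n}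

lemma bij_kgr (h : Ind G e) (hc : Cli G e) :
    Bij (kst (Rw R (Nb G e))) ((al R G.edgeSet).opn (plFn (kirchhoff R G)))
      (fun _ _ _ p => wG G e p) (fun _ _ _ x => fG G e x) where
  natF {C D} _ _ _ _ f p _ s := map_hG (f : C →+* D) p _ _
  natG {C D} _ _ _ _ f x _ t := by
    have h1 : ∀ s, f (wV G e x s) = wV G e (fun s => f (x s)) s := by
      intro s
      change f (xt G x (s.map e)) = xt G (fun s => f (x s)) (s.map e)
      by_cases h : s.map e ∈ G.edgeSet
      · have h2 := xt_mem G x ⟨s.map e, h⟩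
        have h3 := xt_mem G (fun s => f (x s)) ⟨s.map e, h⟩
        exact (congrArg f h2).trans h3.symm
      · rw [xt_not _ _ h, xt_not _ _ h, map_zero]
    rcases t with ⟨q, j⟩ | ⟨l, l'⟩
    · change f (-wV G e x _) = -wV G e _ _
      rw [map_neg, h1]
    · change f (lapl _ _ _) = lapl _ _ _
      simp only [lapl, Matrix.of_apply, map_sub, h1]
      split_ifs
      · rw [map_sum]
        simp only [h1]
      · rw [map_zero]
  memF C _ _ p hp := by
    refine ⟨trivial, ?_⟩
    change IsUnit (aeval (wG G e p) (kirchhoff R G))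
    rw [← fG_det (R := R) h, fG_wG h hc p hp.1.2 hp.1.1]
    exact hp.2
  memG C _ _ x hx := by
    refine ⟨⟨fun q j hj => ?_, fun i j => lapl_symm _ _ _⟩, ?_⟩
    · change -xt G x s(e (some (.inl q)), e (vt j)) = 0
      rw [xt_not, neg_zero]
      rw [SimpleGraph.mem_edgeSet]
      exact fun h' => hj (mem_Nb.mpr h')
    · change IsUnit (bm (kX R Q L) (kY R Q L) C (fG G e x)).det
      rw [fG_det h]
      exact hx.2
  GF C _ _ p hp := fG_wG h hc p hp.1.2 hp.1.1
  FG C _ _ x hx := by
    funext s
    obtain ⟨s, hs⟩ := s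
    induction s with
    | h i j =>
      have h1 : ∃ u v, i = e u ∧ j = e v := ⟨e.symm i, e.symm j, by simp, by simp⟩
      obtain ⟨u, v, rfl, rfl⟩ := h1
      have h2 : u ≠ v := by
        rintro rfl
        exact G.not_isDiag_of_mem_edgeSet hs rfl
      rw [wG_mk G e _ (fun _ _ => lapl_symm _ _ _), hG_fG h x h2]
      exact dif_pos hs

/-- complements of the hypersurfaces of the Kirchhoff polynomials -/
lemma off_kgr (hP : Clo sep P) (hA : ∀ n : ℕ, P (aff R (MvPolynomial (Fin n) R)))
    (hc : Fintype.card Q ≤ 2 ∨ Fintype.card L ≤ 2) (hi : Ind G e) (hcl : Cli G e) :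
    P (aff R (Localization.Away (kirchhoff R G))) := by
  have h1 : Hol P ((al R G.edgeSet).opn (plFn (kirchhoff R G))) :=
    (holA_kst hP hA hc (Nb G e)).hol.trans (bij_kgr hi hcl)
  have h2 := h1.of_rep hP ((rep_al R G.edgeSet).opn (plFn (kirchhoff R G)))
  have h3 : (plFn (kirchhoff R G)).val (MvPolynomial G.edgeSet R) X = kirchhoff R G :=
    aeval_X_left_apply _
  rwa [h3] at h2

end

end Pool.Agent.H55.TH
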