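import Pool.Agent.H81.RZ.KDefs

/-!
# Split graphs with a small part
-/

set_option autoImplicit false

open CategoryTheory AlgebraicGeometry Pool.Agent.Y116.UV Pool.Agent.H81.RZ

namespace Pool.Agent.H55.TH

/-- The vertices are the disjoint union of an independent set and a clique; the independent set has at
most two elements, or the clique has at most three elements. -/
def IsSmallSplit {n : ℕ} (G : SimpleGraph (Fin n)) : Prop :=
  ∃ S : Set (Fin n), (∀ i ∈ S, ∀ j ∈ S, ¬ G.Adj i j) ∧
    (∀ i, i ∉ S → ∀ j, j ∉ S → i ≠ j → G.Adj i j) ∧ (S.ncard ≤ 2 ∨ Sᶜ.ncard ≤ 3)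

/-- `P` is true for the hypersurfaces of the Kirchhoff polynomials of the split graphs with a small
part, and for their complements. -/
def OnSmallKirchhoff {R : Type} [CommRing R] (P : Sch R → Prop) : Prop :=
  ∀ (n : ℕ) (G : SimpleGraph (Fin n)), IsSmallSplit G →
    P (aff R (Xg R G)) ∧ P (aff R (Localization.Away (kirchhoff R G)))

end Pool.Agent.H55.TH
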