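import Pool.Agent.H55.TH.KsDefs
import Pool.Agent.H55.TH.Kgr
import Pool.Graph.R_seed8.Z125.UN.Bnd

/-!
# The Kirchhoff polynomials of split graphs with a small part
-/

set_option autoImplicit false
set_option linter.unusedSectionVars false

open CategoryTheory AlgebraicGeometry MvPolynomial Pool.Agent.Y116.UV Pool.Agent.Q282.UK
  Pool.Agent.Q193.LT Pool.Agent.H81.RZ

namespace Pool.Agent.H55.TH

variable {R : Type} [CommRing R] {sep : Prop} {P : Sch R → Prop}

section split

variable {n : ℕ} (G : SimpleGraph (Fin n)) (S : Set (Fin n)) (r : Fin n)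

/-- the independent vertices other than `r` -/
abbrev SQ : Type := {i : Fin n // i ∈ S ∧ i ≠ r}

/-- the other vertices other than `r` -/
abbrev SL : Type := {i : Fin n // i ∉ S ∧ i ≠ r}

/-- the vertices -/
def sv : Option (SQ S r ⊕ SL S r) → Fin n
  | none => r
  | some (.inl q) => q.1
  | some (.inr l) => l.1

lemma sv_bij : Function.Bijective (sv S r) := by
  constructor
  · rintro (_ | q | l) (_ | q' | l') h
    · rfl
    · exact absurd h.symm q'.2.2
    · exact absurd h.symm l'.2.2
    · exact absurd h q.2.2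
    · rw [Subtype.ext (show q.1 = q'.1 from h)]
    · exact absurd (show q.1 = l'.1 from h) fun h' => l'.2.1 (h' ▸ q.2.1)
    · exact absurd h l.2.2
    · exact absurd (show l.1 = q'.1 from h) fun h' => l.2.1 (h' ▸ q'.2.1)
    · rw [Subtype.ext (show l.1 = l'.1 from h)]
  · intro i
    by_cases h1 : i = r
    · exact ⟨none, h1.symm⟩
    · by_cases h2 : i ∈ S
      · exact ⟨some (.inl ⟨i, h2, h1⟩), rfl⟩
      · exact ⟨some (.inr ⟨i, h2, h1⟩), rfl⟩

/-- the vertices -/
noncomputable def se : Option (SQ S r ⊕ SL S r) ≃ Fin n := Equiv.ofBijective _ (sv_bij S r)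

end split

variable (hP : Clo sep P) (hA : ∀ n : ℕ, P (aff R (MvPolynomial (Fin n) R)))

include hP hA

/-- complements of the hypersurfaces -/
theorem off_small {n : ℕ} (G : SimpleGraph (Fin n)) (hG : IsSmallSplit G) :
    P (aff R (Localization.Away (kirchhoff R G))) := by
  classical
  obtain ⟨S, h1, h2, h3⟩ := hG
  rcases n with _ | n
  · -- no vertices
    have hk : kirchhoff R G = 0 := by
      apply Finset.sum_eq_zero
      intro T hT
      exfalso
      obtain ⟨x⟩ := (Finset.mem_filter.mp hT).2.connected.nonempty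
      exact x.elim0
    have h4 : Hol P ((al R G.edgeSet).opn (plFn (kirchhoff R G))) := by
      refine (HolA.void (T := (al R G.edgeSet).opn (plFn (kirchhoff R G))) hP
        (holA_pnt hP hA Unit) (fun C _ _ p hC => ⟨trivial, ?_⟩) fun C _ _ p hp => ?_).hol
      · exact isUnit_of_subsingleton _
      · have h5 : IsUnit (aeval p (kirchhoff R G)) := hp.2
        rw [hk, map_zero] at h5
        exact subsingleton_of_zero_eq_one (isUnit_zero_iff.mp h5)
    have h5 := h4.of_rep hP ((rep_al R G.edgeSet).opn (plFn (kirchhoff R G)))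
    have h6 : (plFn (kirchhoff R G)).val (MvPolynomial G.edgeSet R) X = kirchhoff R G :=
      aeval_X_left_apply _
    rwa [h6] at h5
  · have hc : ∃ r : Fin (n + 1), (∀ i, i ∉ S → i ≠ r → G.Adj i r) ∧
        (Fintype.card (SQ S r) ≤ 2 ∨ Fintype.card (SL S r) ≤ 2) := by
      by_cases h4 : ∃ r, r ∉ S
      · obtain ⟨r, hr⟩ := h4
        refine ⟨r, fun i hi hir => h2 i hi r hr hir, ?_⟩
        rcases h3 with h3 | h3
        · left
          have h5 : Fintype.card (SQ S r) ≤ Fintype.card S :=
            Fintype.card_le_of_injective (fun q : SQ S r => (⟨q.1, q.2.1⟩ : S))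
              fun q q' h => Subtype.ext (congrArg (fun x : S => (x : Fin (n + 1))) h)
          rw [← Nat.card_eq_fintype_card (α := S), Nat.card_coe_set_eq] at h5
          exact h5.trans h3
        · right
          have h5 : Fintype.card (SL S r) < Fintype.card (Sᶜ : Set (Fin (n + 1))) := by
            refine Fintype.card_lt_of_injective_of_notMem
              (fun q : SL S r => (⟨q.1, q.2.1⟩ : (Sᶜ : Set (Fin (n + 1)))))
              (fun q q' h => Subtype.ext (congrArg
                (fun x : (Sᶜ : Set (Fin (n + 1))) => (x : Fin (n + 1))) h)) (b := ⟨r, hr⟩) ?_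
            rintro ⟨q, hq⟩
            exact q.2.2 (congrArg Subtype.val hq)
          rw [← Nat.card_eq_fintype_card (α := (Sᶜ : Set (Fin (n + 1)))), Nat.card_coe_set_eq] at h5
          omega
      · push Not at h4
        refine ⟨0, fun i hi => absurd (h4 i) hi, Or.inr ?_⟩
        have h5 : IsEmpty (SL S (0 : Fin (n + 1))) := ⟨fun l => l.2.1 (h4 l.1)⟩
        rw [Fintype.card_eq_zero]
        exact Nat.zero_le 2
    obtain ⟨r, hr, hc⟩ := hc
    refine off_kgr (e := se S r) hP hA hc (fun q q' => h1 _ q.2.1 _ q'.2.1)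
      ⟨fun l => hr _ l.2.1 l.2.2, fun l l' hl => h2 _ l.2.1 _ l'.2.1 fun h => hl (Subtype.ext h)⟩

omit hP in
/-- **Split graphs with a small part.** -/
theorem on_small (hP : Uni sep P) : OnSmallKirchhoff P := by
  intro n G hG
  have h1 : P (aff R (MvPolynomial G.edgeSet R)) := by
    have : Fintype G.edgeSet := Fintype.ofFinite _
    exact iso_alg hP (MvPolynomial.renameEquiv R (Fintype.equivFin G.edgeSet).symm) (hA _)
  have h2 := off_small (clo_of_uni hP) hA G hG
  exact ⟨hP.closed _ _ (ft_aff sep) (triple_away (kirchhoff R G)) h1 h2, h2⟩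

omit hP hA in
/-- The same for the properties which are inherited by affine bundles. -/
theorem small_of_bnd (hP : Z125.UN.Bnd sep P) (h0 : P (aff R R)) : OnSmallKirchhoff P :=
  on_small (fun n => Z125.UN.p_poly_fin hP n h0) hP.toUni

end Pool.Agent.H55.TH
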