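import Pool.Agent.H55.TH.Rows

/-!
# Reduced Laplacians of graphs with an independent set and a clique
-/

set_option autoImplicit false
set_option linter.unusedSectionVars false

open CategoryTheory AlgebraicGeometry MvPolynomial Pool.Agent.Y116.UV Pool.Agent.Q282.UK
  Pool.Agent.H81.RZ

namespace Pool.Agent.H55.TH

variable {R : Type} [CommRing R] {sep : Prop} {P : Sch R → Prop} {Q L : Type} [Fintype Q]
  [Fintype L] [DecidableEq Q] [DecidableEq L]

/-- the diagonal block: minus the sums of the rows -/
def kX (R Q L : Type) [CommRing R] [Fintype L] [DecidableEq Q] : MF R (Q × Option L) Q Q :=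
  fun _ _ _ p => Matrix.diagonal fun q => -∑ j, p (q, j)

/-- the rows -/
def kY (R Q L : Type) [CommRing R] : MF R (Q × Option L) Q L :=
  fun _ _ _ p => Matrix.of fun q l => p (q, some l)

lemma nat_kX (S : Pts R (Q × Option L)) : NatM S (kX R Q L) := by
  intro C D _ _ _ _ f p _
  ext x y
  change f (Matrix.diagonal _ x y) = Matrix.diagonal _ x y
  by_cases h : x = y
  · subst h
    rw [Matrix.diagonal_apply_eq, Matrix.diagonal_apply_eq, map_neg, map_sum]
  · rw [Matrix.diagonal_apply_ne _ h, Matrix.diagonal_apply_ne _ h, map_zero]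

lemma nat_kY (S : Pts R (Q × Option L)) : NatM S (kY R Q L) := fun _ _ _ _ _ _ _ _ _ => rfl

/-- the points with an invertible reduced Laplacian -/
abbrev kst (S : Pts R (Q × Option L)) : Pts R (Q × Option L ⊕ L × L) :=
  bor S (kX R Q L) (kY R Q L) (nat_kX S) (nat_kY S)

lemma kX_symm (C : Type) [CommRing C] [Algebra R C] (p : Q × Option L → C) :
    (kX R Q L C p).transpose = kX R Q L C p := Matrix.diagonal_transpose _

lemma kX_sum {C F : Type} [CommRing C] [Algebra R C] [Field F] (f : C →+* F)
    (p : Q × Option L → C) (u : Q → F) (k : Q) :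
    ∑ k', f (kX R Q L C p k k') * u k' = f (-∑ j, p (k, j)) * u k := by
  rw [Finset.sum_eq_single k]
  · rw [kX, Matrix.diagonal_apply_eq]
  · intro b _ hb
    rw [kX, Matrix.diagonal_apply_ne _ (Ne.symm hb), map_zero, zero_mul]
  · intro h
    exact absurd (Finset.mem_univ k) h

lemma kX_row {C : Type} [CommRing C] [Algebra R C] {p : Q × Option L → C} {t : Q}
    (h : ∑ j, p (t, j) = 0) (y : Q) : kX R Q L C p t y = 0 := by
  rw [kX]
  by_cases h3 : t = y
  · subst h3
    rw [Matrix.diagonal_apply_eq, h, neg_zero]
  · exact Matrix.diagonal_apply_ne _ h3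

lemma kX_col {C : Type} [CommRing C] [Algebra R C] {p : Q × Option L → C} {t : Q}
    (h : ∑ j, p (t, j) = 0) (y : Q) : kX R Q L C p y t = 0 := by
  rw [kX]
  by_cases h3 : y = t
  · subst h3
    rw [Matrix.diagonal_apply_eq, h, neg_zero]
  · exact Matrix.diagonal_apply_ne _ h3

/-- a zero in the kernel equations -/
lemma kX_zero {C F : Type} [CommRing C] [Algebra R C] [Field F] (f : C →+* F)
    (p : Q × Option L → C) (u : Q → F) {k : Q} (h : Zu false (∑ j, p (k, j))) :
    ∑ k', f (kX R Q L C p k k') * u k' = 0 := by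
  rw [kX_sum, h.2 rfl, neg_zero, map_zero, zero_mul]

/-- an invertible entry in the kernel equations -/
lemma kX_unit {C F : Type} [CommRing C] [Algebra R C] [Field F] (f : C →+* F)
    (p : Q × Option L → C) (u : Q → F) {k : Q} (h : Zu true (∑ j, p (k, j)))
    (h' : ∑ k', f (kX R Q L C p k k') * u k' = 0) : u k = 0 := by
  rw [kX_sum] at h'
  have h1 : IsUnit (-∑ j, p (k, j)) := (h.1 rfl).neg
  exact (mul_eq_zero.mp h').resolve_left (h1.map f).ne_zero

variable (hP : Clo sep P) (hA : ∀ n : ℕ, P (aff R (MvPolynomial (Fin n) R)))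

include hP hA

/-- a row is zero -/
lemma kst_void {S : Pts R (Q × Option L)} (hS : Repr S) (t : Q)
    (h : ∀ (C : Type) [CommRing C] [Algebra R C] (p : Q × Option L → C), S.pts C p →
      ∑ j, p (t, j) = 0 ∧ ∀ l, p (t, some l) = 0) : HolA P (kst S) := by
  refine bor_void _ _ hP (holA_pnt hP hA Unit) hS fun C _ _ p hp => ?_
  apply Matrix.det_eq_zero_of_row_eq_zero (.inl t)
  obtain ⟨h1, h2⟩ := h C _ hp.1.1
  intro y
  rcases y with y | l
  · exact kX_row (R := R) (p := fun s => p (.inl s)) (t := t) h1 y
  · exact h2 l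

omit hA in
/-- the number of the rows with sum zero is too large -/
lemma kst_big {S : Pts R (Q × Option L)} (hS : HolA P S) (T : Finset Q)
    (hT : Fintype.card L < T.card)
    (h : ∀ (C : Type) [CommRing C] [Algebra R C] (p : Q × Option L → C), S.pts C p → ∀ t ∈ T,
      ∑ j, p (t, j) = 0) : HolA P (kst S) := by
  refine bor_void _ _ hP hS hS.hol.repr fun C _ _ p hp => ?_
  rw [Matrix.det_apply]
  apply Finset.sum_eq_zero
  intro s _
  have h1 : ∃ t ∈ T, ∃ q, s (.inl t) = .inl q := by
    by_contra h2
    push Not at h2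
    have h3 : ∀ t : T, ∃ l : L, s (.inl t.1) = .inr l := by
      intro t
      have h4 := h2 t.1 t.2
      rcases h5 : s (.inl t.1) with q | l
      · exact absurd h5 (h4 q)
      · exact ⟨l, rfl⟩
    choose g hg using h3
    have h4 : Function.Injective g := by
      intro t t' htt
      have h5 : s (.inl t.1) = s (.inl t'.1) := by rw [hg, hg, htt]
      exact Subtype.ext (Sum.inl.inj (s.injective h5))
    have h5 := Fintype.card_le_of_injective g h4
    rw [Fintype.card_coe] at h5
    omega
  obtain ⟨t, ht, q, hq⟩ := h1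
  have h2 : ∏ i, bm (kX R Q L) (kY R Q L) C p (s i) i = 0 := by
    refine Finset.prod_eq_zero (Finset.mem_univ (.inl t)) ?_
    rw [hq]
    exact kX_col (R := R) (p := fun s => p (.inl s)) (t := t) (h C _ hp.1.1 t ht) q
  rw [h2, smul_zero]

/-- all sums are invertible -/
lemma kst_zero (N : Q → Finset (Option L)) (δ : Q → Bool) (hδ : ∀ q, δ q = true) :
    HolA P (kst (Rs R N δ)) := by
  refine holA_schur _ _ (holA_rs hP hA N δ) (fun C _ _ p _ => kX_symm C p) (fun C _ _ p hp => ?_)
    (d0_all hP L)
  apply unit_det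
  intro F _ f v hv i
  refine kX_unit f p v ?_ (hv i)
  rw [← hδ i]
  exact hp.2 i

/-- one sum is zero -/
lemma kst_one (δ : Q → Bool) (t : Q) (hδ : ∀ q, δ q = false ↔ q = t) (n : ℕ)
    (N : Q → Finset (Option L)) (hn : (N t).card = n) : HolA P (kst (Rs R N δ)) := by
  have ht : δ t = false := (hδ t).mpr rfl
  induction n generalizing N with
  | zero =>
    have hN : N t = ∅ := Finset.card_eq_zero.mp hn
    refine kst_void hP hA (repr_rs N δ) t fun C _ _ p hp => ?_
    have h1 : ∀ j, p (t, j) = 0 := fun j => hp.1 t j (by simp [hN])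
    exact ⟨Finset.sum_eq_zero fun j _ => h1 j, fun l => h1 _⟩
  | succ n ih =>
    by_cases hb : ∃ b : L, some b ∈ N t
    · obtain ⟨b, hb⟩ := hb
      have hcard : (rmv N t (some b) t).card = n := by
        rw [rmv, Function.update_self, Finset.card_erase_of_mem hb, hn]
        rfl
      refine bor_total _ _ hP (repr_rs N δ) (cr (t, some b)) ?_ ?_
      · exact bor_cg _ _ (fun C _ _ p => rs_clo N δ t (some b) C p) (ih _ hcard)
      · refine holA_piv _ _ (holA_rs1 hP hA N δ _) (fun C _ _ p _ => kX_symm C p) {b}
          (fun C _ _ p hp F _ f u v w h1 h2 h3 => ?_) (d0_all hP _)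
        have hu : f (p (t, some b)) ≠ 0 := (hp.2.map f).ne_zero
        have h4 := h1 t
        rw [kX_zero f p u (ht ▸ hp.1.2 t), zero_add, Finset.sum_singleton] at h4
        have h5 : v b = 0 := (mul_eq_zero.mp h4).resolve_left hu
        have h7 : ∀ b' ∈ ({b} : Finset L), v b' = 0 := by
          intro b' hb'
          rw [Finset.mem_singleton.mp hb']
          exact h5
        have h6 : ∀ k, k ≠ t → u k = 0 := by
          intro k hk
          have h8 := h1 k
          rw [Finset.sum_singleton, h5, mul_zero, add_zero] at h8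
          refine kX_unit f p u ?_ h8
          have h9 : δ k = true := by
            by_contra h9
            exact hk ((hδ k).mp (Bool.eq_false_iff.mpr h9))
          rw [← h9]
          exact hp.1.2 k
        have h8 := h2 b (Finset.mem_singleton_self b)
        rw [h3 h7 b (Finset.mem_singleton_self b), add_zero, Finset.sum_eq_single t
          (fun k _ hk => by rw [h6 k hk, mul_zero]) fun h => absurd (Finset.mem_univ t) h] at h8
        refine ⟨fun k => ?_, h7⟩
        by_cases hk : k = t
        · rw [hk]
          exact (mul_eq_zero.mp h8).resolve_left hu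
        · exact h6 k hk
    · push Not at hb
      refine kst_void hP hA (repr_rs N δ) t fun C _ _ p hp => ⟨?_, fun l => hp.1 t _ (hb l)⟩
      exact (ht ▸ hp.2 t : Zu false (∑ j, p (t, j))).2 rfl

/-- two sums are zero; a pivot in the first row, outside the support of the second -/
lemma kst_two' (δ : Q → Bool) (t t' : Q) (htt : t ≠ t') (hδ : ∀ q, δ q = false ↔ q = t ∨ q = t')
    (b : L) (n : ℕ) (N : Q → Finset (Option L)) (hn : (N t').card = n) (hb : some b ∉ N t') :
    HolA P (kst ((Rs R N δ).opn (cr (t, some b)))) := by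
  have ht : δ t = false := (hδ t).mpr (Or.inl rfl)
  have ht' : δ t' = false := (hδ t').mpr (Or.inr rfl)
  induction n generalizing N with
  | zero =>
    have hN : N t' = ∅ := Finset.card_eq_zero.mp hn
    refine kst_void hP hA (holA_rs1 hP hA N δ _).hol.repr t' fun C _ _ p hp => ?_
    have h1 : ∀ j, p (t', j) = 0 := fun j => hp.1.1 t' j (by simp [hN])
    exact ⟨Finset.sum_eq_zero fun j _ => h1 j, fun l => h1 _⟩
  | succ n ih =>
    by_cases hb' : ∃ b' : L, some b' ∈ N t'
    · obtain ⟨b', hb'⟩ := hb'
      have hbb : b ≠ b' := by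
        rintro rfl
        exact hb hb'
      have hcard : (rmv N t' (some b') t').card = n := by
        rw [rmv, Function.update_self, Finset.card_erase_of_mem hb', hn]
        rfl
      have hbr : some b ∉ rmv N t' (some b') t' := by
        rw [rmv, Function.update_self]
        exact fun h => hb (Finset.mem_of_mem_erase h)
      refine bor_total _ _ hP (holA_rs1 hP hA N δ _).hol.repr (cr (t', some b')) ?_ ?_
      · exact bor_cg _ _ (fun C _ _ p => rs1_clo N δ _ t' (some b') C p) (ih _ hcard hbr)
      · refine holA_piv _ _ (holA_rs2 hP hA N δ _ _) (fun C _ _ p _ => kX_symm C p) {b, b'}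
          (fun C _ _ p hp F _ f u v w h1 h2 h3 => ?_) (d0_all hP _)
        have hy : f (p (t, some b)) ≠ 0 := (hp.1.2.map f).ne_zero
        have hz : f (p (t', some b')) ≠ 0 := (hp.2.map f).ne_zero
        have hzb : f (p (t', some b)) = 0 := by rw [hp.1.1.1 t' _ hb, map_zero]
        have h4 := h1 t'
        have h5 := h1 t
        rw [kX_zero f p u (ht' ▸ hp.1.1.2 t'), zero_add, Finset.sum_pair hbb] at h4
        rw [kX_zero f p u (ht ▸ hp.1.1.2 t), zero_add, Finset.sum_pair hbb] at h5
        change f (p (t', some b)) * v b + f (p (t', some b')) * v b' = 0 at h4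
        change f (p (t, some b)) * v b + f (p (t, some b')) * v b' = 0 at h5
        rw [hzb, zero_mul, zero_add] at h4
        have h6 : v b' = 0 := (mul_eq_zero.mp h4).resolve_left hz
        rw [h6, mul_zero, add_zero] at h5
        have h7 : v b = 0 := (mul_eq_zero.mp h5).resolve_left hy
        have h8 : ∀ c ∈ ({b, b'} : Finset L), v c = 0 := by
          intro c hc
          rcases Finset.mem_insert.mp hc with rfl | hc
          · exact h7
          · rw [Finset.mem_singleton.mp hc]
            exact h6
        have h9 : ∀ k, k ≠ t → k ≠ t' → u k = 0 := by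
          intro k hk hk'
          have h10 := h1 k
          have h12 : ∑ c ∈ ({b, b'} : Finset L), f (kY R Q L C p k c) * v c = 0 :=
            Finset.sum_eq_zero fun c hc => by rw [h8 c hc, mul_zero]
          rw [h12, add_zero] at h10
          refine kX_unit f p u ?_ h10
          have h11 : δ k = true := by
            by_contra h11
            rcases (hδ k).mp (Bool.eq_false_iff.mpr h11) with h12 | h12
            · exact hk h12
            · exact hk' h12
          rw [← h11]
          exact hp.1.1.2 k
        have key : ∀ c ∈ ({b, b'} : Finset L),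
            f (p (t, some c)) * u t + f (p (t', some c)) * u t' = 0 := by
          intro c hc
          have h10 := h2 c hc
          rw [h3 h8 c hc, add_zero, ← Finset.sum_subset (Finset.subset_univ {t, t'})
            (fun k _ hk => ?_), Finset.sum_pair htt] at h10
          · exact h10
          · rw [h9 k (fun h => hk (by simp [h])) fun h => hk (by simp [h]), mul_zero]
        have h10 := key b (by simp)
        rw [hzb, zero_mul, add_zero] at h10
        have h11 : u t = 0 := (mul_eq_zero.mp h10).resolve_left hy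
        have h12 := key b' (by simp)
        rw [h11, mul_zero, zero_add] at h12
        have h13 : u t' = 0 := (mul_eq_zero.mp h12).resolve_left hz
        refine ⟨fun k => ?_, h8⟩
        by_cases hk : k = t
        · rw [hk]
          exact h11
        · by_cases hk' : k = t'
          · rw [hk']
            exact h13
          · exact h9 k hk hk'
    · push Not at hb'
      refine kst_void hP hA (holA_rs1 hP hA N δ _).hol.repr t' fun C _ _ p hp =>
        ⟨?_, fun l => hp.1.1 t' _ (hb' l)⟩
      exact (ht' ▸ hp.1.2 t' : Zu false (∑ j, p (t', j))).2 rfl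

omit hP hA in
/-- simultaneous row and column operations -/
lemma det_shear {V C : Type} [Fintype V] [DecidableEq V] [CommRing C] (A B : Matrix V V C)
    (c : V → C) (k : V) (hk : c k = 0)
    (h : ∀ i j, A i j = B i j + c i * B k j + c j * B i k + c i * c j * B k k) : A.det = B.det := by
  have h1 : (Matrix.of fun i j => B i j + c i * B k j).det = B.det :=
    Matrix.det_eq_of_forall_row_eq_smul_add_const c k hk fun i j => rfl
  rw [← h1, ← Matrix.det_transpose A, ← Matrix.det_transpose (Matrix.of fun i j => _)]
  refine Matrix.det_eq_of_forall_row_eq_smul_add_const c k hk fun i j => ?_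
  simp only [Matrix.transpose_apply, Matrix.of_apply, h]
  ring

/-- the second row is changed by a multiple of the first -/
def sh (t t' : Q) {C : Type} [CommRing C] (c : C) (p : Q × Option L ⊕ L × L → C) :
    Q × Option L ⊕ L × L → C
  | .inl (q, j) => p (.inl (q, j)) + (if q = t' then c else 0) * p (.inl (t, j))
  | .inr e => p (.inr e)

omit hP hA in
lemma sh_det (t t' : Q) (htt : t ≠ t') {C : Type} [CommRing C] [Algebra R C] (c : C)
    (p : Q × Option L ⊕ L × L → C) (h : ∑ j, p (.inl (t, j)) = 0) :
    (bm (kX R Q L) (kY R Q L) C (sh t t' c p)).det = (bm (kX R Q L) (kY R Q L) C p).det := by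
  refine det_shear _ _ (fun x => if x = .inl t' then c else 0) (.inl t)
    (if_neg fun h => htt (Sum.inl.inj h)) ?_
  have h3 : ∀ q, ∑ j, sh t t' c p (.inl (q, j)) = ∑ j, p (.inl (q, j)) := by
    intro q
    change ∑ j, (p (.inl (q, j)) + (if q = t' then c else 0) * p (.inl (t, j))) = _
    rw [Finset.sum_add_distrib, ← Finset.mul_sum, h, mul_zero, add_zero]
  have h4 : kX R Q L C (fun s => sh t t' c p (.inl s)) = kX R Q L C fun s => p (.inl s) := by
    rw [kX, kX]
    congr 1
    funext q
    rw [h3 q]
  have h5 : ∀ y, kX R Q L C (fun s => p (.inl s)) t y = 0 :=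
    kX_row (p := fun s => p (.inl s)) (t := t) h
  have h6 : ∀ y, kX R Q L C (fun s => p (.inl s)) y t = 0 :=
    kX_col (p := fun s => p (.inl s)) (t := t) h
  rintro (x | x) (y | y)
  · change kX R Q L C (fun s => sh t t' c p (.inl s)) x y = kX R Q L C (fun s => p (.inl s)) x y +
      _ * kX R Q L C (fun s => p (.inl s)) t y + _ * kX R Q L C (fun s => p (.inl s)) x t +
      _ * kX R Q L C (fun s => p (.inl s)) t t
    rw [h4, h5, h6, h5]
    ring
  · change p (.inl (x, some y)) + (if x = t' then c else 0) * p (.inl (t, some y)) =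
      p (.inl (x, some y)) + (if (.inl x : Q ⊕ L) = .inl t' then c else 0) *
        p (.inl (t, some y)) + (if (.inr y : Q ⊕ L) = .inl t' then c else 0) *
        kX R Q L C (fun s => p (.inl s)) x t +
      _ * kX R Q L C (fun s => p (.inl s)) t t
    rw [h5, h6]
    simp only [Sum.inl.injEq, mul_zero, add_zero]
  · change p (.inl (y, some x)) + (if y = t' then c else 0) * p (.inl (t, some x)) =
      p (.inl (y, some x)) + (if (.inr x : Q ⊕ L) = .inl t' then c else 0) *
        kX R Q L C (fun s => p (.inl s)) t y + (if (.inl y : Q ⊕ L) = .inl t' then c else 0) *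
        p (.inl (t, some x)) +
      _ * kX R Q L C (fun s => p (.inl s)) t t
    rw [h5, h5]
    simp only [Sum.inl.injEq, mul_zero, add_zero]
  · change p (.inr (x, y)) = p (.inr (x, y)) + (if (.inr x : Q ⊕ L) = .inl t' then c else 0) *
        p (.inl (t, some y)) + (if (.inr y : Q ⊕ L) = .inl t' then c else 0) *
        p (.inl (t, some x)) +
      _ * kX R Q L C (fun s => p (.inl s)) t t
    rw [h5, if_neg (by simp), if_neg (by simp)]
    ring

/-- two sums are zero; the support of the second row contains the support of the first -/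
lemma kst_shear (δ : Q → Bool) (t t' : Q) (htt : t ≠ t') (hδ : ∀ q, δ q = false ↔ q = t ∨ q = t')
    (b : L) (N : Q → Finset (Option L)) (hN : N t ⊆ N t') :
    HolA P (kst ((Rs R N δ).opn (cr (t, some b)))) := by
  have ht : δ t = false := (hδ t).mpr (Or.inl rfl)
  have ht' : δ t' = false := (hδ t').mpr (Or.inr rfl)
  have h0 : HolA P (kst ((Rs R (rmv N t' (some b)) δ).opn (cr (t, some b)))) := by
    refine kst_two' hP hA δ t t' htt hδ b _ _ rfl ?_
    rw [rmv, Function.update_self]
    exact Finset.notMem_erase _ _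
  refine (h0.affp Unit).trans (F := fun _ _ _ p => sh t t' (p (.inr ())) fun s => p (.inl s))
    (G := fun _ _ _ p s => match s with
      | .inl s => sh t t' (-(Ring.inverse (p (.inl (t, some b))) * p (.inl (t', some b)))) p s
      | .inr _ => Ring.inverse (p (.inl (t, some b))) * p (.inl (t', some b))) ?_
  -- the entries of the first row do not change
  have k1 : ∀ {C : Type} [CommRing C] (c : C) (p : Q × Option L ⊕ L × L → C) (j : Option L),
      sh t t' c p (.inl (t, j)) = p (.inl (t, j)) := by
    intro C _ c p j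
    change p (.inl (t, j)) + (if t = t' then c else 0) * p (.inl (t, j)) = _
    rw [if_neg htt, zero_mul, add_zero]
  have k2 : ∀ {C : Type} [CommRing C] (c : C) (p : Q × Option L ⊕ L × L → C) (j : Option L),
      sh t t' c p (.inl (t', j)) = p (.inl (t', j)) + c * p (.inl (t, j)) := by
    intro C _ c p j
    change p (.inl (t', j)) + (if t' = t' then c else 0) * p (.inl (t, j)) = _
    rw [if_pos rfl]
  have k3 : ∀ {C : Type} [CommRing C] (c : C) (p : Q × Option L ⊕ L × L → C),
      ∑ j, p (.inl (t, j)) = 0 → ∀ q, ∑ j, sh t t' c p (.inl (q, j)) = ∑ j, p (.inl (q, j)) := by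
    intro C _ c p h q
    change ∑ j, (p (.inl (q, j)) + (if q = t' then c else 0) * p (.inl (t, j))) = _
    rw [Finset.sum_add_distrib, ← Finset.mul_sum, h, mul_zero, add_zero]
  have k4 : ∀ {C : Type} [CommRing C] (c c' : C) (p : Q × Option L ⊕ L × L → C), c + c' = 0 →
      sh t t' c (sh t t' c' p) = p := by
    intro C _ c c' p h
    funext s
    rcases s with ⟨q, j⟩ | e
    · change p (.inl (q, j)) + (if q = t' then c' else 0) * p (.inl (t, j)) +
        (if q = t' then c else 0) * sh t t' c' p (.inl (t, j)) = p (.inl (q, j))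
      rw [k1]
      split_ifs
      · linear_combination p (.inl (t, j)) * h
      · ring
    · rfl
  have k5 : ∀ {C D : Type} [CommRing C] [Algebra R C] [CommRing D] [Algebra R D] (f : C →ₐ[R] D)
      (c : C) (p : Q × Option L ⊕ L × L → C) (s : Q × Option L ⊕ L × L),
      f (sh t t' c p s) = sh t t' (f c) (fun s => f (p s)) s := by
    intro C D _ _ _ _ f c p s
    rcases s with ⟨q, j⟩ | e
    · change f (p (.inl (q, j)) + (if q = t' then c else 0) * p (.inl (t, j))) =
        f (p (.inl (q, j))) + (if q = t' then f c else 0) * f (p (.inl (t, j)))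
      rw [map_add, map_mul, apply_ite f, map_zero]
    · rfl
  -- the conditions on the rows
  have k6 : ∀ {C : Type} [CommRing C] [Algebra R C] (c : C) (p : Q × Option L ⊕ L × L → C)
      (N' : Q → Finset (Option L)), (∀ q, q ≠ t' → N' q = N q) →
      (∀ q j, j ∉ N q → p (.inl (q, j)) = 0) → (∀ j, j ∉ N' t' →
        p (.inl (t', j)) + c * p (.inl (t, j)) = 0) →
      ∀ q j, j ∉ N' q → sh t t' c p (.inl (q, j)) = 0 := by
    intro C _ _ c p N' hN' h1 h2 q j hj
    by_cases hq : q = t'
    · subst hq
      rw [k2]
      exact h2 j hj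
    · change p (.inl (q, j)) + (if q = t' then c else 0) * p (.inl (t, j)) = 0
      rw [if_neg hq, zero_mul, add_zero]
      rw [hN' q hq] at hj
      exact h1 q j hj
  have k7 : ∀ {C : Type} [CommRing C] [Algebra R C] (p : Q × Option L ⊕ L × L → C),
      (kst ((Rs R N δ).opn (cr (t, some b)))).pts C p → ∀ s,
      s = Ring.inverse (p (.inl (t, some b))) * p (.inl (t', some b)) →
      (kst ((Rs R (rmv N t' (some b)) δ).opn (cr (t, some b)))).pts C (sh t t' (-s) p) := by
    intro C _ _ p hp s hs
    obtain ⟨⟨⟨⟨h1, h2⟩, h3⟩, h4⟩, h5⟩ := hp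
    have e1 : ∑ j, p (.inl (t, j)) = 0 := (ht ▸ h2 t : Zu false _).2 rfl
    have e2 : ∑ j, p (.inl (t', j)) = 0 := (ht' ▸ h2 t' : Zu false _).2 rfl
    refine ⟨⟨⟨⟨?_, fun q => ?_⟩, ?_⟩, h4⟩, ?_⟩
    · refine k6 (-s) p (rmv N t' (some b)) (fun q hq => Function.update_of_ne hq _ _) h1
        fun j hj => ?_
      rw [rmv, Function.update_self] at hj
      by_cases hjb : j = some b
      · rw [hjb, hs]
        have h6 := Ring.inverse_mul_cancel _ h3
        change Ring.inverse (p (.inl (t, some b))) * p (.inl (t, some b)) = 1 at h6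
        linear_combination (-(p (.inl (t', some b)))) * h6
      · have h6 : j ∉ N t' := fun h7 => hj (Finset.mem_erase.mpr ⟨hjb, h7⟩)
        have h7 : p (.inl (t, j)) = 0 := h1 t j fun h8 => h6 (hN h8)
        have h8 : p (.inl (t', j)) = 0 := h1 t' j h6
        rw [h7, h8, mul_zero, add_zero]
    · rw [k3 _ _ e1 q]
      exact h2 q
    · change IsUnit (sh t t' (-s) p (.inl (t, some b)))
      rw [k1]
      exact h3
    · change IsUnit (bm (kX R Q L) (kY R Q L) C (sh t t' (-s) p)).det
      rw [sh_det t t' htt (-s) p e1]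
      exact h5
  exact
  { natF := fun f p _ s => k5 f _ _ s
    natG := fun {C D} _ _ _ _ f p hp s => by
      have h1 := map_inverse_of_isUnit (f : C →+* D) hp.1.1.2
      have h2 : f (Ring.inverse (p (.inl (t, some b)))) = Ring.inverse (f (p (.inl (t, some b)))) :=
        h1
      rcases s with s | s
      · refine (k5 f _ _ s).trans ?_
        rw [map_neg, map_mul, h2]
      · change f (Ring.inverse (p (.inl (t, some b))) * p (.inl (t', some b))) = _
        rw [map_mul, h2]
    memF := fun C _ _ p hp => by
      obtain ⟨⟨⟨⟨h1, h2⟩, h3⟩, h4⟩, h5⟩ := hp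
      have e1 : ∑ j, p (.inl (.inl (t, j))) = 0 := (ht ▸ h2 t : Zu false _).2 rfl
      have e2 : ∑ j, p (.inl (.inl (t', j))) = 0 := (ht' ▸ h2 t' : Zu false _).2 rfl
      have h1' : ∀ q j, j ∉ N q → p (.inl (.inl (q, j))) = 0 := by
        intro q j hj
        refine h1 q j fun h6 => hj ?_
        by_cases hq : q = t'
        · subst hq
          rw [rmv, Function.update_self] at h6
          exact Finset.mem_of_mem_erase h6
        · rwa [rmv, Function.update_of_ne hq] at h6
      refine ⟨⟨⟨⟨?_, fun q => ?_⟩, ?_⟩, h4⟩, ?_⟩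
      · refine k6 _ (fun s => p (.inl s)) N (fun _ _ => rfl) h1' fun j hj => ?_
        have h7 : p (.inl (.inl (t, j))) = 0 := h1' t j fun h8 => hj (hN h8)
        have h8 : p (.inl (.inl (t', j))) = 0 := h1' t' j hj
        rw [h7, h8, mul_zero, add_zero]
      · rw [k3 _ (fun s => p (.inl s)) e1 q]
        exact h2 q
      · change IsUnit (sh t t' (p (.inr ())) (fun s => p (.inl s)) (.inl (t, some b)))
        rw [k1]
        exact h3
      · change IsUnit (bm (kX R Q L) (kY R Q L) C
          (sh t t' (p (.inr ())) fun s => p (.inl s))).det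
        rw [sh_det t t' htt _ (fun s => p (.inl s)) e1]
        exact h5
    memG := fun C _ _ p hp => k7 p hp _ rfl
    GF := fun C _ _ p hp => by
      have h3 : IsUnit (p (.inl (.inl (t, some b)))) := hp.1.1.2
      have h6 := Ring.inverse_mul_cancel _ h3
      have h7 : p (.inl (.inl (t', some b))) = 0 := by
        refine hp.1.1.1.1 t' (some b) ?_
        rw [rmv, Function.update_self]
        exact Finset.notMem_erase _ _
      have h8 : Ring.inverse (sh t t' (p (.inr ())) (fun s => p (.inl s)) (.inl (t, some b))) *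
          sh t t' (p (.inr ())) (fun s => p (.inl s)) (.inl (t', some b)) = p (.inr ()) := by
        rw [k1, k2, h7]
        linear_combination p (.inr ()) * h6
      funext s
      rcases s with s | s
      · change sh t t' (-(Ring.inverse (sh t t' (p (.inr ())) (fun s => p (.inl s))
          (.inl (t, some b))) * sh t t' (p (.inr ())) (fun s => p (.inl s))
          (.inl (t', some b)))) _ s = _
        rw [h8, k4 _ _ _ (by ring)]
      · exact h8
    FG := fun C _ _ p hp => k4 (Ring.inverse (p (.inl (t, some b))) * p (.inl (t', some b))) _ p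
      (add_neg_cancel _) }

/-- two sums are zero -/
lemma kst_two (δ : Q → Bool) (t t' : Q) (htt : t ≠ t') (hδ : ∀ q, δ q = false ↔ q = t ∨ q = t')
    (n : ℕ) (N : Q → Finset (Option L)) (hn : (N t).card = n) (hN : none ∈ N t → none ∈ N t') :
    HolA P (kst (Rs R N δ)) := by
  have ht : δ t = false := (hδ t).mpr (Or.inl rfl)
  induction n generalizing N with
  | zero =>
    have hN : N t = ∅ := Finset.card_eq_zero.mp hn
    refine kst_void hP hA (repr_rs N δ) t fun C _ _ p hp => ?_
    have h1 : ∀ j, p (t, j) = 0 := fun j => hp.1 t j (by simp [hN])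
    exact ⟨Finset.sum_eq_zero fun j _ => h1 j, fun l => h1 _⟩
  | succ n ih =>
    have step : ∀ b : L, some b ∈ N t → HolA P (kst ((Rs R N δ).opn (cr (t, some b)))) →
        HolA P (kst (Rs R N δ)) := by
      intro b hb ho
      have hcard : (rmv N t (some b) t).card = n := by
        rw [rmv, Function.update_self, Finset.card_erase_of_mem hb, hn]
        rfl
      refine bor_total _ _ hP (repr_rs N δ) (cr (t, some b)) ?_ ho
      refine bor_cg _ _ (fun C _ _ p => rs_clo N δ t (some b) C p) (ih _ hcard fun h => ?_)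
      rw [rmv, Function.update_self] at h
      rw [rmv, Function.update_of_ne htt.symm]
      exact hN (Finset.mem_of_mem_erase h)
    by_cases hb : ∃ b : L, some b ∈ N t ∧ some b ∉ N t'
    · obtain ⟨b, hb, hb'⟩ := hb
      exact step b hb (kst_two' hP hA δ t t' htt hδ b _ N rfl hb')
    · push Not at hb
      have hsub : N t ⊆ N t' := by
        intro j hj
        rcases j with _ | j
        · exact hN hj
        · exact hb j hj
      by_cases hc : ∃ b : L, some b ∈ N t
      · obtain ⟨b, hb⟩ := hc
        exact step b hb (kst_shear hP hA δ t t' htt hδ b N hsub)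
      · push Not at hc
        refine kst_void hP hA (repr_rs N δ) t fun C _ _ p hp => ⟨?_, fun l => hp.1 t _ (hc l)⟩
        exact (ht ▸ hp.2 t : Zu false (∑ j, p (t, j))).2 rfl

/-- **Reduced Laplacians with few rows or few columns.** -/
theorem holA_kst (h : Fintype.card Q ≤ 2 ∨ Fintype.card L ≤ 2) (N : Q → Finset (Option L)) :
    HolA P (kst (Rw R N)) := by
  have h1 : ∀ δ, HolA P (kst (Rs R N δ)) := by
    intro δ
    let T : Finset Q := Finset.univ.filter fun q => δ q = false
    have hT : ∀ q, δ q = false ↔ q ∈ T := fun q => by simp [T]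
    by_cases h0 : T.card = 0
    · have h2 : T = ∅ := Finset.card_eq_zero.mp h0
      refine kst_zero hP hA N δ fun q => ?_
      by_contra h3
      have h4 := (hT q).mp (Bool.eq_false_iff.mpr h3)
      rw [h2] at h4
      exact Finset.notMem_empty q h4
    by_cases h1 : T.card = 1
    · obtain ⟨t, ht⟩ := Finset.card_eq_one.mp h1
      refine kst_one hP hA δ t (fun q => ?_) _ N rfl
      rw [hT, ht, Finset.mem_singleton]
    by_cases h2 : T.card = 2
    · obtain ⟨t, t', htt, ht⟩ := Finset.card_eq_two.mp h2
      by_cases h3 : none ∈ N t → none ∈ N t'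
      · refine kst_two hP hA δ t t' htt (fun q => ?_) _ N rfl h3
        rw [hT, ht, Finset.mem_insert, Finset.mem_singleton]
      · push Not at h3
        refine kst_two hP hA δ t' t htt.symm (fun q => ?_) _ N rfl fun _ => h3.1
        rw [hT, ht, Finset.mem_insert, Finset.mem_singleton, or_comm]
    · have h3 : Fintype.card L ≤ 2 := by
        rcases h with h | h
        · exfalso
          have h4 : T.card ≤ Fintype.card Q := Finset.card_le_univ T
          omega
        · exact h
      refine kst_big hP (holA_rs hP hA N δ) T (by omega) fun C _ _ p hp t ht => ?_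
      have h4 := (hT t).mpr ht
      exact (h4 ▸ hp.2 t : Zu false (∑ j, p (t, j))).2 rfl
  refine holA_pat (S := kst (Rw R N)) (K := Q) (fun q => ⟨fun C _ _ p => ∑ j, p (.inl (q, j)),
    fun f p _ => map_sum f _ _⟩) hP (repr_bor _ _ (repr_rw N)) Finset.univ fun δ => ?_
  refine (h1 δ).cg fun C _ _ p => ⟨?_, ?_⟩
  · rintro ⟨⟨⟨h2, h3⟩, h4⟩, h5⟩
    exact ⟨⟨⟨h2, h4⟩, h5⟩, fun q _ => h3 q⟩
  · rintro ⟨⟨⟨h2, h4⟩, h5⟩, h3⟩
    exact ⟨⟨⟨h2, fun q => h3 q (Finset.mem_univ q)⟩, h4⟩, h5⟩

end Pool.Agent.H55.TH
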