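import Pool.Agent.H55.TH.Bord

/-!
# Pivots
-/

set_option autoImplicit false
set_option linter.unusedSectionVars false

open CategoryTheory AlgebraicGeometry MvPolynomial Pool.Agent.Y116.UV Pool.Agent.Q282.UK
  Pool.Agent.H81.RZ

namespace Pool.Agent.H55.TH

variable {R : Type} [CommRing R] {σ : Type} {sep : Prop} {P : Sch R → Prop}

/-- A matrix is invertible if it has no kernel over the residue fields. -/
lemma unit_det {K : Type} [Fintype K] [DecidableEq K] {C : Type} [CommRing C] (M : Matrix K K C)
    (h : ∀ (F : Type) [Field F] (f : C →+* F) (v : K → F), (∀ i, ∑ j, f (M i j) * v j = 0) →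
      ∀ i, v i = 0) : IsUnit M.det := by
  by_contra h1
  obtain ⟨m, hm, hmem⟩ := exists_max_ideal_of_mem_nonunits (show M.det ∈ nonunits C from h1)
  let _ := Ideal.Quotient.field m
  have h2 : (M.map (Ideal.Quotient.mk m)).det = 0 := by
    have h3 := RingHom.map_det (Ideal.Quotient.mk m) M
    rw [Ideal.Quotient.eq_zero_iff_mem.mpr hmem] at h3
    exact h3.symm
  obtain ⟨v, hv, hv'⟩ := Matrix.exists_mulVec_eq_zero_iff.mpr h2
  apply hv
  funext i
  refine h (C ⧸ m) (Ideal.Quotient.mk m) v (fun i => ?_) i
  have h4 := congrFun hv' i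
  exact h4

section reindex

variable {K L L' : Type} [Fintype K] [Fintype L] [DecidableEq K] [DecidableEq L] [Fintype L']
  [DecidableEq L'] {S : Pts R σ} {X : MF R σ K K} {Y : MF R σ K L} (hX : NatM S X) (hY : NatM S Y)
  (e : L' ≃ L)

/-- the columns in another order -/
lemma bor_reindex (hY' : NatM S (fun C _ _ p => (Y C p).submatrix id e))
    (h : HolA P (bor S X (fun C _ _ p => (Y C p).submatrix id e) hX hY')) :
    HolA P (bor S X Y hX hY) := by
  refine h.trans
    (F := fun _ _ _ p => Sum.elim (fun s => p (.inl s)) fun t => p (.inr (e.symm t.1, e.symm t.2)))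
    (G := fun _ _ _ p => Sum.elim (fun s => p (.inl s)) fun t => p (.inr (e t.1, e t.2))) ?_
  exact
  { natF := fun f p _ t => by rcases t with s | t <;> rfl
    natG := fun f p _ t => by rcases t with s | t <;> rfl
    memF := fun C _ _ p hp => by
      refine ⟨⟨hp.1.1, fun i j => hp.1.2 _ _⟩, ?_⟩
      have h2 : bm X Y C (Sum.elim (fun s => p (.inl s))
          fun t => p (.inr (e.symm t.1, e.symm t.2))) =
          (bm X (fun C _ _ p => (Y C p).submatrix id e) C p).submatrix
            ((Equiv.refl K).sumCongr e.symm) ((Equiv.refl K).sumCongr e.symm) := by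
        ext x y
        rcases x with x | x <;> rcases y with y | y
        · rfl
        · change Y C _ x y = Y C _ x (e (e.symm y))
          rw [e.apply_symm_apply]
          rfl
        · change Y C _ y x = Y C _ y (e (e.symm x))
          rw [e.apply_symm_apply]
          rfl
        · rfl
      change IsUnit (bm X Y C _).det
      rw [h2, Matrix.det_submatrix_equiv_self]
      exact hp.2
    memG := fun C _ _ p hp => by
      refine ⟨⟨hp.1.1, fun i j => hp.1.2 _ _⟩, ?_⟩
      have h2 : bm X (fun C _ _ p => (Y C p).submatrix id e) C (Sum.elim (fun s => p (.inl s))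
          fun t => p (.inr (e t.1, e t.2))) =
          (bm X Y C p).submatrix
            ((Equiv.refl K).sumCongr e) ((Equiv.refl K).sumCongr e) := by
        ext x y
        rcases x with x | x <;> rcases y with y | y <;> rfl
      change IsUnit (bm X (fun C _ _ p => (Y C p).submatrix id e) C _).det
      rw [h2, Matrix.det_submatrix_equiv_self]
      exact hp.2
    GF := fun C _ _ p _ => by
      funext t
      rcases t with s | ⟨x, y⟩
      · rfl
      · change p (.inr (e.symm (e x), e.symm (e y))) = _
        rw [e.symm_apply_apply, e.symm_apply_apply]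
    FG := fun C _ _ p _ => by
      funext t
      rcases t with s | ⟨x, y⟩
      · rfl
      · change p (.inr (e (e.symm x), e (e.symm y))) = _
        rw [e.apply_symm_apply, e.apply_symm_apply] }

end reindex

section unpack

variable {K B L : Type} [Fintype K] [Fintype B] [Fintype L] [DecidableEq K] [DecidableEq B]
  [DecidableEq L] {S : Pts R σ} {X : MF R σ K K} {Y : MF R σ K (B ⊕ L)}

/-- the larger block -/
def uX (X : MF R σ K K) (Y : MF R σ K (B ⊕ L)) : MF R ((σ ⊕ B × B) ⊕ B × L) (K ⊕ B) (K ⊕ B) :=
  fun C _ _ q => Matrix.fromBlocks (X C fun s => q (.inl (.inl s)))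
    ((Y C fun s => q (.inl (.inl s))).submatrix id Sum.inl)
    ((Y C fun s => q (.inl (.inl s))).submatrix id Sum.inl).transpose
    (Matrix.of fun b b' => q (.inl (.inr (b, b'))))

/-- the remaining columns -/
def uY (Y : MF R σ K (B ⊕ L)) : MF R ((σ ⊕ B × B) ⊕ B × L) (K ⊕ B) L :=
  fun C _ _ q => Matrix.of fun k l => Sum.elim
    (fun k => Y C (fun s => q (.inl (.inl s))) k (.inr l)) (fun b => q (.inr (b, l))) k

lemma nat_uX (hX : NatM S X) (hY : NatM S Y) : NatM (affp (symA S B) (B × L)) (uX X Y) := by
  intro C D _ _ _ _ f q hq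
  have h1 := hX C D f _ hq.1
  have h2 := hY C D f _ hq.1
  ext x y
  rcases x with x | x <;> rcases y with y | y
  · exact congrFun (congrFun h1 x) y
  · exact congrFun (congrFun h2 x) (.inl y)
  · exact congrFun (congrFun h2 y) (.inl x)
  · rfl

lemma nat_uY (hY : NatM S Y) : NatM (affp (symA S B) (B × L)) (uY Y) := by
  intro C D _ _ _ _ f q hq
  have h2 := hY C D f _ hq.1
  ext x y
  rcases x with x | x
  · exact congrFun (congrFun h2 x) (.inr y)
  · rfl

variable (hX : NatM S X) (hY : NatM S Y)

lemma uX_det (C : Type) [CommRing C] [Algebra R C] (p : σ ⊕ (B ⊕ L) × (B ⊕ L) → C)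
    (q : ((σ ⊕ B × B) ⊕ B × L) ⊕ L × L → C) (h0 : ∀ s, p (.inl s) = q (.inl (.inl (.inl s))))
    (h1 : ∀ b b', p (.inr (.inl b, .inl b')) = q (.inl (.inl (.inr (b, b')))))
    (h2 : ∀ b l, p (.inr (.inl b, .inr l)) = q (.inl (.inr (b, l))))
    (h3 : ∀ b l, p (.inr (.inr l, .inl b)) = q (.inl (.inr (b, l))))
    (h4 : ∀ l l', p (.inr (.inr l, .inr l')) = q (.inr (l, l'))) :
    (bm X Y C p).det = (bm (uX X Y) (uY Y) C q).det := by
  have h5 : (fun s => p (.inl s)) = fun s => q (.inl (.inl (.inl s))) := funext h0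
  have h6 : bm (uX X Y) (uY Y) C q = (bm X Y C p).submatrix (Equiv.sumAssoc K B L)
      (Equiv.sumAssoc K B L) := by
    ext x y
    rw [Matrix.submatrix_apply, bm, bm, h5]
    rcases x with (x | x) | x <;> rcases y with (y | y) | y
    · rfl
    · rfl
    · rfl
    · rfl
    · exact (h1 x y).symm
    · exact (h2 x y).symm
    · rfl
    · exact (h3 y x).symm
    · exact (h4 x y).symm
  rw [h6, Matrix.det_submatrix_equiv_self]

/-- A part of the symmetric matrix goes to the base. -/
lemma bor_unpack (h : HolA P (bor (affp (symA S B) (B × L)) (uX X Y) (uY Y) (nat_uX hX hY)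
    (nat_uY hY))) : HolA P (bor S X Y hX hY) := by
  refine h.trans
    (F := fun _ _ _ q t => match t with
      | .inl s => q (.inl (.inl (.inl s)))
      | .inr (.inl b, .inl b') => q (.inl (.inl (.inr (b, b'))))
      | .inr (.inl b, .inr l) => q (.inl (.inr (b, l)))
      | .inr (.inr l, .inl b) => q (.inl (.inr (b, l)))
      | .inr (.inr l, .inr l') => q (.inr (l, l')))
    (G := fun _ _ _ p t => match t with
      | .inl (.inl (.inl s)) => p (.inl s)
      | .inl (.inl (.inr e)) => p (.inr (.inl e.1, .inl e.2))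
      | .inl (.inr e) => p (.inr (.inl e.1, .inr e.2))
      | .inr e => p (.inr (.inr e.1, .inr e.2))) ?_
  exact
  { natF := fun f p _ t => by
      rcases t with s | ⟨x | x, y | y⟩ <;> rfl
    natG := fun f p _ t => by
      rcases t with ((s | t) | t) | t <;> rfl
    memF := fun C _ _ q hq => by
      refine ⟨⟨hq.1.1.1, fun i j => ?_⟩, ?_⟩
      · rcases i with i | i <;> rcases j with j | j
        · exact hq.1.1.2 i j
        · rfl
        · rfl
        · exact hq.1.2 i j
      · change IsUnit (bm X Y C _).det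
        rw [uX_det C _ q (fun _ => rfl) (fun _ _ => rfl) (fun _ _ => rfl) (fun _ _ => rfl)
          fun _ _ => rfl]
        exact hq.2
    memG := fun C _ _ p hp => by
      refine ⟨⟨⟨hp.1.1, fun i j => hp.1.2 _ _⟩, fun i j => hp.1.2 _ _⟩, ?_⟩
      change IsUnit (bm (uX X Y) (uY Y) C _).det
      rw [← uX_det C p _ (fun _ => rfl) (fun _ _ => rfl) (fun _ _ => rfl)
        (fun b l => hp.1.2 _ _) fun _ _ => rfl]
      exact hp.2
    GF := fun C _ _ p _ => by
      funext t
      rcases t with ((s | t) | t) | t <;> rfl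
    FG := fun C _ _ p hp => by
      funext t
      rcases t with s | ⟨x | x, y | y⟩
      · rfl
      · rfl
      · rfl
      · exact hp.1.2 _ _
      · rfl }

end unpack

section piv

variable {K L : Type} [Fintype K] [Fintype L] [DecidableEq K] [DecidableEq L] {S : Pts R σ}
  {X : MF R σ K K} {Y : MF R σ K L} (hX : NatM S X) (hY : NatM S Y)

/-- **Pivots.** -/
theorem holA_piv (hS : HolA P S)
    (hXs : ∀ (C : Type) [CommRing C] [Algebra R C] (p : σ → C), S.pts C p →
      (X C p).transpose = X C p) (B : Finset L)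
    (hu : ∀ (C : Type) [CommRing C] [Algebra R C] (p : σ → C), S.pts C p →
      ∀ (F : Type) [Field F] (f : C →+* F) (u : K → F) (v : L → F) (w : L → F),
      (∀ k, ∑ k', f (X C p k k') * u k' + ∑ b ∈ B, f (Y C p k b) * v b = 0) →
      (∀ b ∈ B, ∑ k, f (Y C p k b) * u k + w b = 0) →
      ((∀ b ∈ B, v b = 0) → ∀ b ∈ B, w b = 0) →
      (∀ k, u k = 0) ∧ ∀ b ∈ B, v b = 0)
    (hD : D0 P {l // ¬ l ∈ B}) : HolA P (bor S X Y hX hY) := by
  refine bor_reindex hX hY (Equiv.sumCompl fun l => l ∈ B)
    (fun C D _ _ _ _ f p hp => ?_) ?_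
  · have h1 := hY C D f p hp
    ext i j
    exact congrFun (congrFun h1 i) _
  refine bor_unpack _ _ ?_
  refine holA_schur _ _ ((hS.sym _).affp _) (fun C _ _ q hq => ?_) (fun C _ _ q hq => ?_) hD
  · rw [uX, Matrix.fromBlocks_transpose, hXs C _ hq.1, Matrix.transpose_transpose]
    congr 1
    ext i j
    exact hq.2 j i
  · apply unit_det
    intro F _ f v hv
    have h1 := hu C _ hq.1 F f (fun k => v (.inl k))
      (fun l => if h : l ∈ B then v (.inr ⟨l, h⟩) else 0)
      (fun l => if h : l ∈ B then ∑ b : {l // l ∈ B}, f (q (.inl (.inr (⟨l, h⟩, b)))) * v (.inr b)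
        else 0) ?_ ?_ ?_
    · intro i
      rcases i with k | b
      · exact h1.1 k
      · have h2 := h1.2 b.1 b.2
        rw [dif_pos b.2] at h2
        exact h2
    · intro k
      have h2 := hv (.inl k)
      rw [Fintype.sum_sum_type] at h2
      rw [← h2]
      congr 1
      rw [← Finset.sum_coe_sort]
      apply Finset.sum_congr rfl
      intro b _
      rw [dif_pos b.2]
      rfl
    · intro b hb
      have h2 := hv (.inr ⟨b, hb⟩)
      rw [Fintype.sum_sum_type] at h2
      rw [← h2, dif_pos hb]
      rfl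
    · intro h3 b hb
      rw [dif_pos hb]
      apply Finset.sum_eq_zero
      intro b' _
      have h4 := h3 b'.1 b'.2
      rw [dif_pos b'.2] at h4
      rw [h4, mul_zero]

end piv

end Pool.Agent.H55.TH
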