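import Pool.Agent.H55.TH.Elim

/-!
# Configurations of vectors in the plane
-/

set_option autoImplicit false

open CategoryTheory AlgebraicGeometry MvPolynomial Pool.Agent.Y116.UV Pool.Agent.Q282.UK
  Pool.Agent.H81.RZ

namespace Pool.Agent.H55.TH

variable {R : Type} [CommRing R] {sep : Prop} {P : Sch R → Prop}

/-- The determinant of two vectors of a configuration. -/
def dt {ι C : Type} [CommRing C] (p : ι × Bool → C) (i j : ι) : C :=
  p (i, false) * p (j, true) - p (j, false) * p (i, true)

/-- Configurations of vectors in the plane: all coordinates and all determinants of two vectors are zero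
or invertible, as prescribed. -/
def Cfg (R : Type) [CommRing R] (ι : Type) (a b : ι → Bool) (c : ι → ι → Bool) : Pts R (ι × Bool) where
  pts _ _ _ p := (∀ i, Zu (a i) (p (i, false)) ∧ Zu (b i) (p (i, true))) ∧ ∀ i j, Zu (c i j) (dt p i j)
  map {C D} _ _ _ _ f p h := by
    refine ⟨fun i => ⟨(h.1 i).1.map (f : C →+* D), (h.1 i).2.map (f : C →+* D)⟩, fun i j => ?_⟩
    have h1 := (h.2 i j).map (f : C →+* D)
    have h2 : (f : C →+* D) (dt p i j) = dt (fun s => f (p s)) i j := by
      simp only [dt, map_sub, map_mul, RingHom.coe_coe]
    rwa [h2] at h1

section step

variable {ι : Type}

/-- a coordinate -/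
def co {S : Pts R (ι × Bool)} (s : ι × Bool) : Fn S where
  val _ _ _ p := p s
  nat _ _ _ := rfl

/-- a constant -/
def cst {σ : Type} {S : Pts R σ} (r : R) : Fn S where
  val C _ _ _ := algebraMap R C r
  nat f _ _ := f.commutes r

variable (a b : Option ι → Bool) (c : Option ι → Option ι → Bool)

/-- the configuration with the first coordinate of one more vector -/
abbrev C1 (R : Type) [CommRing R] : Pts R (Option (ι × Bool)) :=
  add (S := Cfg R ι (fun i => a (some i)) (fun i => b (some i)) fun i j => c (some i) (some j))
    (I := Unit) (fun _ => cst 1) (fun _ => cst 0) Finset.univ fun _ => a none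

/-- the coefficient of the second coordinate -/
def cu : Option ι → Fn (C1 a b c R)
  | none => cst 1
  | some i => ⟨fun _ _ _ p => p (some (i, false)), fun _ _ _ => rfl⟩

/-- the constant term -/
def cv : Option ι → Fn (C1 a b c R)
  | none => cst 0
  | some i => ⟨fun _ _ _ p => -(p none * p (some (i, true))), fun f p _ => by
    rw [map_neg, map_mul]⟩

variable [Fintype ι]

/-- one more vector -/
abbrev C2 (R : Type) [CommRing R] : Pts R (Option (Option (ι × Bool))) :=
  add (cu (R := R) a b c) (cv a b c) Finset.univ fun i => i.elim (b none) fun i => c (some i) none

variable {a b c}

lemma holA_step (hP : Clo sep P)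
    (h : HolA P (Cfg R ι (fun i => a (some i)) (fun i => b (some i)) fun i j => c (some i) (some j))) :
    HolA P (Cfg R (Option ι) a b c) := by
  classical
  have h1 : HolA P (C1 a b c R) := by
    refine elim_add (α := fun _ => true) (β := fun _ => false) (γ := fun _ _ => false)
      (fun _ C _ _ p _ => ?_) (fun _ C _ _ p _ => ?_) (fun _ _ C _ _ p _ => ?_) hP h _ _
    · change Zu true (algebraMap R C 1)
      rw [map_one]
      exact zu_one
    · change Zu false (algebraMap R C 0)
      rw [map_zero]
      exact zu_zero
    · change Zu false (algebraMap R C 1 * algebraMap R C 0 - algebraMap R C 1 * algebraMap R C 0)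
      rw [sub_self]
      exact zu_zero
  have k0 : ∀ (C : Type) [CommRing C] [Algebra R C] (p : Option (ι × Bool) → C),
      (C1 a b c R).pts C p → Zu (a none) (p none) := by
    intro C _ _ p hp
    have h2 := hp.2 () (Finset.mem_univ _)
    change Zu (a none) (algebraMap R C 1 * p none + algebraMap R C 0) at h2
    rwa [map_one, map_zero, one_mul, add_zero] at h2
  have h2 : HolA P (C2 a b c R) := by
    refine elim_add
      (α := fun i => i.elim true fun i => a (some i))
      (β := fun i => i.elim false fun i => a none && b (some i))
      (γ := fun i j => i.elim (j.elim false fun j => a none && b (some j))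
        fun i => j.elim (a none && b (some i)) fun j => a none && c (some i) (some j))
      (fun i C _ _ p hp => ?_) (fun i C _ _ p hp => ?_) (fun i j C _ _ p hp => ?_) hP h1 _ _
    · rcases i with _ | i
      · change Zu true (algebraMap R C 1)
        rw [map_one]
        exact zu_one
      · exact (hp.1.1 i).1
    · rcases i with _ | i
      · change Zu false (algebraMap R C 0)
        rw [map_zero]
        exact zu_zero
      · exact ((k0 C p hp).mul (hp.1.1 i).2).neg
    · rcases i with _ | i
      · rcases j with _ | j
        · change Zu false (algebraMap R C 1 * algebraMap R C 0 - algebraMap R C 1 * algebraMap R C 0)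
          rw [sub_self]
          exact zu_zero
        · change Zu (a none && b (some j)) (algebraMap R C 1 * -(p none * p (some (j, true))) -
            p (some (j, false)) * algebraMap R C 0)
          rw [map_one, map_zero, one_mul, mul_zero, sub_zero]
          exact ((k0 C p hp).mul (hp.1.1 j).2).neg
      · rcases j with _ | j
        · change Zu (a none && b (some i)) (p (some (i, false)) * algebraMap R C 0 -
            algebraMap R C 1 * -(p none * p (some (i, true))))
          rw [map_one, map_zero, one_mul, mul_zero, zero_sub, neg_neg]
          exact (k0 C p hp).mul (hp.1.1 i).2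
        · change Zu (a none && c (some i) (some j)) (p (some (i, false)) *
            -(p none * p (some (j, true))) - p (some (j, false)) * -(p none * p (some (i, true))))
          have h3 := ((k0 C p hp).mul (hp.1.2 i j)).neg
          have h4 : -(p none * dt (fun s => p (some s)) i j) = p (some (i, false)) *
            -(p none * p (some (j, true))) - p (some (j, false)) *
              -(p none * p (some (i, true))) := by
            simp only [dt]
            ring
          rwa [h4] at h3
  -- the patterns of the determinants with the new vector
  by_cases hc : (∀ i, c none (some i) = c (some i) none) ∧ c none none = false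
  · refine h2.trans
      (F := fun _ _ _ p t => match t with
        | (none, false) => p (some none)
        | (none, true) => p none
        | (some i, e) => p (some (some (i, e))))
      (G := fun _ _ _ q t => match t with
        | none => q (none, true)
        | some none => q (none, false)
        | some (some (i, e)) => q (some i, e)) ?_
    exact
    { natF := fun f p _ t => by
        rcases t with ⟨_ | i, _ | _⟩ <;> rfl
      natG := fun f q _ t => by
        rcases t with _ | _ | ⟨i, e⟩ <;> rfl
      memF := fun C _ _ p hp => by
        have k1 := k0 C _ hp.1
        have k2 := hp.2 none (Finset.mem_univ _)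
        change Zu (b none) (algebraMap R C 1 * p none + algebraMap R C 0) at k2
        rw [map_one, map_zero, one_mul, add_zero] at k2
        have k3 : ∀ i, Zu (c (some i) none) (p (some (some (i, false))) * p none +
            -(p (some none) * p (some (some (i, true))))) := fun i => hp.2 (some i) (Finset.mem_univ _)
        refine ⟨fun i => ?_, fun i j => ?_⟩
        · rcases i with _ | i
          · exact ⟨k1, k2⟩
          · exact hp.1.1.1 i
        · rcases i with _ | i
          · rcases j with _ | j
            · rw [hc.2]
              change Zu false (p (some none) * p none - p (some none) * p none)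
              rw [sub_self]
              exact zu_zero
            · rw [hc.1]
              change Zu _ (p (some none) * p (some (some (j, true))) -
                p (some (some (j, false))) * p none)
              have k4 := (k3 j).neg
              have k5 : -(p (some (some (j, false))) * p none +
                -(p (some none) * p (some (some (j, true))))) =
                p (some none) * p (some (some (j, true))) -
                p (some (some (j, false))) * p none := by ring
              rwa [k5] at k4
          · rcases j with _ | j
            · change Zu _ (p (some (some (i, false))) * p none -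
                p (some none) * p (some (some (i, true))))
              have k4 := k3 i
              rwa [← sub_eq_add_neg] at k4
            · exact hp.1.1.2 i j
      memG := fun C _ _ q hq => by
        refine ⟨⟨⟨fun i => hq.1 (some i), fun i j => hq.2 (some i) (some j)⟩, fun _ _ => ?_⟩,
          fun i _ => ?_⟩
        · change Zu (a none) (algebraMap R C 1 * q (none, false) + algebraMap R C 0)
          rw [map_one, map_zero, one_mul, add_zero]
          exact (hq.1 none).1
        · rcases i with _ | i
          · change Zu (b none) (algebraMap R C 1 * q (none, true) + algebraMap R C 0)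
            rw [map_one, map_zero, one_mul, add_zero]
            exact (hq.1 none).2
          · change Zu (c (some i) none) (q (some i, false) * q (none, true) +
              -(q (none, false) * q (some i, true)))
            rw [← sub_eq_add_neg]
            exact hq.2 (some i) none
      GF := fun C _ _ p _ => by
        funext t
        rcases t with _ | _ | ⟨i, e⟩ <;> rfl
      FG := fun C _ _ q _ => by
        funext t
        rcases t with ⟨_ | i, _ | _⟩ <;> rfl }
  · refine HolA.void hP h (fun C _ _ p hC => ⟨fun i => ⟨zu_sub _ hC, zu_sub _ hC⟩,
      fun i j => zu_sub _ hC⟩) (fun C _ _ q hq => ?_)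
    by_cases h3 : c none none = false
    · have h4 : ∃ i, c none (some i) ≠ c (some i) none := by
        by_contra h5
        push Not at h5
        exact hc ⟨h5, h3⟩
      obtain ⟨i, hi⟩ := h4
      have h6 := (hq.2 (some i) none).neg
      have h7 : -(dt q (some i) none) = dt q none (some i) := by
        simp only [dt]
        ring
      rw [h7] at h6
      exact (hq.2 none (some i)).sub h6 hi
    · have h6 := hq.2 none none
      have h7 : dt q none none = 0 := sub_self _
      rw [h7] at h6
      exact h6.sub zu_zero h3

end step

/-- **Configurations of vectors in the plane.** -/
theorem holA_cfg (hP : Clo sep P) (hA : ∀ n : ℕ, P (aff R (MvPolynomial (Fin n) R))) (ι : Type)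
    [Finite ι] : ∀ (a b : ι → Bool) (c : ι → ι → Bool), HolA P (Cfg R ι a b c) := by
  induction ι using Finite.induction_empty_option with
  | of_equiv e ih =>
    rename_i α β
    intro a b c
    refine (ih (fun i => a (e i)) (fun i => b (e i)) fun i j => c (e i) (e j)).trans
      (F := fun _ _ _ p t => p (e.symm t.1, t.2)) (G := fun _ _ _ q t => q (e t.1, t.2)) ?_
    exact
    { natF := fun _ _ _ _ => rfl
      natG := fun _ _ _ _ => rfl
      memF := fun C _ _ p hp => by
        refine ⟨fun i => ?_, fun i j => ?_⟩
        · have h1 := hp.1 (e.symm i)
          simp only [Equiv.apply_symm_apply] at h1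
          exact h1
        · have h1 := hp.2 (e.symm i) (e.symm j)
          simp only [Equiv.apply_symm_apply] at h1
          exact h1
      memG := fun C _ _ q hq => ⟨fun i => hq.1 (e i), fun i j => hq.2 (e i) (e j)⟩
      GF := fun C _ _ p _ => by
        funext t
        change p (e.symm (e t.1), t.2) = p t
        rw [Equiv.symm_apply_apply]
      FG := fun C _ _ q _ => by
        funext t
        change q (e (e.symm t.1), t.2) = q t
        rw [Equiv.apply_symm_apply] }
  | h_empty =>
    intro a b c
    exact (holA_pnt hP hA (PEmpty × Bool)).cg fun C _ _ p =>
      ⟨fun _ => ⟨fun i => i.elim, fun i => i.elim⟩, fun _ s => s.1.elim⟩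
  | h_option ih =>
    rename_i α hα
    intro a b c
    exact holA_step hP (ih _ _ _)

end Pool.Agent.H55.TH
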