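import Pool.Agent.H55.TH.Strat

/-!
# Matrices of rank at most two with prescribed zeros
-/

set_option autoImplicit false

open CategoryTheory AlgebraicGeometry MvPolynomial Pool.Agent.Y116.UV Pool.Agent.Q282.UK
  Pool.Agent.H81.RZ

namespace Pool.Agent.H55.TH

variable {R : Type} [CommRing R] {sep : Prop} {P : Sch R → Prop} {ι κ : Type}

/-- a minor with two rows -/
def mn {C : Type} [CommRing C] (p : ι × κ → C) (i i' : ι) (j j' : κ) : C :=
  p (i, j) * p (i', j') - p (i, j') * p (i', j)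

lemma rankLe_zero {C : Type} [CommRing C] {p : ι × κ → C} :
    RankLe 0 p ↔ ∀ s, p s = 0 := by
  constructor
  · intro h s
    have h1 := h (fun _ => s.1) fun _ => s.2
    rw [Matrix.det_fin_one] at h1
    exact h1
  · intro h ρ γ
    rw [Matrix.det_fin_one]
    exact h _

lemma rankLe_one {C : Type} [CommRing C] {p : ι × κ → C} :
    RankLe 1 p ↔ ∀ i i' j j', mn p i i' j j' = 0 := by
  constructor
  · intro h i i' j j'
    have h1 := h ![i, i'] ![j, j']
    rw [Matrix.det_fin_two] at h1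
    exact h1
  · intro h ρ γ
    rw [Matrix.det_fin_two]
    exact h _ _ _ _

/-- the expansion of a minor with three rows -/
lemma rankLe_two {C : Type} [CommRing C] {p : ι × κ → C} :
    RankLe 2 p ↔ ∀ i₁ i₂ i j₁ j₂ j, p (i, j) * mn p i₁ i₂ j₁ j₂ =
      p (i, j₁) * mn p i₁ i₂ j j₂ + p (i, j₂) * mn p i₁ i₂ j₁ j := by
  constructor
  · intro h i₁ i₂ i j₁ j₂ j
    have h1 := h ![i₁, i₂, i] ![j₁, j₂, j]
    rw [Matrix.det_fin_three] at h1
    simp only [Matrix.of_apply, Matrix.cons_val_zero, Matrix.cons_val_one, Matrix.cons_val] at h1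
    simp only [mn]
    linear_combination h1
  · intro h ρ γ
    rw [Matrix.det_fin_three]
    simp only [Matrix.of_apply]
    have h1 := h (ρ 0) (ρ 1) (ρ 2) (γ 0) (γ 1) (γ 2)
    simp only [mn] at h1
    linear_combination h1

/-- an entry, or a minor with two rows -/
def ef {S : Pts R (ι × κ)} : (ι × κ) ⊕ ((ι × ι) × (κ × κ)) → Fn S
  | .inl e => ent e
  | .inr e => ⟨fun _ _ _ p => mn p e.1.1 e.1.2 e.2.1 e.2.2, fun f p _ => by
    simp only [mn, map_sub, map_mul]⟩

/-- matrices of rank at most `k` with zeros at `Z` -/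
abbrev M0 (R : Type) [CommRing R] (k : ℕ) (Z : Set (ι × κ)) : Pts R (ι × κ) :=
  MS R k Z (∅ : Set (ι × κ)) ∅

lemma m0_iff {k : ℕ} {Z : Set (ι × κ)} {C : Type} [CommRing C] [Algebra R C] {p : ι × κ → C} :
    (M0 R k Z).pts C p ↔ RankLe k p ∧ ∀ e ∈ Z, p e = 0 :=
  ⟨fun h => ⟨h.1, h.2.1⟩, fun h => ⟨h.1, h.2, fun e he => absurd he (Set.notMem_empty e),
    fun e he => absurd he (Set.notMem_empty e)⟩⟩

section

variable [Fintype ι] [Fintype κ] [DecidableEq ι] [DecidableEq κ]
  (hP : Clo sep P) (hA : ∀ n : ℕ, P (aff R (MvPolynomial (Fin n) R)))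

include hP hA

omit [DecidableEq ι] in
/-- rank at most one, with given zero entries and given invertible entries -/
lemma holA_one (Z : Set (ι × κ)) (π : ι × κ → Bool) :
    HolA P (pat (S := M0 R 1 Z) ent Finset.univ π) := by
  classical
  by_cases h0 : ∃ i₀ j₀, π (i₀, j₀) = true
  · obtain ⟨i₀, j₀, h0⟩ := h0
    by_cases hc : (∀ i j, π (i, j) = (π (i, j₀) && π (i₀, j))) ∧ ∀ e ∈ Z, π e = false
    · refine (holA_tor hP hA (κ := ι ⊕ {j : κ // j ≠ j₀})
        (fun k => Sum.elim (fun i => π (i, j₀)) (fun j => π (i₀, j.1)) k)).trans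
        (F := fun _ _ _ q e => q (.inl e.1) * if h : e.2 = j₀ then 1 else q (.inr ⟨e.2, h⟩))
        (G := fun _ _ _ p => Sum.elim (fun i => p (i, j₀))
          fun j => Ring.inverse (p (i₀, j₀)) * p (i₀, j.1)) ?_
      exact
      { natF := fun f q _ e => by
          rw [map_mul]
          congr 1
          split_ifs
          · exact map_one f
          · rfl
        natG := fun {C D} _ _ _ _ f p hp t => by
          rcases t with i | j
          · rfl
          · have h1 : IsUnit (p (i₀, j₀)) := (hp.2 (i₀, j₀) (Finset.mem_univ _)).1 h0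
            have h2 := map_inverse_of_isUnit (f : C →+* D) h1
            change f (Ring.inverse (p (i₀, j₀)) * p (i₀, j.1)) =
              Ring.inverse (f (p (i₀, j₀))) * f (p (i₀, j.1))
            rw [map_mul]
            congr 1
        memF := fun C _ _ q hq => by
          have h1 : ∀ e : ι × κ, Zu (π e) (q (.inl e.1) *
              if h : e.2 = j₀ then 1 else q (.inr ⟨e.2, h⟩)) := by
            rintro ⟨i, j⟩
            rw [hc.1 i j]
            refine (hq (.inl i)).mul ?_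
            by_cases hj : j = j₀
            · simp only [hj, dif_pos]
              rw [h0]
              exact zu_one
            · simp only [hj, dif_neg, not_false_iff]
              exact hq (.inr ⟨j, hj⟩)
          refine ⟨m0_iff.mpr ⟨rankLe_one.mpr fun i i' j j' => ?_, fun e he => ?_⟩, fun e _ => h1 e⟩
          · simp only [mn]
            ring
          · exact (h1 e).2 (hc.2 e he)
        memG := fun C _ _ p hp k => by
          rcases k with i | j
          · exact hp.2 (i, j₀) (Finset.mem_univ _)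
          · have h1 : IsUnit (p (i₀, j₀)) := (hp.2 (i₀, j₀) (Finset.mem_univ _)).1 h0
            have h2 : Zu true (Ring.inverse (p (i₀, j₀))) :=
              ⟨fun _ => h1.ringInverse, fun h => Bool.noConfusion h⟩
            have h3 := h2.mul (hp.2 (i₀, j.1) (Finset.mem_univ _))
            rwa [Bool.true_and] at h3
        GF := fun C _ _ q hq => by
          have h1 : IsUnit (q (.inl i₀)) := (hq (.inl i₀)).1 h0
          funext k
          rcases k with i | j
          · change q (.inl i) * (if h : j₀ = j₀ then 1 else q (.inr ⟨j₀, h⟩)) = q (.inl i)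
            rw [dif_pos rfl, mul_one]
          · change Ring.inverse (q (.inl i₀) * (if h : j₀ = j₀ then 1 else q (.inr ⟨j₀, h⟩))) *
              (q (.inl i₀) * (if h : j.1 = j₀ then 1 else q (.inr ⟨j.1, h⟩))) = q (.inr j)
            rw [dif_pos rfl, mul_one, dif_neg j.2, ← mul_assoc, Ring.inverse_mul_cancel _ h1, one_mul]
        FG := fun C _ _ p hp => by
          have h1 : IsUnit (p (i₀, j₀)) := (hp.2 (i₀, j₀) (Finset.mem_univ _)).1 h0
          have h2 := Ring.inverse_mul_cancel _ h1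
          have h3 := rankLe_one.mp (m0_iff.mp hp.1).1
          funext e
          obtain ⟨i, j⟩ := e
          change p (i, j₀) * (if h : j = j₀ then 1 else
            Ring.inverse (p (i₀, j₀)) * p (i₀, j)) = p (i, j)
          split_ifs with hj
          · rw [hj, mul_one]
          · have h4 := h3 i i₀ j j₀
            simp only [mn] at h4
            linear_combination (p (i, j)) * h2 - Ring.inverse (p (i₀, j₀)) * h4 }
    · refine pat_void _ hP (holA_pnt hP hA PEmpty) (repr_ms0 1 Z) _ π fun C _ _ p hp => ?_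
      have hz : ∀ e, Zu (π e) (p e) := fun e => hp.2 e (Finset.mem_univ _)
      by_cases h1 : ∀ i j, π (i, j) = (π (i, j₀) && π (i₀, j))
      · have h2 : ∃ e ∈ Z, π e ≠ false := by
          by_contra h3
          push Not at h3
          exact hc ⟨h1, h3⟩
        obtain ⟨e, he, h2⟩ := h2
        have h3 := hz e
        rw [(m0_iff.mp hp.1).2 e he] at h3
        exact h3.sub zu_zero h2
      · push Not at h1
        obtain ⟨i, j, h1⟩ := h1
        have h3 := rankLe_one.mp (m0_iff.mp hp.1).1 i i₀ j j₀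
        have h4 := (hz (i, j)).mul (hz (i₀, j₀))
        rw [h0, Bool.and_true] at h4
        have h5 := (hz (i, j₀)).mul (hz (i₀, j))
        have h6 : p (i, j) * p (i₀, j₀) = p (i, j₀) * p (i₀, j) := by
          simp only [mn] at h3
          linear_combination h3
        rw [h6] at h4
        exact h4.sub h5 h1
  · push Not at h0
    have h1 : ∀ e, π e = false := fun e => Bool.eq_false_iff.mpr (h0 e.1 e.2)
    refine (holA_pnt hP hA (ι × κ)).cg fun C _ _ p => ⟨fun h => ⟨m0_iff.mpr ⟨rankLe_one.mpr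
      fun i i' j j' => ?_, fun e _ => h e⟩, fun e _ => ?_⟩, fun h e => ?_⟩
    · have h' : ∀ e, p e = 0 := h
      simp only [mn, h']
      ring
    · change Zu (π e) (p e)
      rw [h e, h1 e]
      exact zu_zero
    · exact (h.2 e (Finset.mem_univ _)).2 (h1 e)

omit [DecidableEq ι] [DecidableEq κ] in
/-- Matrices of rank at most one with prescribed zeros. -/
theorem holA_rk1 (Z : Set (ι × κ)) : HolA P (M0 R 1 Z) := by
  classical
  exact holA_pat _ hP (repr_ms0 1 Z) Finset.univ fun π => holA_one hP hA Z π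

omit hP hA in
omit [Fintype ι] [Fintype κ] [DecidableEq ι] [DecidableEq κ] in
lemma mn_prod {C : Type} [CommRing C] {p : ι × κ → C} (h : RankLe 2 p) {i₁ i₂ : ι} {j₁ j₂ : κ}
    (hu : IsUnit (mn p i₁ i₂ j₁ j₂)) (i i' : ι) (j j' : κ) :
    mn p i i' j j' * mn p i₁ i₂ j₁ j₂ = mn p i i' j₁ j₂ * mn p i₁ i₂ j j' := by
  have h1 := rankLe_two.mp h i₁ i₂ i j₁ j₂ j
  have h2 := rankLe_two.mp h i₁ i₂ i' j₁ j₂ j'
  have h3 := rankLe_two.mp h i₁ i₂ i j₁ j₂ j'
  have h4 := rankLe_two.mp h i₁ i₂ i' j₁ j₂ j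
  have pl : mn p i₁ i₂ j j₂ * mn p i₁ i₂ j₁ j' - mn p i₁ i₂ j' j₂ * mn p i₁ i₂ j₁ j =
      mn p i₁ i₂ j₁ j₂ * mn p i₁ i₂ j j' := by
    simp only [mn]
    ring
  apply hu.mul_right_cancel
  have g1 : mn p i i' j j' = p (i, j) * p (i', j') - p (i, j') * p (i', j) := rfl
  have g2 : mn p i i' j₁ j₂ = p (i, j₁) * p (i', j₂) - p (i, j₂) * p (i', j₁) := rfl
  rw [g1, g2]
  linear_combination (p (i', j') * mn p i₁ i₂ j₁ j₂) * h1 +
    (p (i, j₁) * mn p i₁ i₂ j j₂ + p (i, j₂) * mn p i₁ i₂ j₁ j) * h2 -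
    (p (i', j) * mn p i₁ i₂ j₁ j₂) * h3 -
    (p (i, j₁) * mn p i₁ i₂ j' j₂ + p (i, j₂) * mn p i₁ i₂ j₁ j') * h4 +
    (p (i, j₁) * p (i', j₂) - p (i, j₂) * p (i', j₁)) * pl

section config

variable (j₁ j₂ : κ) {C : Type} [CommRing C]

/-- the vectors of the columns, first coordinate -/
def Wf (q : (ι ⊕ {j : κ // j ≠ j₁ ∧ j ≠ j₂}) × Bool → C) (j : κ) : C :=
  if h1 : j = j₁ then 0 else if h2 : j = j₂ then -1 else q (.inr ⟨j, h1, h2⟩, false)

/-- the vectors of the columns, second coordinate -/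
def Wt (q : (ι ⊕ {j : κ // j ≠ j₁ ∧ j ≠ j₂}) × Bool → C) (j : κ) : C :=
  if h1 : j = j₁ then 1 else if h2 : j = j₂ then 0 else q (.inr ⟨j, h1, h2⟩, true)

/-- the matrix of the determinants -/
def Gm (q : (ι ⊕ {j : κ // j ≠ j₁ ∧ j ≠ j₂}) × Bool → C) (s : ι × κ) : C :=
  q (.inl s.1, false) * Wt j₁ j₂ q s.2 - Wf j₁ j₂ q s.2 * q (.inl s.1, true)

/-- the vectors of a matrix -/
noncomputable def Fm (i₁ i₂ : ι) (p : ι × κ → C) : (ι ⊕ {j : κ // j ≠ j₁ ∧ j ≠ j₂}) × Bool → C
  | (.inl i, false) => p (i, j₁)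
  | (.inl i, true) => p (i, j₂)
  | (.inr j, false) => -(Ring.inverse (mn p i₁ i₂ j₁ j₂) * mn p i₁ i₂ j₁ j.1)
  | (.inr j, true) => Ring.inverse (mn p i₁ i₂ j₁ j₂) * mn p i₁ i₂ j.1 j₂

variable {j₁ j₂}

omit hP hA [Fintype ι] [Fintype κ] [DecidableEq ι] in
lemma map_Gm {D : Type} [CommRing D] (f : C →+* D)
    (q : (ι ⊕ {j : κ // j ≠ j₁ ∧ j ≠ j₂}) × Bool → C) (s : ι × κ) :
    f (Gm j₁ j₂ q s) = Gm j₁ j₂ (fun t => f (q t)) s := by
  have h1 : f (Wt j₁ j₂ q s.2) = Wt j₁ j₂ (fun t => f (q t)) s.2 := by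
    unfold Wt
    split_ifs
    · exact map_one f
    · exact map_zero f
    · rfl
  have h2 : f (Wf j₁ j₂ q s.2) = Wf j₁ j₂ (fun t => f (q t)) s.2 := by
    unfold Wf
    split_ifs
    · exact map_zero f
    · rw [map_neg, map_one]
    · rfl
  rw [Gm, map_sub, map_mul, map_mul, h1, h2, Gm]

omit hP hA [Fintype ι] [Fintype κ] [DecidableEq ι] in
lemma mn_Gm (q : (ι ⊕ {j : κ // j ≠ j₁ ∧ j ≠ j₂}) × Bool → C) (i i' : ι) (j j' : κ) :
    mn (Gm j₁ j₂ q) i i' j j' = dt q (.inl i) (.inl i') *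
      (Wf j₁ j₂ q j * Wt j₁ j₂ q j' - Wf j₁ j₂ q j' * Wt j₁ j₂ q j) := by
  simp only [mn, Gm, dt]
  ring

omit hP hA [Fintype ι] [Fintype κ] [DecidableEq ι] in
lemma rank_Gm (q : (ι ⊕ {j : κ // j ≠ j₁ ∧ j ≠ j₂}) × Bool → C) : RankLe 2 (Gm j₁ j₂ q) := by
  rw [rankLe_two]
  intro i₁ i₂ i k₁ k₂ j
  simp only [mn, Gm]
  ring

end config

/-- rank at most two, all entries and all minors zero or invertible as given, one minor invertible -/
lemma holA_two (Z : Set (ι × κ)) (π : (ι × κ) ⊕ ((ι × ι) × (κ × κ)) → Bool) {i₁ i₂ : ι} {j₁ j₂ : κ}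
    (h0 : π (.inr ((i₁, i₂), (j₁, j₂))) = true) :
    HolA P (pat (S := M0 R 2 Z) ef Finset.univ π) := by
  classical
  obtain ⟨e, he⟩ : ∃ e : ι → κ → Bool, ∀ i j, e i j = π (.inl (i, j)) := ⟨fun i j => _, fun _ _ => rfl⟩
  obtain ⟨m, hm⟩ : ∃ m : ι → ι → κ → κ → Bool, ∀ i i' j j', m i i' j j' =
    π (.inr ((i, i'), (j, j'))) := ⟨fun i i' j j' => _, fun _ _ _ _ => rfl⟩
  -- what is known at the points
  have mem : ∀ (C : Type) [CommRing C] [Algebra R C] (p : ι × κ → C),
      (pat (S := M0 R 2 Z) ef Finset.univ π).pts C p ↔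
      RankLe 2 p ∧ (∀ e ∈ Z, p e = 0) ∧ (∀ i j, Zu (e i j) (p (i, j))) ∧
        ∀ i i' j j', Zu (m i i' j j') (mn p i i' j j') := by
    intro C _ _ p
    constructor
    · intro h
      refine ⟨(m0_iff.mp h.1).1, (m0_iff.mp h.1).2, fun i j => ?_, fun i i' j j' => ?_⟩
      · rw [he]
        exact h.2 (.inl (i, j)) (Finset.mem_univ _)
      · rw [hm]
        exact h.2 (.inr ((i, i'), (j, j'))) (Finset.mem_univ _)
    · rintro ⟨h1, h2, h3, h4⟩
      refine ⟨m0_iff.mpr ⟨h1, h2⟩, fun k _ => ?_⟩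
      rcases k with ⟨i, j⟩ | ⟨⟨i, i'⟩, ⟨j, j'⟩⟩
      · have h5 := h3 i j
        rw [he] at h5
        exact h5
      · have h5 := h4 i i' j j'
        rw [hm] at h5
        exact h5
  have hD : m i₁ i₂ j₁ j₂ = true := by rw [hm]; exact h0
  have unit : ∀ (C : Type) [CommRing C] [Algebra R C] (p : ι × κ → C),
      (pat (S := M0 R 2 Z) ef Finset.univ π).pts C p → IsUnit (mn p i₁ i₂ j₁ j₂) :=
    fun C _ _ p hp => (((mem C p).mp hp).2.2.2 i₁ i₂ j₁ j₂).1 hD
  by_cases hc : (∀ s ∈ Z, e s.1 s.2 = false) ∧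
      (∀ i i' j j', m i i' j j' = (m i i' j₁ j₂ && m i₁ i₂ j j')) ∧
      (∀ j j', m i₁ i₂ j j' = m i₁ i₂ j' j) ∧ ∀ j, m i₁ i₂ j j = false
  · obtain ⟨H1, H2, H3, H4⟩ := hc
    have hne : j₁ ≠ j₂ := by
      rintro rfl
      rw [H4] at hD
      exact Bool.noConfusion hD
    let a : ι ⊕ {j : κ // j ≠ j₁ ∧ j ≠ j₂} → Bool := fun k => k.elim (fun i => e i j₁) fun j => m i₁ i₂ j₁ j
    let b : ι ⊕ {j : κ // j ≠ j₁ ∧ j ≠ j₂} → Bool := fun k => k.elim (fun i => e i j₂) fun j => m i₁ i₂ j j₂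
    let c : ι ⊕ {j : κ // j ≠ j₁ ∧ j ≠ j₂} → ι ⊕ {j : κ // j ≠ j₁ ∧ j ≠ j₂} → Bool := fun k l =>
      k.elim (fun i => l.elim (fun i' => m i i' j₁ j₂) fun j => e i j)
        fun j => l.elim (fun i => e i j) fun j' => m i₁ i₂ j j'
    -- the vectors of the columns
    have W1 : ∀ (C : Type) [CommRing C] [Algebra R C]
        (q : (ι ⊕ {j : κ // j ≠ j₁ ∧ j ≠ j₂}) × Bool → C), (Cfg R _ a b c).pts C q →
        ∀ j, Zu (m i₁ i₂ j j₂) (Wt j₁ j₂ q j) := by
      intro C _ _ q hq j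
      unfold Wt
      split_ifs with h1 h2
      · rw [h1, hD]
        exact zu_one
      · rw [h2, H4]
        exact zu_zero
      · exact (hq.1 (.inr ⟨j, h1, h2⟩)).2
    have W2 : ∀ (C : Type) [CommRing C] [Algebra R C]
        (q : (ι ⊕ {j : κ // j ≠ j₁ ∧ j ≠ j₂}) × Bool → C), (Cfg R _ a b c).pts C q →
        ∀ j, Zu (m i₁ i₂ j₁ j) (Wf j₁ j₂ q j) := by
      intro C _ _ q hq j
      unfold Wf
      split_ifs with h1 h2
      · rw [h1, H4]
        exact zu_zero
      · rw [h2, hD]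
        exact zu_one.neg
      · exact (hq.1 (.inr ⟨j, h1, h2⟩)).1
    have w1t : ∀ (C : Type) [CommRing C] (q : (ι ⊕ {j : κ // j ≠ j₁ ∧ j ≠ j₂}) × Bool → C),
        Wt j₁ j₂ q j₁ = 1 := fun C _ q => dif_pos rfl
    have w1f : ∀ (C : Type) [CommRing C] (q : (ι ⊕ {j : κ // j ≠ j₁ ∧ j ≠ j₂}) × Bool → C),
        Wf j₁ j₂ q j₁ = 0 := fun C _ q => dif_pos rfl
    have w2t : ∀ (C : Type) [CommRing C] (q : (ι ⊕ {j : κ // j ≠ j₁ ∧ j ≠ j₂}) × Bool → C),
        Wt j₁ j₂ q j₂ = 0 := fun C _ q => (dif_neg hne.symm).trans (dif_pos rfl)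
    have w2f : ∀ (C : Type) [CommRing C] (q : (ι ⊕ {j : κ // j ≠ j₁ ∧ j ≠ j₂}) × Bool → C),
        Wf j₁ j₂ q j₂ = -1 := fun C _ q => (dif_neg hne.symm).trans (dif_pos rfl)
    have w3t : ∀ (C : Type) [CommRing C] (q : (ι ⊕ {j : κ // j ≠ j₁ ∧ j ≠ j₂}) × Bool → C)
        (j : {j : κ // j ≠ j₁ ∧ j ≠ j₂}), Wt j₁ j₂ q j.1 = q (.inr j, true) :=
      fun C _ q j => (dif_neg j.2.1).trans (dif_neg j.2.2)
    have w3f : ∀ (C : Type) [CommRing C] (q : (ι ⊕ {j : κ // j ≠ j₁ ∧ j ≠ j₂}) × Bool → C)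
        (j : {j : κ // j ≠ j₁ ∧ j ≠ j₂}), Wf j₁ j₂ q j.1 = q (.inr j, false) :=
      fun C _ q j => (dif_neg j.2.1).trans (dif_neg j.2.2)
    have W3 : ∀ (C : Type) [CommRing C] [Algebra R C]
        (q : (ι ⊕ {j : κ // j ≠ j₁ ∧ j ≠ j₂}) × Bool → C), (Cfg R _ a b c).pts C q →
        ∀ i j, Zu (e i j) (Gm j₁ j₂ q (i, j)) := by
      intro C _ _ q hq i j
      by_cases h1 : j = j₁
      · subst h1
        rw [Gm, w1t, w1f, mul_one, zero_mul, sub_zero]
        exact (hq.1 (.inl i)).1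
      · by_cases h2 : j = j₂
        · subst h2
          rw [Gm, w2t, w2f, mul_zero, zero_sub, neg_one_mul, neg_neg]
          exact (hq.1 (.inl i)).2
        · have h3 := hq.2 (.inl i) (.inr ⟨j, h1, h2⟩)
          have h4 : Gm j₁ j₂ q (i, j) = dt q (.inl i) (.inr ⟨j, h1, h2⟩) := by
            rw [Gm, w3t C q ⟨j, h1, h2⟩, w3f C q ⟨j, h1, h2⟩]
            rfl
          rw [h4]
          exact h3
    have W4 : ∀ (C : Type) [CommRing C] [Algebra R C]
        (q : (ι ⊕ {j : κ // j ≠ j₁ ∧ j ≠ j₂}) × Bool → C), (Cfg R _ a b c).pts C q →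
        ∀ j j', Zu (m i₁ i₂ j j') (Wf j₁ j₂ q j * Wt j₁ j₂ q j' - Wf j₁ j₂ q j' * Wt j₁ j₂ q j) := by
      intro C _ _ q hq j j'
      by_cases h1 : j = j₁
      · subst h1
        rw [w1t, w1f, zero_mul, zero_sub, mul_one]
        exact (W2 C q hq j').neg
      · by_cases h2 : j = j₂
        · subst h2
          rw [w2t, w2f, mul_zero, sub_zero, neg_one_mul, H3]
          exact (W1 C q hq j').neg
        · by_cases h1' : j' = j₁
          · subst h1'
            rw [w1t, w1f, zero_mul, sub_zero, mul_one, H3]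
            exact W2 C q hq j
          · by_cases h2' : j' = j₂
            · subst h2'
              rw [w2t, w2f, mul_zero, zero_sub, neg_one_mul, neg_neg]
              exact W1 C q hq j
            · rw [w3t C q ⟨j, h1, h2⟩, w3f C q ⟨j, h1, h2⟩, w3t C q ⟨j', h1', h2'⟩,
                w3f C q ⟨j', h1', h2'⟩]
              exact hq.2 (.inr ⟨j, h1, h2⟩) (.inr ⟨j', h1', h2'⟩)
    refine (holA_cfg hP hA (ι ⊕ {j : κ // j ≠ j₁ ∧ j ≠ j₂}) a b c).trans
      (F := fun _ _ _ q => Gm j₁ j₂ q) (G := fun _ _ _ p => Fm j₁ j₂ i₁ i₂ p) ?_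
    exact
    { natF := fun {C D} _ _ _ _ f q _ s => map_Gm (f : C →+* D) q s
      natG := fun {C D} _ _ _ _ f p hp t => by
        have h1 := map_inverse_of_isUnit (f : C →+* D) (unit C p hp)
        have h2 : ∀ i i' j j', f (mn p i i' j j') = mn (fun s => f (p s)) i i' j j' := by
          intro i i' j j'
          simp only [mn, map_sub, map_mul]
        have h3 : f (Ring.inverse (mn p i₁ i₂ j₁ j₂)) =
            Ring.inverse (mn (fun s => f (p s)) i₁ i₂ j₁ j₂) := by
          rw [← h2]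
          exact h1
        rcases t with ⟨i | j, _ | _⟩
        · rfl
        · rfl
        · change f (-(Ring.inverse (mn p i₁ i₂ j₁ j₂) * mn p i₁ i₂ j₁ j.1)) =
            -(Ring.inverse (mn (fun s => f (p s)) i₁ i₂ j₁ j₂) * mn (fun s => f (p s)) i₁ i₂ j₁ j.1)
          rw [map_neg, map_mul, h2, h3]
        · change f (Ring.inverse (mn p i₁ i₂ j₁ j₂) * mn p i₁ i₂ j.1 j₂) =
            Ring.inverse (mn (fun s => f (p s)) i₁ i₂ j₁ j₂) * mn (fun s => f (p s)) i₁ i₂ j.1 j₂
          rw [map_mul, h2, h3]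
      memF := fun C _ _ q hq => by
        refine (mem C _).mpr ⟨rank_Gm q, fun s hs => ?_, W3 C q hq, fun i i' j j' => ?_⟩
        · exact (W3 C q hq s.1 s.2).2 (H1 s hs)
        · rw [mn_Gm, H2]
          exact (hq.2 (.inl i) (.inl i')).mul (W4 C q hq j j')
      memG := fun C _ _ p hp => by
        obtain ⟨k1, k2, k3, k4⟩ := (mem C p).mp hp
        have hu := unit C p hp
        have hi : Zu true (Ring.inverse (mn p i₁ i₂ j₁ j₂)) :=
          ⟨fun _ => hu.ringInverse, fun h => Bool.noConfusion h⟩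
        have hii := Ring.inverse_mul_cancel _ hu
        have exp : ∀ (i : ι) (j : {j : κ // j ≠ j₁ ∧ j ≠ j₂}),
            dt (Fm j₁ j₂ i₁ i₂ p) (.inl i) (.inr j) = p (i, j.1) := by
          intro i j
          have h1 := rankLe_two.mp k1 i₁ i₂ i j₁ j₂ j.1
          change p (i, j₁) * (Ring.inverse (mn p i₁ i₂ j₁ j₂) * mn p i₁ i₂ j.1 j₂) -
            -(Ring.inverse (mn p i₁ i₂ j₁ j₂) * mn p i₁ i₂ j₁ j.1) * p (i, j₂) = p (i, j.1)
          linear_combination (p (i, j.1)) * hii - Ring.inverse (mn p i₁ i₂ j₁ j₂) * h1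
        refine ⟨fun k => ?_, fun k l => ?_⟩
        · rcases k with i | j
          · exact ⟨k3 i j₁, k3 i j₂⟩
          · refine ⟨?_, ?_⟩
            · have h1 := (hi.mul (k4 i₁ i₂ j₁ j.1)).neg
              rw [Bool.true_and] at h1
              exact h1
            · have h1 := hi.mul (k4 i₁ i₂ j.1 j₂)
              rw [Bool.true_and] at h1
              exact h1
        · rcases k with i | j
          · rcases l with i' | j
            · have h1 : dt (Fm j₁ j₂ i₁ i₂ p) (.inl i) (.inl i') = mn p i i' j₁ j₂ := by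
                change p (i, j₁) * p (i', j₂) - p (i', j₁) * p (i, j₂) =
                  p (i, j₁) * p (i', j₂) - p (i, j₂) * p (i', j₁)
                ring
              rw [h1]
              exact k4 i i' j₁ j₂
            · rw [exp]
              exact k3 i j.1
          · rcases l with i | j'
            · have h1 : dt (Fm j₁ j₂ i₁ i₂ p) (.inr j) (.inl i) = -dt (Fm j₁ j₂ i₁ i₂ p) (.inl i) (.inr j) := by
                simp only [dt]
                ring
              rw [h1, exp]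
              exact (k3 i j.1).neg
            · have pl : mn p i₁ i₂ j.1 j₂ * mn p i₁ i₂ j₁ j'.1 - mn p i₁ i₂ j'.1 j₂ * mn p i₁ i₂ j₁ j.1 =
                  mn p i₁ i₂ j₁ j₂ * mn p i₁ i₂ j.1 j'.1 := by
                simp only [mn]
                ring
              have h1 : dt (Fm j₁ j₂ i₁ i₂ p) (.inr j) (.inr j') =
                  Ring.inverse (mn p i₁ i₂ j₁ j₂) * mn p i₁ i₂ j.1 j'.1 := by
                change -(Ring.inverse (mn p i₁ i₂ j₁ j₂) * mn p i₁ i₂ j₁ j.1) *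
                  (Ring.inverse (mn p i₁ i₂ j₁ j₂) * mn p i₁ i₂ j'.1 j₂) -
                  -(Ring.inverse (mn p i₁ i₂ j₁ j₂) * mn p i₁ i₂ j₁ j'.1) *
                  (Ring.inverse (mn p i₁ i₂ j₁ j₂) * mn p i₁ i₂ j.1 j₂) = _
                linear_combination (Ring.inverse (mn p i₁ i₂ j₁ j₂)) ^ 2 * pl +
                  Ring.inverse (mn p i₁ i₂ j₁ j₂) * mn p i₁ i₂ j.1 j'.1 * hii
              rw [h1]
              have h2 := hi.mul (k4 i₁ i₂ j.1 j'.1)
              rw [Bool.true_and] at h2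
              exact h2
      GF := fun C _ _ q hq => by
        have hu : IsUnit (dt q (.inl i₁) (.inl i₂)) := (hq.2 (.inl i₁) (.inl i₂)).1 hD
        have h1 : mn (Gm j₁ j₂ q) i₁ i₂ j₁ j₂ = dt q (.inl i₁) (.inl i₂) := by
          rw [mn_Gm, w1t, w1f, w2t, w2f]
          ring
        have hii := Ring.inverse_mul_cancel _ hu
        funext t
        rcases t with ⟨i | j, _ | _⟩
        · change Gm j₁ j₂ q (i, j₁) = q (.inl i, false)
          rw [Gm, w1t, w1f, mul_one, zero_mul, sub_zero]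
        · change Gm j₁ j₂ q (i, j₂) = q (.inl i, true)
          rw [Gm, w2t, w2f, mul_zero, zero_sub, neg_one_mul, neg_neg]
        · change -(Ring.inverse (mn (Gm j₁ j₂ q) i₁ i₂ j₁ j₂) * mn (Gm j₁ j₂ q) i₁ i₂ j₁ j.1) =
            q (.inr j, false)
          rw [h1, mn_Gm, w1t, w1f, w3t, w3f]
          linear_combination (q (.inr j, false)) * hii
        · change Ring.inverse (mn (Gm j₁ j₂ q) i₁ i₂ j₁ j₂) * mn (Gm j₁ j₂ q) i₁ i₂ j.1 j₂ =
            q (.inr j, true)
          rw [h1, mn_Gm, w2t, w2f, w3t, w3f]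
          linear_combination (q (.inr j, true)) * hii
      FG := fun C _ _ p hp => by
        obtain ⟨k1, k2, k3, k4⟩ := (mem C p).mp hp
        have hii := Ring.inverse_mul_cancel _ (unit C p hp)
        funext s
        obtain ⟨i, j⟩ := s
        by_cases h1 : j = j₁
        · subst h1
          rw [Gm, w1t, w1f, mul_one, zero_mul, sub_zero]
          rfl
        · by_cases h2 : j = j₂
          · subst h2
            rw [Gm, w2t, w2f, mul_zero, zero_sub, neg_one_mul, neg_neg]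
            rfl
          · rw [Gm, w3t C _ ⟨j, h1, h2⟩, w3f C _ ⟨j, h1, h2⟩]
            have h3 := rankLe_two.mp k1 i₁ i₂ i j₁ j₂ j
            change p (i, j₁) * (Ring.inverse (mn p i₁ i₂ j₁ j₂) * mn p i₁ i₂ j j₂) -
              -(Ring.inverse (mn p i₁ i₂ j₁ j₂) * mn p i₁ i₂ j₁ j) * p (i, j₂) = p (i, j)
            linear_combination (p (i, j)) * hii - Ring.inverse (mn p i₁ i₂ j₁ j₂) * h3 }
  · refine pat_void _ hP (holA_pnt hP hA PEmpty) (repr_ms0 2 Z) _ π fun C _ _ p hp => ?_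
    obtain ⟨k1, k2, k3, k4⟩ := (mem C p).mp hp
    have hu := unit C p hp
    by_cases H1 : ∀ s ∈ Z, e s.1 s.2 = false
    · by_cases H2 : ∀ i i' j j', m i i' j j' = (m i i' j₁ j₂ && m i₁ i₂ j j')
      · by_cases H3 : ∀ j j', m i₁ i₂ j j' = m i₁ i₂ j' j
        · have H4 : ∃ j, m i₁ i₂ j j ≠ false := by
            by_contra h5
            push Not at h5
            exact hc ⟨H1, H2, H3, h5⟩
          obtain ⟨j, H4⟩ := H4
          have h1 := k4 i₁ i₂ j j
          have h2 : mn p i₁ i₂ j j = 0 := by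
            simp only [mn]
            ring
          rw [h2] at h1
          exact h1.sub zu_zero H4
        · push Not at H3
          obtain ⟨j, j', H3⟩ := H3
          have h1 := (k4 i₁ i₂ j j').neg
          have h2 : -mn p i₁ i₂ j j' = mn p i₁ i₂ j' j := by
            simp only [mn]
            ring
          rw [h2] at h1
          exact h1.sub (k4 i₁ i₂ j' j) H3
      · push Not at H2
        obtain ⟨i, i', j, j', H2⟩ := H2
        have h1 := (k4 i i' j j').mul (k4 i₁ i₂ j₁ j₂)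
        rw [hD, Bool.and_true, mn_prod k1 hu] at h1
        exact h1.sub ((k4 i i' j₁ j₂).mul (k4 i₁ i₂ j j')) H2
    · push Not at H1
      obtain ⟨s, hs, H1⟩ := H1
      have h1 := k3 s.1 s.2
      have h2 : p (s.1, s.2) = 0 := k2 s hs
      rw [h2] at h1
      exact h1.sub zu_zero H1

omit [DecidableEq ι] [DecidableEq κ] in
/-- Matrices of rank at most two with prescribed zeros. -/
theorem holA_rk2 (Z : Set (ι × κ)) : HolA P (M0 R 2 Z) := by
  classical
  refine holA_pat ef hP (repr_ms0 2 Z) Finset.univ fun π => ?_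
  by_cases h0 : ∃ i₁ i₂ j₁ j₂, π (.inr ((i₁, i₂), (j₁, j₂))) = true
  · obtain ⟨i₁, i₂, j₁, j₂, h0⟩ := h0
    exact holA_two hP hA Z π h0
  · push Not at h0
    refine (holA_one hP hA Z fun s => π (.inl s)).cg fun C _ _ p => ⟨fun h => ?_, fun h => ?_⟩
    · have h1 := rankLe_one.mp (m0_iff.mp h.1).1
      refine ⟨m0_iff.mpr ⟨rankLe_two.mpr fun i₁ i₂ i j₁ j₂ j => ?_, (m0_iff.mp h.1).2⟩,
        fun k _ => ?_⟩
      · rw [h1, h1, h1]
        ring
      · rcases k with s | ⟨⟨i, i'⟩, ⟨j, j'⟩⟩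
        · exact h.2 s (Finset.mem_univ _)
        · rw [Bool.eq_false_iff.mpr (h0 i i' j j')]
          change Zu false (mn p i i' j j')
          rw [h1]
          exact zu_zero
    · have h1 : ∀ i i' j j', mn p i i' j j' = 0 := fun i i' j j' =>
        (h.2 (.inr ((i, i'), (j, j'))) (Finset.mem_univ _)).2 (Bool.eq_false_iff.mpr (h0 i i' j j'))
      exact ⟨m0_iff.mpr ⟨rankLe_one.mpr h1, (m0_iff.mp h.1).2⟩,
        fun s _ => h.2 (.inl s) (Finset.mem_univ _)⟩

end

/-- **Matrices of rank at most two with prescribed zeros.** -/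
theorem on_rank (hP : Clo sep P) (hA : ∀ n : ℕ, P (aff R (MvPolynomial (Fin n) R))) {r : ℕ}
    (hr : r ≤ 2) : OnRank r P := by
  intro m n Z
  have h1 : HolA P (M0 R r (Z : Set (Fin m × Fin n))) := by
    interval_cases r
    · exact (holA_pnt hP hA (Fin m × Fin n)).cg fun C _ _ p => ⟨fun h => m0_iff.mpr
        ⟨rankLe_zero.mpr h, fun e _ => h e⟩, fun h => rankLe_zero.mp (m0_iff.mp h).1⟩
    · exact holA_rk1 hP hA _
    · exact holA_rk2 hP hA _
  have h2 : Hol P (zer (rkEqs R r (Z : Set (Fin m × Fin n)))) :=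
    Hol.congr (fun C _ _ p => (zer_rk r (Z : Set (Fin m × Fin n)) C p).symm) h1.hol
  exact h2.of_rep hP (rep_zer _)

end Pool.Agent.H55.TH
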