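import Pool.Agent.H55.TH.Dsy

/-!
# Rows with prescribed supports and prescribed sums
-/

set_option autoImplicit false
set_option linter.unusedSectionVars false

open CategoryTheory AlgebraicGeometry MvPolynomial Pool.Agent.Y116.UV Pool.Agent.Q282.UK
  Pool.Agent.H81.RZ

namespace Pool.Agent.H55.TH

variable {R : Type} [CommRing R] {sep : Prop} {P : Sch R → Prop}

section kinds

variable {κ : Type}

/-- the coordinates in `J` zero or invertible, as prescribed -/
def Kd (R : Type) [CommRing R] (J : Finset κ) (π : κ → Bool) : Pts R κ where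
  pts _ _ _ p := ∀ k ∈ J, Zu (π k) (p k)
  map {C D} _ _ _ _ g _ h k hk := (h k hk).map (g : C →+* D)

/-- a coordinate -/
def cr {S : Pts R κ} (k : κ) : Fn S := ⟨fun _ _ _ p => p k, fun _ _ _ => rfl⟩

variable [Fintype κ]

lemma repr_kd (J : Finset κ) (π : κ → Bool) : Repr (Kd R J π) := by
  have h0 : Repr (Free R κ) := ⟨_, inferInstance, inferInstance, inferInstance, _, rep_free κ,
    trivial⟩
  exact Hol.congr (S := pat (S := Free R κ) cr J π) (fun C _ _ p => ⟨fun h => h.2,
    fun h => ⟨trivial, h⟩⟩) (repr_pat (S := Free R κ) cr h0 J π)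

lemma holA_kd (hP : Clo sep P) (hA : ∀ n : ℕ, P (aff R (MvPolynomial (Fin n) R))) (J : Finset κ)
    (π : κ → Bool) : HolA P (Kd R J π) := by
  refine holA_pat (S := Kd R J π) cr hP (repr_kd J π) Finset.univ fun π' => ?_
  by_cases h : ∀ k ∈ J, π k = π' k
  · refine (holA_tor hP hA π').cg fun C _ _ p => ⟨fun h1 => ⟨fun k hk => ?_, fun k _ => h1 k⟩,
      fun h1 k => h1.2 k (Finset.mem_univ k)⟩
    rw [h k hk]
    exact h1 k
  · push Not at h
    obtain ⟨k, hk, hne⟩ := h
    exact pat_void cr hP (holA_pnt hP hA Unit) (repr_kd J π) _ _ fun C _ _ p hp =>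
      (hp.1 k hk).sub (hp.2 k (Finset.mem_univ k)) hne

end kinds

section rows

variable {Q L : Type} [Fintype Q] [Fintype L] [DecidableEq Q] [DecidableEq L]

/-- rows with the supports `N` -/
def Rw (R : Type) [CommRing R] (N : Q → Finset (Option L)) : Pts R (Q × Option L) where
  pts _ _ _ p := ∀ q j, j ∉ N q → p (q, j) = 0
  map f _ h q j hj := (congrArg f (h q j hj)).trans (map_zero f)

/-- rows with the supports `N`, whose sums are zero or invertible, as prescribed -/
def Rs (R : Type) [CommRing R] (N : Q → Finset (Option L)) (δ : Q → Bool) :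
    Pts R (Q × Option L) where
  pts _ _ _ p := (∀ q j, j ∉ N q → p (q, j) = 0) ∧ ∀ q, Zu (δ q) (∑ j, p (q, j))
  map {C D} _ _ _ _ f p h := ⟨fun q j hj => (congrArg f (h.1 q j hj)).trans (map_zero f), fun q => by
    have h1 := (h.2 q).map (f : C →+* D)
    rw [map_sum] at h1
    exact h1⟩

lemma repr_rw (N : Q → Finset (Option L)) : Repr (Rw R N) := by
  refine Hol.congr (fun C _ _ p => ⟨fun h q j hj => ?_, fun h k hk => ?_⟩)
    (repr_kd (R := R) (Finset.univ.filter fun t : Q × Option L => t.2 ∉ N t.1) fun _ => false)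
  · exact (h (q, j) (Finset.mem_filter.mpr ⟨Finset.mem_univ _, hj⟩)).2 rfl
  · refine ⟨fun h1 => Bool.noConfusion h1, fun _ => ?_⟩
    exact h k.1 k.2 (Finset.mem_filter.mp hk).2

/-- the sum of a row -/
def sumFn {S : Pts R (Q × Option L)} (q : Q) : Fn S where
  val _ _ _ p := ∑ j, p (q, j)
  nat f p _ := map_sum f _ _

lemma rs_iff (N : Q → Finset (Option L)) (δ : Q → Bool) (C : Type) [CommRing C] [Algebra R C]
    (p : Q × Option L → C) :
    (pat (S := Rw R N) sumFn Finset.univ δ).pts C p ↔ (Rs R N δ).pts C p :=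
  ⟨fun h => ⟨h.1, fun q => h.2 q (Finset.mem_univ q)⟩, fun h => ⟨h.1, fun q _ => h.2 q⟩⟩

lemma repr_rs (N : Q → Finset (Option L)) (δ : Q → Bool) : Repr (Rs R N δ) :=
  Hol.congr (fun C _ _ p => rs_iff N δ C p) (repr_pat _ (repr_rw N) _ _)

variable (hP : Clo sep P) (hA : ∀ n : ℕ, P (aff R (MvPolynomial (Fin n) R)))

include hP hA

/-- the rows are a product of affine spaces and tori -/
lemma holA_rs (N : Q → Finset (Option L)) (δ : Q → Bool) : HolA P (Rs R N δ) := by
  by_cases h0 : ∃ q, N q = ∅ ∧ δ q = true
  · obtain ⟨q, hq, hδ⟩ := h0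
    refine HolA.void hP (holA_pnt hP hA Unit) (fun C _ _ p hC => repr_sub (repr_rs N δ) C p hC)
      fun C _ _ p hp => ?_
    have h1 : ∑ j, p (q, j) = 0 := Finset.sum_eq_zero fun j _ => hp.1 q j (by simp [hq])
    have h2 := (hp.2 q).1 hδ
    rw [h1] at h2
    exact subsingleton_of_zero_eq_one (isUnit_zero_iff.mp h2)
  · push Not at h0
    have he : ∀ q, ∃ e : Option L, (N q).Nonempty → e ∈ N q := by
      intro q
      by_cases h : (N q).Nonempty
      · obtain ⟨e, he⟩ := h
        exact ⟨e, fun _ => he⟩
      · exact ⟨none, fun h' => absurd h' h⟩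
    choose e he using he
    have he' : ∀ q, e q ∉ N q → N q = ∅ := by
      intro q hq
      by_contra h
      exact hq (he q (Finset.nonempty_iff_ne_empty.mpr h))
    refine (holA_kd hP hA
      (Finset.univ.filter fun t : Q × Option L => t.2 ∉ N t.1 ∨ t.2 = e t.1)
      fun t => if t.2 ∈ N t.1 then δ t.1 else false).trans
      (F := fun _ _ _ w t => if t.2 = e t.1 then w (t.1, e t.1) -
        ∑ j ∈ Finset.univ.erase (e t.1), w (t.1, j) else w t)
      (G := fun _ _ _ p t => if t.2 = e t.1 then ∑ j, p (t.1, j) else p t) ?_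
    have hw : ∀ (C : Type) [CommRing C] [Algebra R C] (w : Q × Option L → C),
        (Kd R (Finset.univ.filter fun t : Q × Option L => t.2 ∉ N t.1 ∨ t.2 = e t.1)
          fun t => if t.2 ∈ N t.1 then δ t.1 else false).pts C w → ∀ q j, j ∉ N q →
          w (q, j) = 0 := by
      intro C _ _ w hw q j hj
      have h1 := hw (q, j) (Finset.mem_filter.mpr ⟨Finset.mem_univ _, Or.inl hj⟩)
      change Zu (if j ∈ N q then δ q else false) (w (q, j)) at h1
      rw [if_neg hj] at h1
      exact h1.2 rfl
    have hF : ∀ (C : Type) [CommRing C] (w : Q × Option L → C) (q : Q),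
        ∑ j, (if j = e q then w (q, e q) - ∑ j ∈ Finset.univ.erase (e q), w (q, j) else w (q, j)) =
          w (q, e q) := by
      intro C _ w q
      rw [← Finset.add_sum_erase _ _ (Finset.mem_univ (e q)), if_pos rfl,
        Finset.sum_congr rfl fun j hj => if_neg (Finset.ne_of_mem_erase hj)]
      ring
    exact
    { natF := fun f w _ t => by
        rw [apply_ite f, map_sub, map_sum]
      natG := fun f w _ t => by
        rw [apply_ite f, map_sum]
      memF := fun C _ _ w h => by
        refine ⟨fun q j hj => ?_, fun q => ?_⟩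
        · change (if j = e q then w (q, e q) - ∑ j ∈ Finset.univ.erase (e q), w (q, j)
            else w (q, j)) = 0
          split_ifs with h1
          · rw [h1] at hj
            have h2 := he' q hj
            have h3 : ∀ j, w (q, j) = 0 := fun j => hw C w h q j (by simp [h2])
            rw [h3, Finset.sum_eq_zero fun j _ => h3 j, sub_zero]
          · exact hw C w h q j hj
        · change Zu (δ q) (∑ j, (if j = e q then w (q, e q) -
            ∑ j ∈ Finset.univ.erase (e q), w (q, j) else w (q, j)))
          rw [hF C w q]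
          have h1 := h (q, e q) (Finset.mem_filter.mpr ⟨Finset.mem_univ _, Or.inr rfl⟩)
          change Zu (if e q ∈ N q then δ q else false) (w (q, e q)) at h1
          by_cases h2 : e q ∈ N q
          · rwa [if_pos h2] at h1
          · rw [if_neg h2] at h1
            have h3 := h0 q (he' q h2)
            rw [Bool.eq_false_iff.mpr h3]
            exact h1
      memG := fun C _ _ p hp t ht => by
        obtain ⟨q, j⟩ := t
        change Zu (if j ∈ N q then δ q else false) (if j = e q then ∑ j, p (q, j) else p (q, j))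
        rcases (Finset.mem_filter.mp ht).2 with h1 | h1
        · replace h1 : j ∉ N q := h1
          rw [if_neg h1]
          refine ⟨fun h => Bool.noConfusion h, fun _ => ?_⟩
          split_ifs with h2
          · rw [h2] at h1
            have h3 := he' q h1
            exact Finset.sum_eq_zero fun j _ => hp.1 q j (by simp [h3])
          · exact hp.1 q j h1
        · replace h1 : j = e q := h1
          rw [if_pos h1]
          by_cases h2 : j ∈ N q
          · rw [if_pos h2]
            exact hp.2 q
          · rw [if_neg h2]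
            rw [h1] at h2
            have h3 := he' q h2
            refine ⟨fun h => Bool.noConfusion h, fun _ => ?_⟩
            exact Finset.sum_eq_zero fun j _ => hp.1 q j (by simp [h3])
      GF := fun C _ _ w h => by
        funext t
        obtain ⟨q, j⟩ := t
        change (if j = e q then ∑ j, (if j = e q then w (q, e q) -
          ∑ j ∈ Finset.univ.erase (e q), w (q, j) else w (q, j)) else
          (if j = e q then w (q, e q) - ∑ j ∈ Finset.univ.erase (e q), w (q, j) else w (q, j))) =
          w (q, j)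
        rw [hF C w q]
        split_ifs with h1
        · rw [h1]
        · rfl
      FG := fun C _ _ p h => by
        funext t
        obtain ⟨q, j⟩ := t
        change (if j = e q then (if e q = e q then ∑ j, p (q, j) else p (q, e q)) -
          ∑ j ∈ Finset.univ.erase (e q), (if j = e q then ∑ j, p (q, j) else p (q, j)) else
          (if j = e q then ∑ j, p (q, j) else p (q, j))) = p (q, j)
        by_cases h1 : j = e q
        · rw [if_pos h1, if_pos rfl, Finset.sum_congr rfl fun j hj =>
            if_neg (Finset.ne_of_mem_erase hj), ← Finset.add_sum_erase _ _ (Finset.mem_univ (e q)),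
            h1]
          ring
        · rw [if_neg h1, if_neg h1] }

/-- remove an entry from a support -/
def rmv (N : Q → Finset (Option L)) (q : Q) (j : Option L) : Q → Finset (Option L) :=
  Function.update N q ((N q).erase j)

omit hP hA in
lemma rmv_iff {N : Q → Finset (Option L)} {q : Q} {j : Option L} {C : Type} [CommRing C]
    {p : Q × Option L → C} :
    (∀ q' j', j' ∉ rmv N q j q' → p (q', j') = 0) ↔
      (∀ q' j', j' ∉ N q' → p (q', j') = 0) ∧ p (q, j) = 0 := by
  constructor
  · intro h
    refine ⟨fun q' j' hj' => h q' j' fun h1 => hj' ?_, h q j ?_⟩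
    · by_cases hq : q' = q
      · subst hq
        rw [rmv, Function.update_self] at h1
        exact Finset.mem_of_mem_erase h1
      · rwa [rmv, Function.update_of_ne hq] at h1
    · rw [rmv, Function.update_self]
      exact Finset.notMem_erase j _
  · rintro ⟨h1, h2⟩ q' j' hj'
    by_cases hq : q' = q
    · subst hq
      rw [rmv, Function.update_self] at hj'
      by_cases hj : j' = j
      · rw [hj]
        exact h2
      · exact h1 q' j' fun h3 => hj' (Finset.mem_erase.mpr ⟨hj, h3⟩)
    · rw [rmv, Function.update_of_ne hq] at hj'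
      exact h1 q' j' hj'

omit hP hA in
lemma rs_clo (N : Q → Finset (Option L)) (δ : Q → Bool) (q : Q) (j : Option L) (C : Type)
    [CommRing C] [Algebra R C] (p : Q × Option L → C) :
    (Rs R (rmv N q j) δ).pts C p ↔ ((Rs R N δ).clo (cr (q, j))).pts C p := by
  constructor
  · rintro ⟨h1, h2⟩
    have h3 := rmv_iff.mp h1
    exact ⟨⟨h3.1, h2⟩, h3.2⟩
  · rintro ⟨⟨h1, h2⟩, h3⟩
    exact ⟨rmv_iff.mpr ⟨h1, h3⟩, h2⟩

lemma holA_rs1 (N : Q → Finset (Option L)) (δ : Q → Bool) (t : Q × Option L) :
    HolA P ((Rs R N δ).opn (cr t)) :=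
  (holA_rs hP hA N δ).opn hP (cr t) ((holA_rs hP hA (rmv N t.1 t.2) δ).cg
    fun C _ _ p => rs_clo N δ t.1 t.2 C p)

omit hP hA in
lemma rs1_clo (N : Q → Finset (Option L)) (δ : Q → Bool) (t : Q × Option L) (q : Q)
    (j : Option L) (C : Type) [CommRing C] [Algebra R C] (p : Q × Option L → C) :
    ((Rs R (rmv N q j) δ).opn (cr t)).pts C p ↔
      (((Rs R N δ).opn (cr t)).clo (cr (q, j))).pts C p := by
  constructor
  · rintro ⟨h1, h2⟩
    have h3 := (rs_clo N δ q j C p).mp h1
    exact ⟨⟨h3.1, h2⟩, h3.2⟩
  · rintro ⟨⟨h1, h2⟩, h3⟩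
    exact ⟨(rs_clo N δ q j C p).mpr ⟨h1, h3⟩, h2⟩

lemma holA_rs2 (N : Q → Finset (Option L)) (δ : Q → Bool) (t t' : Q × Option L) :
    HolA P (((Rs R N δ).opn (cr t)).opn (cr t')) :=
  (holA_rs1 hP hA N δ t).opn hP (cr t') ((holA_rs1 hP hA (rmv N t'.1 t'.2) δ t).cg
    fun C _ _ p => rs1_clo N δ t t'.1 t'.2 C p)

end rows

end Pool.Agent.H55.TH
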