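import Pool.Agent.H55.TH.Plane

/-!
# Cutting along finitely many functions
-/

set_option autoImplicit false

open CategoryTheory AlgebraicGeometry MvPolynomial Pool.Agent.Y116.UV Pool.Agent.Q282.UK
  Pool.Agent.H81.RZ

namespace Pool.Agent.H55.TH

variable {R : Type} [CommRing R] {σ : Type} {sep : Prop} {P : Sch R → Prop}

section

variable {S : Pts R σ} {K : Type} (E : K → Fn S)

/-- the points where the functions with index in `J` are zero or invertible, as prescribed -/
def pat (J : Finset K) (π : K → Bool) : Pts R σ where
  pts C _ _ p := S.pts C p ∧ ∀ k ∈ J, Zu (π k) ((E k).val C p)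
  map {C D} _ _ _ _ f p h := ⟨S.map f h.1, fun k hk => by
    have h1 := (h.2 k hk).map (f : C →+* D)
    have h2 : (f : C →+* D) ((E k).val C p) = (E k).val D fun s => f (p s) := (E k).nat f p h.1
    rwa [h2] at h1⟩

/-- a function on a part -/
def patFn (J : Finset K) (π : K → Bool) (e : Fn S) : Fn (pat E J π) where
  val := e.val
  nat f p h := e.nat f p h.1

lemma pat_clo [DecidableEq K] {J : Finset K} {k : K} (hk : k ∉ J) (π π' : K → Bool)
    (h1 : ∀ j ∈ J, π' j = π j) (h2 : π' k = false) (C : Type) [CommRing C] [Algebra R C]
    (p : σ → C) : ((pat E J π).clo (patFn E J π (E k))).pts C p ↔ (pat E (insert k J) π').pts C p := by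
  constructor
  · intro h
    refine ⟨h.1.1, fun j hj => ?_⟩
    rcases Finset.mem_insert.mp hj with rfl | hj
    · rw [h2]
      exact ⟨fun h3 => Bool.noConfusion h3, fun _ => h.2⟩
    · rw [h1 j hj]
      exact h.1.2 j hj
  · intro h
    refine ⟨⟨h.1, fun j hj => ?_⟩, ?_⟩
    · rw [← h1 j hj]
      exact h.2 j (Finset.mem_insert_of_mem hj)
    · exact (h.2 k (Finset.mem_insert_self k J)).2 h2

lemma pat_opn [DecidableEq K] {J : Finset K} {k : K} (hk : k ∉ J) (π π' : K → Bool)
    (h1 : ∀ j ∈ J, π' j = π j) (h2 : π' k = true) (C : Type) [CommRing C] [Algebra R C]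
    (p : σ → C) : ((pat E J π).opn (patFn E J π (E k))).pts C p ↔ (pat E (insert k J) π').pts C p := by
  constructor
  · intro h
    refine ⟨h.1.1, fun j hj => ?_⟩
    rcases Finset.mem_insert.mp hj with rfl | hj
    · rw [h2]
      exact ⟨fun _ => h.2, fun h3 => Bool.noConfusion h3⟩
    · rw [h1 j hj]
      exact h.1.2 j hj
  · intro h
    refine ⟨⟨h.1, fun j hj => ?_⟩, ?_⟩
    · rw [← h1 j hj]
      exact h.2 j (Finset.mem_insert_of_mem hj)
    · exact (h.2 k (Finset.mem_insert_self k J)).1 h2

lemma repr_pat (hS : Repr S) (J : Finset K) (π : K → Bool) : Repr (pat E J π) := by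
  classical
  induction J using Finset.induction_on with
  | empty =>
    exact Hol.congr (fun C _ _ p => ⟨fun h => ⟨h, fun k hk => absurd hk (Finset.notMem_empty k)⟩,
      And.left⟩) hS
  | insert k J hk ih =>
    cases h : π k with
    | false => exact Hol.congr (pat_clo E hk π π (fun _ _ => rfl) h) (ih.clo _)
    | true => exact Hol.congr (pat_opn E hk π π (fun _ _ => rfl) h) (ih.opn _)

/-- the property may be checked on the parts -/
lemma holA_pat (hP : Clo sep P) (hS : Repr S) (J : Finset K) (h : ∀ π, HolA P (pat E J π)) :
    HolA P S := by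
  classical
  induction J using Finset.induction_on with
  | empty =>
    exact (h fun _ => false).cg fun C _ _ p => ⟨And.left,
      fun h => ⟨h, fun k hk => absurd hk (Finset.notMem_empty k)⟩⟩
  | insert k J hk ih =>
    apply ih
    intro π
    have h1 : ∀ (b : Bool) (j : K), j ∈ J → Function.update π k b j = π j := by
      intro b j hj
      apply Function.update_of_ne
      rintro rfl
      exact hk hj
    refine HolA.total hP (repr_pat E hS J π) (patFn E J π (E k)) ?_ ?_
    · exact (h (Function.update π k false)).cg fun C _ _ p =>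
        (pat_clo E hk π _ (h1 false) (Function.update_self k false π) C p).symm
    · exact (h (Function.update π k true)).cg fun C _ _ p =>
        (pat_opn E hk π _ (h1 true) (Function.update_self k true π) C p).symm

/-- the same without the affine spaces -/
lemma hol_pat (hP : Clo sep P) (hS : Repr S) (J : Finset K) (h : ∀ π, Hol P (pat E J π)) :
    Hol P S := by
  classical
  induction J using Finset.induction_on with
  | empty =>
    exact Hol.congr (S := pat E ∅ fun _ => false) (fun C _ _ p => ⟨And.left,
      fun h => ⟨h, fun k hk => absurd hk (Finset.notMem_empty k)⟩⟩) (h fun _ => false)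
  | insert k J hk ih =>
    apply ih
    intro π
    have h1 : ∀ (b : Bool) (j : K), j ∈ J → Function.update π k b j = π j := by
      intro b j hj
      apply Function.update_of_ne
      rintro rfl
      exact hk hj
    refine hol_total hP (repr_pat E hS J π) (patFn E J π (E k)) ?_ ?_
    · exact Hol.congr (fun C _ _ p =>
        (pat_clo E hk π _ (h1 false) (Function.update_self k false π) C p).symm)
        (h (Function.update π k false))
    · exact Hol.congr (fun C _ _ p =>
        (pat_opn E hk π _ (h1 true) (Function.update_self k true π) C p).symm)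
        (h (Function.update π k true))

/-- a part without points -/
lemma pat_void (hP : Clo sep P) {σ' : Type} {S' : Pts R σ'} (hS' : HolA P S') (hS : Repr S)
    (J : Finset K) (π : K → Bool)
    (h : ∀ (C : Type) [CommRing C] [Algebra R C] (p : σ → C), (pat E J π).pts C p →
      Subsingleton C) : HolA P (pat E J π) :=
  HolA.void hP hS' (fun C _ _ p hC => ⟨repr_sub hS C p hC, fun _ _ => zu_sub _ hC⟩) h

end

/-- all coordinates zero or invertible, as prescribed -/
def Tor (R : Type) [CommRing R] {κ : Type} (f : κ → Bool) : Pts R κ where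
  pts _ _ _ p := ∀ k, Zu (f k) (p k)
  map {C D} _ _ _ _ g _ h k := (h k).map (g : C →+* D)

lemma holA_tor (hP : Clo sep P) (hA : ∀ n : ℕ, P (aff R (MvPolynomial (Fin n) R))) {κ : Type}
    [Finite κ] (f : κ → Bool) : HolA P (Tor R f) := by
  refine (holA_cfg hP hA κ f (fun _ => false) fun _ _ => false).trans
    (F := fun _ _ _ p k => p (k, false)) (G := fun _ _ _ q t => if t.2 then 0 else q t.1) ?_
  exact
  { natF := fun _ _ _ _ => rfl
    natG := fun f q _ t => by
      rcases t with ⟨k, _ | _⟩
      · rfl
      · exact map_zero f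
    memF := fun C _ _ p hp k => (hp.1 k).1
    memG := fun C _ _ q hq => by
      refine ⟨fun k => ⟨hq k, zu_zero⟩, fun i j => ?_⟩
      have h1 : dt (fun t : κ × Bool => if t.2 then (0 : C) else q t.1) i j = 0 := by
        change q i * 0 - q j * 0 = 0
        ring
      rw [h1]
      exact zu_zero
    GF := fun C _ _ p hp => by
      funext t
      rcases t with ⟨k, _ | _⟩
      · rfl
      · exact ((hp.1 k).2.2 rfl).symm
    FG := fun _ _ _ _ _ => rfl }

/-- no conditions -/
def Free (R : Type) [CommRing R] (κ : Type) : Pts R κ where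
  pts _ _ _ _ := True
  map _ _ _ := trivial

lemma rep_free (κ : Type) : Rep (Free R κ) (MvPolynomial κ R) X where
  mem := trivial
  ex C _ _ p _ := ⟨aeval p, fun s => aeval_X p s⟩
  uniq C _ _ f g h := MvPolynomial.algHom_ext h

/-- affine spaces, from tori -/
lemma space_of_tor (hP : Clo sep P) (h : ∀ (n : ℕ), Hol P (Tor R (κ := Fin n) fun _ => true))
    (n : ℕ) : P (aff R (MvPolynomial (Fin n) R)) := by
  classical
  have hS : Repr (Free R (Fin n)) := ⟨_, inferInstance, inferInstance, inferInstance, _,
    rep_free (Fin n), trivial⟩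
  let E : Fin n → Fn (Free R (Fin n)) := fun k => ⟨fun _ _ _ p => p k, fun _ _ _ => rfl⟩
  refine (hol_pat E hP hS Finset.univ fun π => ?_).of_rep hP (rep_free (Fin n))
  -- the coordinates which are invertible
  have e : {k : Fin n // π k = true} ≃ Fin (Fintype.card {k : Fin n // π k = true}) :=
    Fintype.equivFin _
  refine (h (Fintype.card {k : Fin n // π k = true})).trans
    (F := fun _ _ _ p k => if hk : π k = true then p (e ⟨k, hk⟩) else 0)
    (G := fun _ _ _ q l => q (e.symm l).1) ?_
  exact
  { natF := fun f p _ k => by
      split_ifs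
      · rfl
      · exact map_zero f
    natG := fun _ _ _ _ => rfl
    memF := fun C _ _ p hp => by
      refine ⟨trivial, fun k _ => ?_⟩
      change Zu (π k) (if hk : π k = true then p (e ⟨k, hk⟩) else 0)
      by_cases hk : π k = true
      · rw [dif_pos hk, hk]
        exact hp _
      · rw [dif_neg hk, Bool.eq_false_iff.mpr hk]
        exact zu_zero
    memG := fun C _ _ q hq l => by
      have h1 := hq.2 (e.symm l).1 (Finset.mem_univ _)
      rw [(e.symm l).2] at h1
      exact h1
    GF := fun C _ _ p _ => by
      funext l
      change (if hk : π (e.symm l).1 = true then p (e ⟨(e.symm l).1, hk⟩) else 0) = p l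
      rw [dif_pos (e.symm l).2]
      congr 1
      exact e.apply_symm_apply l
    FG := fun C _ _ q hq => by
      funext k
      change (if hk : π k = true then q (e.symm (e ⟨k, hk⟩)).1 else 0) = q k
      split_ifs with hk
      · rw [Equiv.symm_apply_apply]
      · exact ((hq.2 k (Finset.mem_univ _)).2 (Bool.eq_false_iff.mpr hk)).symm }

end Pool.Agent.H55.TH
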