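import Pool.Agent.H81.RZ.CDefs

/-!
# Thin Schubert cells of the Grassmannians `Gr(r, r + n)`
-/

set_option autoImplicit false

open CategoryTheory AlgebraicGeometry MvPolynomial Pool.Agent.Y116.UV

namespace Pool.Agent.H55.TH

/-- The columns of the matrix `(1 | A)` with `r` rows, where `A` is the generic matrix with `r` rows
and the columns `κ`. -/
noncomputable def gcolr (R : Type) [CommRing R] (r : ℕ) {κ : Type} :
    Fin r ⊕ κ → Fin r → MvPolynomial (Fin r × κ) R
  | .inl j, i => if i = j then 1 else 0
  | .inr j, i => X (i, j)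

/-- The minor of the matrix `(1 | A)` with the columns `ρ 0`, …, `ρ (r - 1)`. -/
noncomputable def pluckerr (R : Type) [CommRing R] (r : ℕ) {κ : Type} (ρ : Fin r → Fin r ⊕ κ) :
    MvPolynomial (Fin r × κ) R :=
  (Matrix.of fun i a => gcolr R r (ρ a) i).det

/-- The minors of `(1 | A)` with `r` different columns whose set is not in `B`. -/
def minorsr (R : Type) [CommRing R] (r : ℕ) {n : ℕ} (B : Finset (Finset (Fin r ⊕ Fin n))) :
    Set (MvPolynomial (Fin r × Fin n) R) :=
  {g | ∃ ρ : Fin r → Fin r ⊕ Fin n, Function.Injective ρ ∧ Finset.univ.image ρ ∉ B ∧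
    g = pluckerr R r ρ}

open Classical in
/-- The product of the minors of `(1 | A)` with `r` different columns whose set is in `B`. -/
noncomputable def prodr (R : Type) [CommRing R] (r : ℕ) {n : ℕ}
    (B : Finset (Finset (Fin r ⊕ Fin n))) :
    MvPolynomial (Fin r × Fin n) R ⧸ Ideal.span (minorsr R r B) :=
  ∏ ρ ∈ Finset.univ.filter fun ρ : Fin r → Fin r ⊕ Fin n =>
    Function.Injective ρ ∧ Finset.univ.image ρ ∈ B,
      Ideal.Quotient.mk (Ideal.span (minorsr R r B)) (pluckerr R r ρ)

/-- The ring of functions on the thin Schubert cell of `B` in `Gr(r, r + n)`: the matrices `(1 | A)`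
with `r` rows and `r + n` columns, whose minors with `r` different columns are invertible, if the set
of the columns is in `B`, and zero, if it is not. -/
abbrev Thinr (R : Type) [CommRing R] (r : ℕ) {n : ℕ} (B : Finset (Finset (Fin r ⊕ Fin n))) : Type :=
  Localization.Away (prodr R r B)

/-- `P` is true for all thin Schubert cells of the Grassmannians `Gr(r, r + n)`. -/
def OnThinr {R : Type} [CommRing R] (r : ℕ) (P : Sch R → Prop) : Prop :=
  ∀ (n : ℕ) (B : Finset (Finset (Fin r ⊕ Fin n))), P (aff R (Thinr R r B))

end Pool.Agent.H55.TH
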