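import Pool.Agent.H55.TH.Strat
import Pool.Agent.H55.TH.TDefs

/-!
# Thin Schubert cells of the Grassmannians `Gr(2, 2 + n)`
-/

set_option autoImplicit false

open CategoryTheory AlgebraicGeometry MvPolynomial Pool.Agent.Y116.UV Pool.Agent.Q282.UK
  Pool.Agent.H81.RZ

namespace Pool.Agent.H55.TH

variable {R : Type} [CommRing R] {sep : Prop} {P : Sch R → Prop} {r n : ℕ}

/-- the columns of `(1 | p)` -/
def colr {C : Type} [CommRing C] (p : Fin r × Fin n → C) : Fin r ⊕ Fin n → Fin r → C
  | .inl j, i => if i = j then 1 else 0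
  | .inr j, i => p (i, j)

/-- the minor with the columns `ρ` -/
def mnrr {C : Type} [CommRing C] (p : Fin r × Fin n → C) (ρ : Fin r → Fin r ⊕ Fin n) : C :=
  (Matrix.of fun i a => colr p (ρ a) i).det

lemma mnrr_map {C D : Type} [CommRing C] [CommRing D] (f : C →+* D) (p : Fin r × Fin n → C)
    (ρ : Fin r → Fin r ⊕ Fin n) : f (mnrr p ρ) = mnrr (fun s => f (p s)) ρ := by
  rw [mnrr, RingHom.map_det]
  congr 1
  ext i a
  change f (colr p (ρ a) i) = colr (fun s => f (p s)) (ρ a) i
  rcases ρ a with j | j
  · change f (if i = j then 1 else 0) = if i = j then 1 else 0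
    split_ifs
    · exact map_one f
    · exact map_zero f
  · rfl

lemma aeval_pluckerr {C : Type} [CommRing C] [Algebra R C] (p : Fin r × Fin n → C)
    (ρ : Fin r → Fin r ⊕ Fin n) : aeval p (pluckerr R r ρ) = mnrr p ρ := by
  rw [pluckerr, AlgHom.map_det]
  congr 1
  ext i a
  change aeval p (gcolr R r (ρ a) i) = colr p (ρ a) i
  rcases ρ a with j | j
  · change aeval p (if i = j then 1 else 0) = if i = j then 1 else 0
    split_ifs
    · exact map_one _
    · exact map_zero _
  · exact aeval_X p _

open Classical in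
/-- the product of the minors in `B` -/
noncomputable def fprodr {S : Pts R (Fin r × Fin n)} (B : Finset (Finset (Fin r ⊕ Fin n))) :
    Fn S where
  val _ _ _ p := ∏ ρ ∈ Finset.univ.filter fun ρ : Fin r → Fin r ⊕ Fin n =>
    Function.Injective ρ ∧ Finset.univ.image ρ ∈ B, mnrr p ρ
  nat {C D} _ _ _ _ f p _ := by
    rw [map_prod]
    exact Finset.prod_congr rfl fun ρ _ => mnrr_map (f : C →+* D) p ρ

/-- the points of a thin cell -/
def Sr (R : Type) [CommRing R] (B : Finset (Finset (Fin r ⊕ Fin n))) : Pts R (Fin r × Fin n) where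
  pts _ _ _ p := ∀ ρ : Fin r → Fin r ⊕ Fin n, Function.Injective ρ →
    Zu (decide (Finset.univ.image ρ ∈ B)) (mnrr p ρ)
  map {C D} _ _ _ _ f p h ρ hρ := by
    have h1 := (h ρ hρ).map (f : C →+* D)
    rw [mnrr_map] at h1
    exact h1

lemma sr_iff (B : Finset (Finset (Fin r ⊕ Fin n))) (C : Type) [CommRing C] [Algebra R C]
    (p : Fin r × Fin n → C) :
    ((zer (minorsr R r B)).opn (fprodr B)).pts C p ↔ (Sr R B).pts C p := by
  have h0 : (zer (minorsr R r B)).pts C p ↔ ∀ ρ : Fin r → Fin r ⊕ Fin n, Function.Injective ρ →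
      Finset.univ.image ρ ∉ B → mnrr p ρ = 0 := by
    constructor
    · intro h ρ hρ hZ
      rw [← aeval_pluckerr (R := R)]
      exact h _ ⟨ρ, hρ, hZ, rfl⟩
    · rintro h _ ⟨ρ, hρ, hZ, rfl⟩
      rw [aeval_pluckerr]
      exact h ρ hρ hZ
  have h1 : IsUnit ((fprodr (R := R) (S := zer (minorsr R r B)) B).val C p) ↔
      ∀ ρ : Fin r → Fin r ⊕ Fin n, Function.Injective ρ →
      Finset.univ.image ρ ∈ B → IsUnit (mnrr p ρ) := by
    classical
    simp only [fprodr]
    rw [IsUnit.prod_iff]
    constructor
    · intro h ρ hρ hB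
      exact h ρ (by simp [hρ, hB])
    · intro h ρ hρ
      simp only [Finset.mem_filter, Finset.mem_univ, true_and] at hρ
      exact h ρ hρ.1 hρ.2
  constructor
  · rintro ⟨h2, h3⟩ ρ hρ
    exact ⟨fun h4 => h1.mp h3 ρ hρ (of_decide_eq_true h4),
      fun h4 => h0.mp h2 ρ hρ (of_decide_eq_false h4)⟩
  · intro h
    exact ⟨h0.mpr fun ρ hρ h4 => (h ρ hρ).2 (decide_eq_false h4),
      h1.mpr fun ρ hρ h4 => (h ρ hρ).1 (decide_eq_true h4)⟩

lemma rep_sr (B : Finset (Finset (Fin r ⊕ Fin n))) : ∃ a, Rep (Sr R B) (Thinr R r B) a := by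
  have h1 := (rep_zer (minorsr R r B)).opn (fprodr B)
  have h2 : (fprodr (R := R) (S := zer (minorsr R r B)) B).val _ (fun s =>
      Ideal.Quotient.mkₐ R (Ideal.span (minorsr R r B)) (X s)) = prodr R r B := by
    refine Finset.prod_congr rfl fun ρ _ => ?_
    have h3 : aeval (fun s => Ideal.Quotient.mkₐ R (Ideal.span (minorsr R r B)) (X s)) =
        Ideal.Quotient.mkₐ R (Ideal.span (minorsr R r B)) := by
      apply MvPolynomial.algHom_ext
      intro s
      rw [aeval_X]
    rw [← aeval_pluckerr (R := R), h3]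
    rfl
  rw [h2] at h1
  exact ⟨_, (sr_iff B _ _).mp h1.mem, fun C _ _ p hp => h1.ex C p ((sr_iff B C p).mpr hp),
    h1.uniq⟩

lemma repr_sr (B : Finset (Finset (Fin r ⊕ Fin n))) : Repr (Sr R B) := by
  obtain ⟨a, ha⟩ := rep_sr (R := R) B
  exact ⟨_, inferInstance, inferInstance,
    Algebra.FiniteType.trans (S := MvPolynomial (Fin r × Fin n) R ⧸ Ideal.span (minorsr R r B))
      inferInstance inferInstance, _, ha, trivial⟩

/-- the determinant of two columns -/
def d2 {C : Type} [CommRing C] (p : Fin 2 × Fin n → C) (s t : Fin 2 ⊕ Fin n) : C :=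
  colr p s 0 * colr p t 1 - colr p t 0 * colr p s 1

lemma d2_inl {C : Type} [CommRing C] (p : Fin 2 × Fin n → C) : d2 p (.inl 0) (.inl 1) = 1 := by
  simp [d2, colr]

lemma mnrr_two {C : Type} [CommRing C] (p : Fin 2 × Fin n → C) (ρ : Fin 2 → Fin 2 ⊕ Fin n) :
    mnrr p ρ = d2 p (ρ 0) (ρ 1) := by
  rw [mnrr, Matrix.det_fin_two]
  rfl

lemma image_two (ρ : Fin 2 → Fin 2 ⊕ Fin n) :
    Finset.univ.image ρ = {ρ 0, ρ 1} := by
  ext x
  simp only [Finset.mem_image, Finset.mem_univ, true_and, Finset.mem_insert, Finset.mem_singleton]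
  constructor
  · rintro ⟨a, rfl⟩
    fin_cases a
    · exact Or.inl rfl
    · exact Or.inr rfl
  · rintro (h | h)
    · exact ⟨0, h.symm⟩
    · exact ⟨1, h.symm⟩

lemma sr_two (B : Finset (Finset (Fin 2 ⊕ Fin n))) (C : Type) [CommRing C] [Algebra R C]
    (p : Fin 2 × Fin n → C) : (Sr R B).pts C p ↔ ∀ s t, s ≠ t → Zu (decide ({s, t} ∈ B)) (d2 p s t) := by
  constructor
  · intro h s t hst
    have h1 := h ![s, t] (by
      intro a b hab
      fin_cases a <;> fin_cases b
      · rfl
      · exact absurd hab hst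
      · exact absurd hab.symm hst
      · rfl)
    rw [mnrr_two, image_two] at h1
    exact h1
  · intro h ρ hρ
    rw [mnrr_two, image_two]
    exact h _ _ fun h1 => absurd (hρ h1) (by decide)

/-- **Thin Schubert cells of the Grassmannians `Gr(2, 2 + n)`.** -/
theorem on_thin (hP : Clo sep P) (hA : ∀ n : ℕ, P (aff R (MvPolynomial (Fin n) R))) :
    OnThinr 2 P := by
  intro n B
  obtain ⟨a₀, ha⟩ := rep_sr (R := R) B
  suffices h : HolA P (Sr R B) from h.hol.of_rep hP ha
  by_cases hB : ({.inl 0, .inl 1} : Finset (Fin 2 ⊕ Fin n)) ∈ B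
  · let a : Fin n → Bool := fun j => decide ({.inl 1, .inr j} ∈ B)
    let b : Fin n → Bool := fun j => decide ({.inl 0, .inr j} ∈ B)
    let c : Fin n → Fin n → Bool := fun i j => if i = j then false else decide ({.inr i, .inr j} ∈ B)
    have key : ∀ (C : Type) [CommRing C] [Algebra R C] (q : Fin n × Bool → C)
        (p : Fin 2 × Fin n → C), (∀ j, p (0, j) = q (j, false)) → (∀ j, p (1, j) = q (j, true)) →
        ((Cfg R (Fin n) a b c).pts C q ↔ (Sr R B).pts C p) := by
      intro C _ _ q p h0 h1
      rw [sr_two]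
      have e1 : ∀ i j : Fin n, d2 p (.inr i) (.inr j) = dt q i j := by
        intro i j
        change p (0, i) * p (1, j) - p (0, j) * p (1, i) = _
        rw [h0, h0, h1, h1]
        rfl
      have e2 : ∀ j : Fin n, d2 p (.inl 0) (.inr j) = q (j, true) := by
        intro j
        change (if (0 : Fin 2) = 0 then (1 : C) else 0) * p (1, j) -
          p (0, j) * (if (1 : Fin 2) = 0 then (1 : C) else 0) = _
        rw [if_pos rfl, if_neg (by decide), h1]
        ring
      have e3 : ∀ j : Fin n, d2 p (.inl 1) (.inr j) = -q (j, false) := by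
        intro j
        change (if (0 : Fin 2) = 1 then (1 : C) else 0) * p (1, j) -
          p (0, j) * (if (1 : Fin 2) = 1 then (1 : C) else 0) = _
        rw [if_pos rfl, if_neg (by decide), h0]
        ring
      have e4 : d2 p (.inl 0) (.inl 1) = 1 := d2_inl p
      have e5 : ∀ s t, d2 p t s = -d2 p s t := by
        intro s t
        simp only [d2]
        ring
      constructor
      · rintro ⟨k1, k2⟩ s t hst
        -- the same for the other order
        have sw : ∀ s t, Zu (decide (({s, t} : Finset (Fin 2 ⊕ Fin n)) ∈ B)) (d2 p s t) →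
            Zu (decide (({t, s} : Finset (Fin 2 ⊕ Fin n)) ∈ B)) (d2 p t s) := by
          intro s t h
          rw [e5, Finset.pair_comm]
          exact h.neg
        have m2 : ∀ j : Fin n, Zu (decide (({.inl 0, .inr j} : Finset (Fin 2 ⊕ Fin n)) ∈ B))
            (d2 p (.inl 0) (.inr j)) := by
          intro j
          rw [e2]
          exact (k1 j).2
        have m3 : ∀ j : Fin n, Zu (decide (({.inl 1, .inr j} : Finset (Fin 2 ⊕ Fin n)) ∈ B))
            (d2 p (.inl 1) (.inr j)) := by
          intro j
          rw [e3]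
          exact (k1 j).1.neg
        have m4 : Zu (decide (({.inl 0, .inl 1} : Finset (Fin 2 ⊕ Fin n)) ∈ B))
            (d2 p (.inl 0) (.inl 1)) := by
          rw [e4, decide_eq_true hB]
          exact zu_one
        have m5 : ∀ (x : Fin 2) (j : Fin n), Zu (decide (({.inl x, .inr j} :
            Finset (Fin 2 ⊕ Fin n)) ∈ B)) (d2 p (.inl x) (.inr j)) := by
          intro x j
          fin_cases x
          · exact m2 j
          · exact m3 j
        rcases s with x | i
        · rcases t with y | j
          · fin_cases x <;> fin_cases y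
            · exact absurd rfl hst
            · exact m4
            · exact sw _ _ m4
            · exact absurd rfl hst
          · exact m5 x j
        · rcases t with y | j
          · exact sw _ _ (m5 y i)
          · rw [e1]
            have hij : i ≠ j := fun h => hst (by rw [h])
            have h2 := k2 i j
            simp only [c, if_neg hij] at h2
            exact h2
      · intro h
        refine ⟨fun j => ⟨?_, ?_⟩, fun i j => ?_⟩
        · have h2 := (h (.inl 1) (.inr j) (by simp)).neg
          rw [e3, neg_neg] at h2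
          exact h2
        · have h2 := h (.inl 0) (.inr j) (by simp)
          rw [e2] at h2
          exact h2
        · by_cases hij : i = j
          · subst hij
            have h2 : dt q i i = 0 := sub_self _
            simp only [c, if_true, h2]
            exact zu_zero
          · have h2 := h (.inr i) (.inr j) (by simpa using hij)
            rw [e1] at h2
            simp only [c, if_neg hij]
            exact h2
    refine (holA_cfg hP hA (Fin n) a b c).trans
      (F := fun _ _ _ q s => if s.1 = 0 then q (s.2, false) else q (s.2, true))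
      (G := fun _ _ _ p t => p (if t.2 then 1 else 0, t.1)) ?_
    exact
    { natF := fun f q _ s => by
        change f (if s.1 = 0 then q (s.2, false) else q (s.2, true)) =
          if s.1 = 0 then f (q (s.2, false)) else f (q (s.2, true))
        split_ifs <;> rfl
      natG := fun _ _ _ _ => rfl
      memF := fun C _ _ q hq => (key C q _ (fun _ => rfl) fun _ => rfl).mp hq
      memG := fun C _ _ p hp => (key C _ p (fun _ => rfl) fun _ => rfl).mpr hp
      GF := fun C _ _ q _ => by
        funext t
        obtain ⟨j, _ | _⟩ := t <;> rfl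
      FG := fun C _ _ p _ => by
        funext s
        obtain ⟨i, j⟩ := s
        fin_cases i <;> rfl }
  · refine HolA.void hP (holA_pnt hP hA PEmpty) (fun C _ _ p hC ρ _ => zu_sub _ hC)
      (fun C _ _ p hp => ?_)
    have h1 := (sr_two B C p).mp hp (.inl 0) (.inl 1) (by simp)
    rw [d2_inl, decide_eq_false hB] at h1
    exact h1.sub zu_one (by decide)

/-- affine spaces, from the thin Schubert cells of the Grassmannians `Gr(2, 2 + n)` -/
theorem space_of_thin (hP : Clo sep P) (h : OnThinr 2 P) (n : ℕ) :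
    P (aff R (MvPolynomial (Fin n) R)) := by
  refine space_of_tor hP (fun n => ?_) n
  classical
  -- the first row zero, the second row invertible
  let B : Finset (Finset (Fin 2 ⊕ Fin n)) :=
    insert {.inl 0, .inl 1} (Finset.univ.image fun j : Fin n => {.inl 0, .inr j})
  obtain ⟨a₀, ha⟩ := rep_sr (R := R) B
  have h1 : Hol P (Sr R B) := ⟨_, inferInstance, inferInstance,
    Algebra.FiniteType.trans (S := MvPolynomial (Fin 2 × Fin n) R ⧸ Ideal.span (minorsr R 2 B))
      inferInstance inferInstance, _, ha, h n B⟩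
  have b1 : ∀ j : Fin n, ({.inl 0, .inr j} : Finset (Fin 2 ⊕ Fin n)) ∈ B := fun j =>
    Finset.mem_insert_of_mem (Finset.mem_image_of_mem _ (Finset.mem_univ j))
  have b2 : ({.inl 0, .inl 1} : Finset (Fin 2 ⊕ Fin n)) ∈ B := Finset.mem_insert_self _ _
  have b3 : ∀ s : Finset (Fin 2 ⊕ Fin n), (.inl 0 : Fin 2 ⊕ Fin n) ∉ s → s ∉ B := by
    intro s hs hB
    rcases Finset.mem_insert.mp hB with rfl | hB
    · exact hs (Finset.mem_insert_self _ _)
    · obtain ⟨j, -, rfl⟩ := Finset.mem_image.mp hB
      exact hs (Finset.mem_insert_self _ _)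
  have key : ∀ (C : Type) [CommRing C] [Algebra R C] (p : Fin 2 × Fin n → C),
      (Sr R B).pts C p ↔ (∀ j, p (0, j) = 0) ∧ ∀ j, IsUnit (p (1, j)) := by
    intro C _ _ p
    rw [sr_two]
    have e1 : ∀ i j : Fin n, d2 p (.inr i) (.inr j) = p (0, i) * p (1, j) - p (0, j) * p (1, i) :=
      fun _ _ => rfl
    have e2 : ∀ j : Fin n, d2 p (.inl 0) (.inr j) = p (1, j) := by
      intro j
      simp [d2, colr]
    have e3 : ∀ j : Fin n, d2 p (.inl 1) (.inr j) = -p (0, j) := by
      intro j
      simp [d2, colr]
    have e5 : ∀ s t, d2 p t s = -d2 p s t := by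
      intro s t
      simp only [d2]
      ring
    constructor
    · intro h
      refine ⟨fun j => ?_, fun j => ?_⟩
      · have h2 := (h (.inl 1) (.inr j) (by simp)).2 (decide_eq_false (b3 _ (by simp)))
        rwa [e3, neg_eq_zero] at h2
      · have h2 := (h (.inl 0) (.inr j) (by simp)).1 (decide_eq_true (b1 j))
        rwa [e2] at h2
    · rintro ⟨k1, k2⟩ s t hst
      have sw : ∀ s t, Zu (decide (({s, t} : Finset (Fin 2 ⊕ Fin n)) ∈ B)) (d2 p s t) →
          Zu (decide (({t, s} : Finset (Fin 2 ⊕ Fin n)) ∈ B)) (d2 p t s) := by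
        intro s t h
        rw [e5, Finset.pair_comm]
        exact h.neg
      have m4 : Zu (decide (({.inl 0, .inl 1} : Finset (Fin 2 ⊕ Fin n)) ∈ B))
          (d2 p (.inl 0) (.inl 1)) := by
        rw [d2_inl, decide_eq_true b2]
        exact zu_one
      have m5 : ∀ (x : Fin 2) (j : Fin n), Zu (decide (({.inl x, .inr j} :
          Finset (Fin 2 ⊕ Fin n)) ∈ B)) (d2 p (.inl x) (.inr j)) := by
        intro x j
        fin_cases x
        · change Zu (decide (({.inl 0, .inr j} : Finset (Fin 2 ⊕ Fin n)) ∈ B)) (d2 p (.inl 0) (.inr j))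
          rw [e2, decide_eq_true (b1 j)]
          exact ⟨fun _ => k2 j, fun h => Bool.noConfusion h⟩
        · change Zu (decide (({.inl 1, .inr j} : Finset (Fin 2 ⊕ Fin n)) ∈ B)) (d2 p (.inl 1) (.inr j))
          rw [e3, decide_eq_false (b3 _ (by simp)), k1, neg_zero]
          exact zu_zero
      rcases s with x | i
      · rcases t with y | j
        · fin_cases x <;> fin_cases y
          · exact absurd rfl hst
          · exact m4
          · exact sw _ _ m4
          · exact absurd rfl hst
        · exact m5 x j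
      · rcases t with y | j
        · exact sw _ _ (m5 y i)
        · rw [e1, decide_eq_false (b3 _ (by simp)), k1, k1, zero_mul, zero_mul, sub_zero]
          exact zu_zero
  refine h1.trans (F := fun _ _ _ p j => p (1, j))
    (G := fun _ _ _ q s => if s.1 = 0 then 0 else q s.2) ?_
  exact
  { natF := fun _ _ _ _ => rfl
    natG := fun f q _ s => by
      split_ifs
      · exact map_zero f
      · rfl
    memF := fun C _ _ p hp j => ⟨fun _ => ((key C p).mp hp).2 j, fun h => Bool.noConfusion h⟩
    memG := fun C _ _ q hq => (key C _).mpr ⟨fun _ => rfl, fun j => (hq j).1 rfl⟩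
    GF := fun C _ _ p hp => by
      funext s
      obtain ⟨i, j⟩ := s
      fin_cases i
      · exact (((key C p).mp hp).1 j).symm
      · rfl
    FG := fun _ _ _ _ _ => rfl }

end Pool.Agent.H55.TH
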